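import Pool.Agent.H12.OL.Count

/-! # Capacities of annuli, part A: one shift -/

set_option autoImplicit false
set_option linter.unusedSectionVars false

noncomputable section

namespace Pool.Agent.H12.OL

open MeasureTheory Pool.Agent.H5R2.ON Pool.Agent.H717R2.ON3

/-- scalar product of the coordinates -/
def dt {L : ℕ} (y z : Tor L) : ℝ :=
  ((cr y).1 : ℝ) * ((cr z).1 : ℝ) + ((cr y).2 : ℝ) * ((cr z).2 : ℝ)

theorem abs_cr_le {L : ℕ} (z : Tor L) :
    |((cr z).1 : ℝ)| ≤ tnorm z ∧ |((cr z).2 : ℝ)| ≤ tnorm z := by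
  have h := tnorm_sq z
  have h0 := tnorm_nonneg z
  constructor
  · rw [← Real.sqrt_sq h0, ← Real.sqrt_sq_eq_abs]
    exact Real.sqrt_le_sqrt (by nlinarith [sq_nonneg ((cr z).2 : ℝ)])
  · rw [← Real.sqrt_sq h0, ← Real.sqrt_sq_eq_abs]
    exact Real.sqrt_le_sqrt (by nlinarith [sq_nonneg ((cr z).1 : ℝ)])

theorem vma_add {L : ℕ} [NeZero L] (u v : ZMod L)
    (h : (|(u.valMinAbs : ℝ)| + |(v.valMinAbs : ℝ)|) * 2 < L) :
    (u + v).valMinAbs = u.valMinAbs + v.valMinAbs := by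
  have h' : (|u.valMinAbs| + |v.valMinAbs|) * 2 < (L : ℤ) := by
    have : (((|u.valMinAbs| + |v.valMinAbs|) * 2 : ℤ) : ℝ) < ((L : ℤ) : ℝ) := by
      push_cast
      exact h
    exact_mod_cast this
  rw [ZMod.valMinAbs_spec]
  refine ⟨by simp, ?_, ?_⟩
  · have h1 := neg_abs_le u.valMinAbs
    have h2 := neg_abs_le v.valMinAbs
    linarith
  · have h1 := le_abs_self u.valMinAbs
    have h2 := le_abs_self v.valMinAbs
    linarith

theorem vma_neg {L : ℕ} [NeZero L] (u : ZMod L) (h : |(u.valMinAbs : ℝ)| * 2 < L) :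
    (-u).valMinAbs = -u.valMinAbs := by
  have h' : |u.valMinAbs| * 2 < (L : ℤ) := by
    have : ((|u.valMinAbs| * 2 : ℤ) : ℝ) < ((L : ℤ) : ℝ) := by
      push_cast
      exact h
    exact_mod_cast this
  rw [ZMod.valMinAbs_spec]
  refine ⟨by simp, ?_, ?_⟩
  · have h1 := le_abs_self u.valMinAbs
    linarith
  · have h1 := neg_abs_le u.valMinAbs
    linarith

theorem tnorm_add_sq {L : ℕ} [NeZero L] (y z : Tor L) (h : (tnorm y + tnorm z) * 2 < L) :
    tnorm (y + z) ^ 2 = tnorm y ^ 2 + 2 * dt y z + tnorm z ^ 2 := by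
  have hy := abs_cr_le y
  have hz := abs_cr_le z
  have e1 : (y.1 + z.1).valMinAbs = y.1.valMinAbs + z.1.valMinAbs := by
    refine vma_add _ _ (lt_of_le_of_lt ?_ h)
    exact mul_le_mul_of_nonneg_right (add_le_add hy.1 hz.1) (by norm_num)
  have e2 : (y.2 + z.2).valMinAbs = y.2.valMinAbs + z.2.valMinAbs := by
    refine vma_add _ _ (lt_of_le_of_lt ?_ h)
    exact mul_le_mul_of_nonneg_right (add_le_add hy.2 hz.2) (by norm_num)
  rw [tnorm_sq, tnorm_sq, tnorm_sq]
  unfold dt cr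
  simp only [Prod.fst_add, Prod.snd_add, e1, e2]
  push_cast
  ring

/-- rotation by 90 degrees -/
def rt {L : ℕ} (z : Tor L) : Tor L := (-z.2, z.1)

theorem tnorm_rt {L : ℕ} (z : Tor L) : tnorm (rt z) = tnorm z := by
  unfold tnorm rt
  simp only
  rw [valMinAbs_sq_neg, add_comm]

theorem rt_add {L : ℕ} (y z : Tor L) : rt (y + z) = rt y + rt z := by
  unfold rt
  ext
  · simp; ring
  · simp

theorem rt_bij {L : ℕ} : Function.Bijective (rt : Tor L → Tor L) := by
  constructor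
  · intro y z h
    unfold rt at h
    rw [Prod.mk.injEq] at h
    exact Prod.ext h.2 (neg_injective h.1)
  · intro y
    refine ⟨(y.2, -y.1), ?_⟩
    unfold rt
    simp

theorem dt_rt {L : ℕ} [NeZero L] (y z : Tor L) (h : tnorm z * 2 < L) :
    dt y z ^ 2 + dt y (rt z) ^ 2 = tnorm y ^ 2 * tnorm z ^ 2 := by
  have hz := abs_cr_le z
  have e1 : (-z.2).valMinAbs = -z.2.valMinAbs := by
    refine vma_neg _ (lt_of_le_of_lt ?_ h)
    exact mul_le_mul_of_nonneg_right hz.2 (by norm_num)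
  rw [tnorm_sq, tnorm_sq]
  unfold dt cr rt
  simp only [e1]
  push_cast
  ring

theorem dt_le {L : ℕ} (y z : Tor L) : |dt y z| ≤ tnorm y * tnorm z := by
  have h1 : dt y z ^ 2 ≤ (tnorm y * tnorm z) ^ 2 := by
    rw [mul_pow, tnorm_sq, tnorm_sq]
    unfold dt
    nlinarith [sq_nonneg (((cr y).1 : ℝ) * (cr z).2 - ((cr y).2 : ℝ) * (cr z).1)]
  exact abs_le_of_sq_le_sq h1 (mul_nonneg (tnorm_nonneg _) (tnorm_nonneg _))

theorem log_num (t δ l u : ℝ) (ht : 0 ≤ t) (ht6 : 6 * t ≤ 1) (hδ : |δ| ≤ t) (hu : u = 2 * δ + t ^ 2)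
    (h1 : l ≤ u) (h2 : u - 2 * u ^ 2 ≤ l) : (l / 2) ^ 2 ≤ δ ^ 2 + 16 * t ^ 3 := by
  obtain ⟨hδ1, hδ2⟩ := abs_le.1 hδ
  obtain ⟨w, hw⟩ : ∃ w, w = l / 2 - δ := ⟨_, rfl⟩
  have hu1 : |u| ≤ 13 / 6 * t := by
    rw [abs_le]
    constructor <;> nlinarith
  have hu2 : u ^ 2 ≤ (13 / 6 * t) ^ 2 := by
    rw [← sq_abs]
    exact pow_le_pow_left₀ (abs_nonneg _) hu1 2
  have hw1 : |w| ≤ 6 * t ^ 2 := by
    rw [hw, abs_le]
    constructor <;> nlinarith
  have hw2 : w ^ 2 ≤ (6 * t ^ 2) ^ 2 := by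
    rw [← sq_abs]
    exact pow_le_pow_left₀ (abs_nonneg _) hw1 2
  have hlw : l / 2 = δ + w := by rw [hw]; ring
  have h3 : δ * w ≤ t * |w| := by
    calc δ * w ≤ |δ * w| := le_abs_self _
      _ = |δ| * |w| := abs_mul _ _
      _ ≤ t * |w| := mul_le_mul_of_nonneg_right hδ (abs_nonneg _)
  have hw3 : |w| ≤ 21 / 4 * t ^ 2 := by
    rw [hw, abs_le]
    constructor <;> nlinarith
  have h4 : t * |w| ≤ t * (21 / 4 * t ^ 2) := mul_le_mul_of_nonneg_left hw3 ht
  have hw4 : w ^ 2 ≤ (21 / 4 * t ^ 2) ^ 2 := by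
    rw [← sq_abs]
    exact pow_le_pow_left₀ (abs_nonneg _) hw3 2
  have h5 : (21 / 4 * t ^ 2) ^ 2 ≤ 5 * t ^ 3 := by
    have : (21 / 4 * t ^ 2) ^ 2 = (441 / 16 * t) * t ^ 3 := by ring
    rw [this]
    refine mul_le_mul_of_nonneg_right ?_ (by positivity)
    linarith
  rw [hlw]
  have h6 : t * (21 / 4 * t ^ 2) = 21 / 4 * t ^ 3 := by ring
  have h7 : 0 ≤ t ^ 3 := by positivity
  nlinarith

/-- the logarithm of the distance: one shift -/
theorem log_pt {L : ℕ} [NeZero L] (y z : Tor L) (hy : 0 < tnorm y) (h6 : 6 * tnorm z ≤ tnorm y)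
    (hL : (tnorm y + tnorm z) * 2 < L) :
    (Real.log (tnorm (y + z)) - Real.log (tnorm y)) ^ 2 ≤
      dt y z ^ 2 / tnorm y ^ 4 + 16 * (tnorm z ^ 3 / tnorm y ^ 3) := by
  have hz0 := tnorm_nonneg z
  have hsq := tnorm_add_sq y z hL
  have hd := dt_le y z
  have hb0 := tnorm_nonneg (y + z)
  generalize tnorm (y + z) = b at *
  generalize tnorm y = a at *
  generalize tnorm z = ζ at *
  generalize dt y z = d at *
  obtain ⟨t, ht⟩ : ∃ t, t = ζ / a := ⟨_, rfl⟩
  obtain ⟨δ, hδ⟩ : ∃ δ, δ = d / a ^ 2 := ⟨_, rfl⟩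
  obtain ⟨u, hu⟩ : ∃ u, u = 2 * δ + t ^ 2 := ⟨_, rfl⟩
  have ht0 : 0 ≤ t := by rw [ht]; positivity
  have ht6 : 6 * t ≤ 1 := by
    rw [ht, mul_div_assoc', div_le_one hy]
    exact h6
  have hδt : |δ| ≤ t := by
    rw [hδ, ht, abs_div, abs_of_pos (by positivity : 0 < a ^ 2), div_le_div_iff₀ (by positivity) hy]
    calc |d| * a ≤ (a * ζ) * a := mul_le_mul_of_nonneg_right hd hy.le
      _ = ζ * a ^ 2 := by ring
  have hb2 : b ^ 2 = a ^ 2 * (1 + u) := by
    rw [hsq, hu, hδ, ht]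
    field_simp
    ring
  have hu1 : |u| ≤ 13 / 6 * t := by
    obtain ⟨hδ1, hδ2⟩ := abs_le.1 hδt
    rw [abs_le]
    constructor <;> nlinarith
  have hu2 := abs_le.1 hu1
  have h1u : 1 / 2 ≤ 1 + u := by linarith
  have hbpos : 0 < b := by
    have h1 : 0 < b ^ 2 := by rw [hb2]; positivity
    exact lt_of_le_of_ne hb0 fun h => by rw [← h] at h1; simp at h1
  have hlog : Real.log b - Real.log a = Real.log (1 + u) / 2 := by
    have h2 : Real.log (b ^ 2) = Real.log (a ^ 2) + Real.log (1 + u) := by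
      rw [hb2, Real.log_mul (by positivity) (by linarith)]
    rw [Real.log_pow, Real.log_pow] at h2
    push_cast at h2
    linarith
  rw [hlog]
  have h3 : Real.log (1 + u) ≤ u := by
    have := Real.log_le_sub_one_of_pos (by linarith : 0 < 1 + u)
    linarith
  have h4 : u - 2 * u ^ 2 ≤ Real.log (1 + u) := by
    have h5 := Real.one_sub_inv_le_log_of_pos (x := 1 + u) (by linarith)
    refine le_trans ?_ h5
    have h6' : 1 - (1 + u)⁻¹ = u / (1 + u) := by
      field_simp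
      ring
    rw [h6', le_div_iff₀ (by linarith)]
    nlinarith [sq_nonneg u, mul_nonneg (sq_nonneg u) (by linarith : 0 ≤ 1 + 2 * u)]
  refine (log_num t δ _ u ht0 ht6 hδt hu h3 h4).trans (le_of_eq ?_)
  rw [hδ, ht, div_pow, div_pow]
  ring

/-- radial profile -/
def gr (r q t : ℝ) : ℝ := max 0 (1 - Real.log (max (2 * r) t / (2 * r)) / q)

/-- logarithmic profile -/
def pr {L : ℕ} (r q : ℝ) (p x : Tor L) : ℝ := gr r q (tnorm (x - p))

theorem gr_inner {r : ℝ} (hr : 0 < r) (q : ℝ) {t : ℝ} (h : t ≤ 2 * r) : gr r q t = 1 := by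
  unfold gr
  rw [max_eq_left h, div_self (by positivity), Real.log_one]
  simp

theorem gr_outer {r : ℝ} (hr : 0 < r) {q : ℝ} (hq : 0 < q) {t : ℝ}
    (h : 2 * r * Real.exp q ≤ t) : gr r q t = 0 := by
  unfold gr
  refine max_eq_left ?_
  rw [sub_nonpos, le_div_iff₀ hq, one_mul, Real.le_log_iff_exp_le
    (div_pos (lt_max_of_lt_left (by positivity)) (by positivity)), le_div_iff₀ (by positivity)]
  calc Real.exp q * (2 * r) = 2 * r * Real.exp q := by ring
    _ ≤ _ := h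
    _ ≤ _ := le_max_right _ _

theorem gr_diff {r : ℝ} (hr : 0 < r) {q : ℝ} (hq : 0 < q) {s t : ℝ} (hs : 0 < s) (ht : 0 < t) :
    (gr r q s - gr r q t) ^ 2 ≤ (1 / q ^ 2) * (Real.log s - Real.log t) ^ 2 := by
  have h1 : |gr r q s - gr r q t| ≤
      |Real.log (max (2 * r) s) - Real.log (max (2 * r) t)| / q := by
    unfold gr
    have := abs_max_sub_max_le_max 0 (1 - Real.log (max (2 * r) s / (2 * r)) / q) 0
      (1 - Real.log (max (2 * r) t / (2 * r)) / q)
    refine this.trans ?_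
    rw [sub_self, abs_zero]
    refine max_le (by positivity) ?_
    have hs' : 0 < max (2 * r) s := lt_max_of_lt_right hs
    have ht' : 0 < max (2 * r) t := lt_max_of_lt_right ht
    rw [Real.log_div hs'.ne' (by positivity), Real.log_div ht'.ne' (by positivity)]
    have e : 1 - (Real.log (max (2 * r) s) - Real.log (2 * r)) / q -
        (1 - (Real.log (max (2 * r) t) - Real.log (2 * r)) / q) =
        -((Real.log (max (2 * r) s) - Real.log (max (2 * r) t)) / q) := by ring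
    rw [e, abs_neg, abs_div, abs_of_pos hq]
  have h2 : |Real.log (max (2 * r) s) - Real.log (max (2 * r) t)| ≤
      |Real.log s - Real.log t| := by
    have e : ∀ x : ℝ, 0 < x → Real.log (max (2 * r) x) = max (Real.log (2 * r)) (Real.log x) := by
      intro x hx
      rcases le_total (2 * r) x with h | h
      · rw [max_eq_right h, max_eq_right (Real.log_le_log (by positivity) h)]
      · rw [max_eq_left h, max_eq_left (Real.log_le_log hx h)]
    rw [e s hs, e t ht]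
    have := abs_max_sub_max_le_max (Real.log (2 * r)) (Real.log s) (Real.log (2 * r)) (Real.log t)
    refine this.trans ?_
    rw [sub_self, abs_zero]
    exact max_le (abs_nonneg _) le_rfl
  have h3 : |gr r q s - gr r q t| ≤ |Real.log s - Real.log t| / q :=
    h1.trans (div_le_div_of_nonneg_right h2 hq.le)
  calc (gr r q s - gr r q t) ^ 2 = |gr r q s - gr r q t| ^ 2 := (sq_abs _).symm
    _ ≤ (|Real.log s - Real.log t| / q) ^ 2 := pow_le_pow_left₀ (abs_nonneg _) h3 2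
    _ = _ := by rw [div_pow, sq_abs]; ring

end Pool.Agent.H12.OL
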