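import Pool.Agent.H12.OL.CapA
import Pool.Agent.H12.LN.Iter
import Pool.Agent.H12.MG.Model

/-! # Capacities of annuli, part B: the energy -/

set_option autoImplicit false
set_option linter.unusedSectionVars false

noncomputable section

namespace Pool.Agent.H12.OL

open MeasureTheory Pool.Agent.H5R2.ON Pool.Agent.H717R2.ON3 Pool.Agent.H983R2.ONJ
open Pool.Agent.Results.MP_8be4c0_mp.MassLowerBound (cJ)

/-- the pointwise bound -/
theorem pr_pt {L : ℕ} [NeZero L] (r q : ℝ) (hr : 0 < r) (hq : 0 < q) (y z : Tor L)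
    (h6 : 6 * tnorm z ≤ r) (hL : (2 * r * Real.exp q + 2 * tnorm z) * 2 < L) :
    (gr r q (tnorm y) - gr r q (tnorm (y + z))) ^ 2 ≤
      if r ≤ tnorm y ∧ 2 * r - tnorm z ≤ tnorm y ∧ tnorm y ≤ 2 * r * Real.exp q + tnorm z then
        (1 / q ^ 2) * (dt y z ^ 2 / tnorm y ^ 4 + 16 * (tnorm z ^ 3 / tnorm y ^ 3)) else 0 := by
  have hz0 := tnorm_nonneg z
  have hy0 := tnorm_nonneg y
  have hadd := tnorm_add_le y z
  have hadd2 : tnorm y - tnorm z ≤ tnorm (y + z) := by
    have h := tnorm_add_le (y + z) (-z)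
    rw [add_neg_cancel_right, tnorm_neg] at h
    linarith
  split_ifs with h
  · obtain ⟨h1, h2, h3⟩ := h
    have hy : 0 < tnorm y := by linarith
    have hyz : 0 < tnorm (y + z) := by linarith
    refine (gr_diff hr hq hy hyz).trans ?_
    refine mul_le_mul_of_nonneg_left ?_ (by positivity)
    have h4 := log_pt y z hy (by linarith) (by linarith)
    have e : (Real.log (tnorm y) - Real.log (tnorm (y + z))) ^ 2 =
        (Real.log (tnorm (y + z)) - Real.log (tnorm y)) ^ 2 := by ring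
    rw [e]
    exact h4
  · have h' : tnorm y < 2 * r - tnorm z ∨ 2 * r * Real.exp q + tnorm z < tnorm y := by
      by_contra hcon
      push Not at hcon
      exact h ⟨by linarith, hcon.1, hcon.2⟩
    rcases h' with h' | h'
    · rw [gr_inner hr q (by linarith), gr_inner hr q (by linarith)]
      simp
    · rw [gr_outer hr hq (by linarith), gr_outer hr hq (by linarith)]
      simp

/-- symmetry under the rotation by 90 degrees -/
theorem D_rt {L : ℕ} [NeZero L] (g : ℝ → ℝ) (z : Tor L) :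
    ∑ y : Tor L, (g (tnorm y) - g (tnorm (y + rt z))) ^ 2 =
      ∑ y : Tor L, (g (tnorm y) - g (tnorm (y + z))) ^ 2 := by
  rw [← (Equiv.ofBijective _ (rt_bij (L := L))).sum_comp
    (fun y : Tor L => (g (tnorm y) - g (tnorm (y + rt z))) ^ 2)]
  refine Finset.sum_congr rfl fun y _ => ?_
  simp only [Equiv.ofBijective_apply]
  rw [← rt_add, tnorm_rt, tnorm_rt]

/-- the energy of one shift -/
theorem D_le {L : ℕ} [NeZero L] (r q : ℝ) (hr : 2 ≤ r) (hq : 1 ≤ q) (z : Tor L)
    (h6 : 6 * tnorm z ≤ r) (hL : (2 * r * Real.exp q + 2 * tnorm z) * 2 < L) :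
    ∑ y : Tor L, (gr r q (tnorm y) - gr r q (tnorm (y + z))) ^ 2 ≤
      1 / 2 * tnorm z ^ 2 * ((1 + 32 * (tnorm z / r)) * (2 * Real.pi + 120 / q) / q) := by
  have hr0 : 0 < r := by linarith
  have hq0 : 0 < q := by linarith
  have hz0 := tnorm_nonneg z
  have hexp : 1 ≤ Real.exp q := Real.one_le_exp hq0.le
  have hπ := Real.pi_pos
  have hzL : tnorm z * 2 < L := by nlinarith
  have h1 := D_rt (gr r q) z
  -- the sum over `z` and its rotation
  have h2 : ∑ y : Tor L, ((gr r q (tnorm y) - gr r q (tnorm (y + z))) ^ 2 +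
      (gr r q (tnorm y) - gr r q (tnorm (y + rt z))) ^ 2) ≤
      ∑ y : Tor L, (1 / q ^ 2 * (tnorm z ^ 2 * (1 + 32 * (tnorm z / r)))) *
        (if 2 * r - tnorm z ≤ tnorm (y - 0) ∧ tnorm (y - 0) ≤ 2 * r * Real.exp q + tnorm z then
          1 / tnorm (y - 0) ^ 2 else 0) := by
    refine Finset.sum_le_sum fun y _ => ?_
    rw [sub_zero]
    have h3 := pr_pt r q hr0 hq0 y z h6 hL
    have h4 := pr_pt r q hr0 hq0 y (rt z) (by rw [tnorm_rt]; exact h6)
      (by rw [tnorm_rt]; exact hL)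
    rw [tnorm_rt] at h4
    by_cases h5 : 2 * r - tnorm z ≤ tnorm y ∧ tnorm y ≤ 2 * r * Real.exp q + tnorm z
    · have hry : r ≤ tnorm y := by linarith [h5.1]
      rw [if_pos ⟨hry, h5⟩] at h3 h4
      rw [if_pos h5]
      have hy : 0 < tnorm y := by linarith
      refine (add_le_add h3 h4).trans ?_
      have e1 : (1 / q ^ 2) * (dt y z ^ 2 / tnorm y ^ 4 + 16 * (tnorm z ^ 3 / tnorm y ^ 3)) +
          (1 / q ^ 2) * (dt y (rt z) ^ 2 / tnorm y ^ 4 + 16 * (tnorm z ^ 3 / tnorm y ^ 3)) =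
          (1 / q ^ 2) * ((dt y z ^ 2 + dt y (rt z) ^ 2) / tnorm y ^ 4 +
            32 * (tnorm z ^ 3 / tnorm y ^ 3)) := by ring
      rw [e1, dt_rt y z hzL]
      have e2 : tnorm y ^ 2 * tnorm z ^ 2 / tnorm y ^ 4 = tnorm z ^ 2 * (1 / tnorm y ^ 2) := by
        field_simp
      have h7 : tnorm z ^ 3 / tnorm y ^ 3 ≤ tnorm z ^ 2 * (tnorm z / r) * (1 / tnorm y ^ 2) := by
        have e3 : tnorm z ^ 3 / tnorm y ^ 3 = tnorm z ^ 2 * (tnorm z / tnorm y) *
            (1 / tnorm y ^ 2) := by field_simp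
        rw [e3]
        refine mul_le_mul_of_nonneg_right (mul_le_mul_of_nonneg_left ?_ (by positivity))
          (by positivity)
        exact div_le_div_of_nonneg_left hz0 hr0 hry
      rw [e2]
      calc (1 / q ^ 2) * (tnorm z ^ 2 * (1 / tnorm y ^ 2) + 32 * (tnorm z ^ 3 / tnorm y ^ 3))
          ≤ (1 / q ^ 2) * (tnorm z ^ 2 * (1 / tnorm y ^ 2) +
            32 * (tnorm z ^ 2 * (tnorm z / r) * (1 / tnorm y ^ 2))) := by gcongr
        _ = _ := by ring
    · rw [if_neg (fun h => h5 h.2)] at h3 h4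
      rw [if_neg h5]
      linarith
  rw [Finset.sum_add_distrib, h1, ← Finset.mul_sum] at h2
  have h3 := inv_sq_real L 0 (2 * r - tnorm z) (2 * r * Real.exp q + tnorm z) (by linarith)
    (by nlinarith)
  have h4 : Real.log ((2 * r * Real.exp q + tnorm z) / (2 * r - tnorm z)) ≤ q + 1 := by
    rw [Real.log_le_iff_le_exp (div_pos (by positivity) (by linarith)),
      div_le_iff₀ (by linarith), Real.exp_add]
    have h5 : (2 : ℝ) ≤ Real.exp 1 := by
      have := Real.add_one_le_exp (1 : ℝ)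
      linarith
    have h6' : 2 * r * Real.exp q + tnorm z ≤ 3 * r * Real.exp q := by nlinarith
    have h7 : 3 * r * Real.exp q ≤ Real.exp q * 2 * (2 * r - tnorm z) := by
      nlinarith [Real.exp_pos q]
    have h8 : Real.exp q * 2 * (2 * r - tnorm z) ≤ Real.exp q * Real.exp 1 *
        (2 * r - tnorm z) := by
      refine mul_le_mul_of_nonneg_right ?_ (by linarith)
      exact mul_le_mul_of_nonneg_left h5 (Real.exp_pos q).le
    linarith
  have h5 : 2 * Real.pi * Real.log ((2 * r * Real.exp q + tnorm z) / (2 * r - tnorm z)) + 110 ≤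
      q * (2 * Real.pi + 120 / q) := by
    have e : q * (2 * Real.pi + 120 / q) = 2 * Real.pi * q + 120 := by field_simp
    rw [e]
    have h6' := mul_le_mul_of_nonneg_left h4 hπ.le
    have h7 := Real.pi_lt_d2
    nlinarith
  have h8 : 0 ≤ 1 / q ^ 2 * (tnorm z ^ 2 * (1 + 32 * (tnorm z / r))) := by positivity
  have h9 := mul_le_mul_of_nonneg_left (h3.trans h5) h8
  have e5 : 1 / q ^ 2 * (tnorm z ^ 2 * (1 + 32 * (tnorm z / r))) * (q * (2 * Real.pi + 120 / q)) =
      tnorm z ^ 2 * ((1 + 32 * (tnorm z / r)) * (2 * Real.pi + 120 / q) / q) := by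
    field_simp
  rw [e5] at h9
  linarith

/-- half of the second moment of the coupling -/
def sig (J : ℤ × ℤ → ℝ) : ℝ := 1 / 2 * ∑' w : ℤ × ℤ, J w * znorm w ^ 2

theorem znorm_nonneg (w : ℤ × ℤ) : 0 ≤ znorm w := Real.sqrt_nonneg _

theorem Jz_nonneg {J : ℤ × ℤ → ℝ} (hJ : ∀ m, m ≠ 0 → 0 ≤ J m) (w : ℤ × ℤ) :
    0 ≤ J w * znorm w ^ 2 := by
  by_cases h : w = 0
  · subst h
    unfold znorm
    simp
  · exact mul_nonneg (hJ w h) (sq_nonneg _)

theorem summable_Jz {J : ℤ × ℤ → ℝ} {A a : ℝ} (ha : 0 < a)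
    (hJ : ∀ m, |J m| ≤ A * Real.exp (-a * znorm m)) :
    Summable fun w : ℤ × ℤ => J w * znorm w ^ 2 := by
  have hA : 0 ≤ A := by
    have := (abs_nonneg _).trans (hJ 0)
    exact nonneg_of_mul_nonneg_left this (Real.exp_pos _)
  refine Summable.of_norm_bounded
    (g := fun w : ℤ × ℤ => (A * (2 * (2 / a) ^ 2)) * Real.exp (-(a / 2) * znorm w)) ?_ ?_
  · exact (summable_exp_znorm (a / 2) (by linarith)).mul_left _
  · intro w
    rw [Real.norm_eq_abs, abs_mul, abs_of_nonneg (sq_nonneg (znorm w))]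
    have h1 := LN.sq_le_exp (t := (a / 2) * znorm w) (mul_nonneg (by linarith) (znorm_nonneg w))
    have h2 : znorm w ^ 2 = (2 / a) ^ 2 * ((a / 2) * znorm w) ^ 2 := by field_simp
    have h3 : znorm w ^ 2 ≤ 2 * (2 / a) ^ 2 * Real.exp ((a / 2) * znorm w) := by
      rw [h2]
      calc (2 / a) ^ 2 * ((a / 2) * znorm w) ^ 2
          ≤ (2 / a) ^ 2 * (2 * Real.exp ((a / 2) * znorm w)) :=
            mul_le_mul_of_nonneg_left h1 (by positivity)
        _ = _ := by ring
    calc |J w| * znorm w ^ 2 ≤ (A * Real.exp (-a * znorm w)) *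
          (2 * (2 / a) ^ 2 * Real.exp ((a / 2) * znorm w)) :=
          mul_le_mul (hJ w) h3 (sq_nonneg _) (mul_nonneg hA (Real.exp_pos _).le)
      _ = (A * (2 * (2 / a) ^ 2)) * (Real.exp (-a * znorm w) * Real.exp ((a / 2) * znorm w)) := by
          ring
      _ = _ := by
          rw [← Real.exp_add]
          congr 2
          ring

/-- second moment of the periodised coupling -/
theorem Jper_mom {J : ℤ × ℤ → ℝ} (hJ0 : ∀ m, m ≠ 0 → 0 ≤ J m) {A a : ℝ} (ha : 0 < a)
    (hJ : ∀ m, |J m| ≤ A * Real.exp (-a * znorm m)) (L : ℕ) [NeZero L] :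
    ∑ x : Tor L, Jper L J x * tnorm x ^ 2 ≤ 2 * sig J := by
  obtain ⟨f, hf⟩ : ∃ f : ℤ × ℤ → ℝ, f = fun w => J w * znorm w ^ 2 := ⟨_, rfl⟩
  have hf0 : ∀ w, 0 ≤ f w := fun w => by rw [hf]; exact Jz_nonneg hJ0 w
  have hfs : Summable f := by rw [hf]; exact summable_Jz ha hJ
  obtain ⟨ι, hι⟩ : ∃ ι : Tor L × (ℤ × ℤ) → ℤ × ℤ,
    ι = fun q : Tor L × (ℤ × ℤ) => (q.1.1.valMinAbs + L * q.2.1, q.1.2.valMinAbs + L * q.2.2) := ⟨_, rfl⟩
  have hL0 : (L : ℤ) ≠ 0 := by exact_mod_cast NeZero.ne L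
  have hinj : Function.Injective ι := by
    rintro ⟨⟨x1, x2⟩, k1, k2⟩ ⟨⟨y1, y2⟩, l1, l2⟩ h
    rw [hι] at h
    simp only [Prod.mk.injEq] at h
    have key : ∀ (u v : ZMod L) (k l : ℤ), u.valMinAbs + L * k = v.valMinAbs + L * l →
        u = v ∧ k = l := by
      intro u v k l h
      have h1 : ((u.valMinAbs + L * k : ℤ) : ZMod L) = ((v.valMinAbs + L * l : ℤ) : ZMod L) := by
        rw [h]
      have h2 : u = v := by
        push_cast at h1
        simpa using h1
      subst h2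
      refine ⟨rfl, ?_⟩
      have h3 : (L : ℤ) * k = L * l := by linarith
      exact mul_left_cancel₀ hL0 h3
    obtain ⟨h1, h2⟩ := h
    obtain ⟨a1, a2⟩ := key _ _ _ _ h1
    obtain ⟨b1, b2⟩ := key _ _ _ _ h2
    rw [a1, a2, b1, b2]
  have hs : Summable fun q => f (ι q) := hfs.comp_injective hinj
  have h1 : ∀ x : Tor L, Jper L J x * tnorm x ^ 2 ≤ ∑' k : ℤ × ℤ, f (ι (x, k)) := by
    intro x
    unfold Jper
    rw [← tsum_mul_right]
    refine ((summable_Jper ha hJ x).mul_right _).tsum_le_tsum (fun k => ?_)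
      (hs.comp_injective (Prod.mk_right_injective x))
    rw [hf, hι]
    simp only
    by_cases h : (x.1.valMinAbs + L * k.1, x.2.valMinAbs + L * k.2) = (0 : ℤ × ℤ)
    · have h2 := (znorm_shift x k).1
      rw [h] at h2 ⊢
      have h3 : znorm 0 = 0 := by unfold znorm; simp
      rw [h3] at h2
      have h4 : tnorm x = 0 := le_antisymm h2 (tnorm_nonneg x)
      rw [h4, h3]
    · refine mul_le_mul_of_nonneg_left ?_ (hJ0 _ h)
      exact pow_le_pow_left₀ (tnorm_nonneg _) (znorm_shift x k).1 2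
  calc ∑ x : Tor L, Jper L J x * tnorm x ^ 2 ≤ ∑ x : Tor L, ∑' k : ℤ × ℤ, f (ι (x, k)) :=
        Finset.sum_le_sum fun x _ => h1 x
    _ = ∑' q : Tor L × (ℤ × ℤ), f (ι q) := by
        rw [hs.tsum_prod]
        exact (tsum_fintype _).symm
    _ ≤ ∑' w, f w := by
        exact tsum_comp_le_tsum_of_inj hfs hf0 hinj
    _ = 2 * sig J := by
        unfold sig
        rw [hf]
        ring

/-- the energy of the profile -/
theorem pr_energy {J : ℤ × ℤ → ℝ} (hJ : Admissible J) (β : ℝ) (hβ : 0 ≤ β) (L : ℕ) [NeZero L]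
    (r q ρ : ℝ) (hr : 2 ≤ r) (hq : 1 ≤ q) (hρ : 6 * ρ ≤ r) (hρ0 : 0 ≤ ρ)
    (hL : (2 * r * Real.exp q + 2 * ρ) * 2 < L)
    (c : Tor L × Tor L → ℝ) (hc : ∀ e, 0 ≤ c e ∧ c e ≤ cJ L J β e)
    (hrange : ∀ e, c e ≠ 0 → tnorm (e.2 - e.1) ≤ ρ) (p : Tor L) :
    ∑ e, c e * (pr r q p e.1 - pr r q p e.2) ^ 2 ≤
      β * sig J * ((1 + 32 * (ρ / r)) * (2 * Real.pi + 120 / q) / q) := by
  classical
  have hr0 : 0 < r := by linarith
  have hq0 : 0 < q := by linarith
  have hπ := Real.pi_pos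
  obtain ⟨A, a, ha, hJd⟩ := hJ.decay
  obtain ⟨B, hB⟩ : ∃ B, B = (1 + 32 * (ρ / r)) * (2 * Real.pi + 120 / q) / q := ⟨_, rfl⟩
  have hB0 : 0 ≤ B := by rw [hB]; positivity
  rw [← hB]
  -- shift the sum
  have h1 : ∑ e, c e * (pr r q p e.1 - pr r q p e.2) ^ 2 =
      ∑ z : Tor L, ∑ y : Tor L, c (y + p, y + p + z) *
        (gr r q (tnorm y) - gr r q (tnorm (y + z))) ^ 2 := by
    rw [Fintype.sum_prod_type, ← Equiv.sum_comp (Equiv.addRight p)]
    have h2 : ∀ y : Tor L, ∑ x : Tor L, c ((Equiv.addRight p) y, x) *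
        (pr r q p ((Equiv.addRight p) y, x).1 - pr r q p ((Equiv.addRight p) y, x).2) ^ 2 =
        ∑ z : Tor L, c (y + p, y + p + z) *
          (gr r q (tnorm y) - gr r q (tnorm (y + z))) ^ 2 := by
      intro y
      rw [← Equiv.sum_comp (Equiv.addLeft (y + p))]
      refine Finset.sum_congr rfl fun z _ => ?_
      simp only [Equiv.coe_addRight, Equiv.coe_addLeft]
      unfold pr
      have e1 : y + p - p = y := by abel
      have e2 : y + p + z - p = y + z := by abel
      rw [e1, e2]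
    rw [Finset.sum_congr rfl fun y _ => h2 y, Finset.sum_comm]
  rw [h1]
  have h3 : ∀ z : Tor L, ∑ y : Tor L, c (y + p, y + p + z) *
      (gr r q (tnorm y) - gr r q (tnorm (y + z))) ^ 2 ≤
      β * (Jper L J (-z) * tnorm (-z) ^ 2) * (1 / 2 * B) := by
    intro z
    rw [tnorm_neg]
    by_cases hz : z = 0
    · subst hz
      have h4 : ∀ y : Tor L, c (y + p, y + p + 0) *
          (gr r q (tnorm y) - gr r q (tnorm (y + 0))) ^ 2 = 0 := by
        intro y
        simp
      rw [Finset.sum_eq_zero fun y _ => h4 y]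
      have h5 : tnorm (0 : Tor L) = 0 := tnorm_zero
      rw [h5]
      simp
    have hJz : 0 ≤ Jper L J (-z) := Jper_nonneg hJ.nonneg (neg_ne_zero.2 hz)
    by_cases hzρ : tnorm z ≤ ρ
    · have h4 : ∀ y : Tor L, c (y + p, y + p + z) ≤ β * Jper L J (-z) := by
        intro y
        refine (hc _).2.trans (le_of_eq ?_)
        unfold cJ
        rw [if_neg]
        · simp only
          congr 2
          abel
        · simp only
          intro h
          apply hz
          have h7 : y + p + z - (y + p) = 0 := sub_eq_zero.2 h.symm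
          have e : y + p + z - (y + p) = z := by abel
          rwa [e] at h7
      have h5 := D_le r q hr hq z (by linarith) (by linarith)
      have h6 : 1 / 2 * tnorm z ^ 2 * ((1 + 32 * (tnorm z / r)) * (2 * Real.pi + 120 / q) / q) ≤
          1 / 2 * tnorm z ^ 2 * B := by
        rw [hB]
        gcongr
      calc ∑ y : Tor L, c (y + p, y + p + z) *
          (gr r q (tnorm y) - gr r q (tnorm (y + z))) ^ 2
          ≤ ∑ y : Tor L, (β * Jper L J (-z)) *
            (gr r q (tnorm y) - gr r q (tnorm (y + z))) ^ 2 :=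
            Finset.sum_le_sum fun y _ => mul_le_mul_of_nonneg_right (h4 y) (sq_nonneg _)
        _ = (β * Jper L J (-z)) * ∑ y : Tor L,
            (gr r q (tnorm y) - gr r q (tnorm (y + z))) ^ 2 := by rw [Finset.mul_sum]
        _ ≤ (β * Jper L J (-z)) * (1 / 2 * tnorm z ^ 2 * B) :=
            mul_le_mul_of_nonneg_left (h5.trans h6) (mul_nonneg hβ hJz)
        _ = _ := by ring
    · have h4 : ∀ y : Tor L, c (y + p, y + p + z) *
          (gr r q (tnorm y) - gr r q (tnorm (y + z))) ^ 2 = 0 := by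
        intro y
        have h5 : c (y + p, y + p + z) = 0 := by
          by_contra hne
          apply hzρ
          have h6 := hrange _ hne
          simp only at h6
          have e : y + p + z - (y + p) = z := by abel
          rwa [e] at h6
        rw [h5, zero_mul]
      rw [Finset.sum_eq_zero fun y _ => h4 y]
      positivity
  calc ∑ z : Tor L, ∑ y : Tor L, c (y + p, y + p + z) *
        (gr r q (tnorm y) - gr r q (tnorm (y + z))) ^ 2
      ≤ ∑ z : Tor L, β * (Jper L J (-z) * tnorm (-z) ^ 2) * (1 / 2 * B) :=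
        Finset.sum_le_sum fun z _ => h3 z
    _ = β * (1 / 2 * B) * ∑ z : Tor L, Jper L J (-z) * tnorm (-z) ^ 2 := by
        rw [Finset.mul_sum]
        exact Finset.sum_congr rfl fun z _ => by ring
    _ = β * (1 / 2 * B) * ∑ z : Tor L, Jper L J z * tnorm z ^ 2 := by
        rw [← Equiv.sum_comp (Equiv.neg (Tor L)) (fun z => Jper L J z * tnorm z ^ 2)]
        rfl
    _ ≤ β * (1 / 2 * B) * (2 * sig J) :=
        mul_le_mul_of_nonneg_left (Jper_mom hJ.nonneg ha hJd L) (by positivity)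
    _ = β * sig J * B := by ring

end Pool.Agent.H12.OL
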