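import Pool.Agent.H12.OL.Fin

/-! # Comparison of the flow with the formal renormalisation group -/

set_option autoImplicit false
set_option linter.unusedSectionVars false

noncomputable section

namespace Pool.Agent.H12.OL

open Filter

theorem div_der (c : ℝ) {w : ℝ} (hw : w ≠ 0) :
    HasDerivAt (fun s : ℝ => c / s) (-c / w ^ 2) w := by
  have h := (hasDerivAt_inv hw).const_mul c
  have e1 : (fun s : ℝ => c / s) = fun s => c * s⁻¹ := by
    funext s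
    rw [div_eq_mul_inv]
  rw [e1]
  refine h.congr_deriv ?_
  ring

section cmp

variable {N : ℕ} (hN : 2 ≤ N)

include hN

theorem XX_top : XX N ((N : ℝ) - 1) = 0 := by
  have hN' : (2 : ℝ) ≤ N := by exact_mod_cast hN
  have hW : (N : ℝ) - 1 ≠ 0 := by linarith
  unfold XX
  rw [div_self hW, Real.log_one]
  ring

theorem HH_top : HH N ((N : ℝ) - 1) = 0 := by
  have hN' : (2 : ℝ) ≤ N := by exact_mod_cast hN
  have hW : (N : ℝ) - 1 ≠ 0 := by linarith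
  unfold HH
  rw [div_self hW, Real.log_one]
  ring

theorem XX_deriv {w : ℝ} (hw : 0 < w) : HasDerivAt (XX N)
    (-((2 * (N : ℝ) - 2 + ((N : ℝ) - 2) * w) * (1 + w) / ((N : ℝ) ^ 3 * w ^ 2))) w := by
  have hN' : (2 : ℝ) ≤ N := by exact_mod_cast hN
  have hW : (0 : ℝ) < (N : ℝ) - 1 := by linarith
  have h1 := div_der ((N : ℝ) - 1) hw.ne'
  have h2 : HasDerivAt (fun s : ℝ => Real.log (((N : ℝ) - 1) / s))
      (-((N : ℝ) - 1) / w ^ 2 / (((N : ℝ) - 1) / w)) w :=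
    h1.log (by positivity)
  have h3 := div_der 1 hw.ne'
  have h4 : HasDerivAt (fun s : ℝ => ((N : ℝ) - 2) * ((N : ℝ) - 1 - s)) (((N : ℝ) - 2) * (-1)) w :=
    ((hasDerivAt_id w).const_sub _).const_mul _
  have h5 := ((h4.add (h2.const_mul (3 * (N : ℝ) - 4))).add
    ((h3.sub_const (1 / ((N : ℝ) - 1))).const_mul (2 * (N : ℝ) - 2))).div_const ((N : ℝ) ^ 3)
  refine h5.congr_deriv ?_
  have hN0 : (N : ℝ) ≠ 0 := by positivity
  field_simp
  ring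

theorem HH_deriv {w : ℝ} (hw : 0 < w) : HasDerivAt (HH N)
    (-(((N : ℝ) - 1) ^ 2 * (1 + w) / ((N : ℝ) ^ 2 * w ^ 2))) w := by
  have hN' : (2 : ℝ) ≤ N := by exact_mod_cast hN
  have hW : (0 : ℝ) < (N : ℝ) - 1 := by linarith
  have h1 := div_der ((N : ℝ) - 1) hw.ne'
  have h2 : HasDerivAt (fun s : ℝ => Real.log (((N : ℝ) - 1) / s))
      (-((N : ℝ) - 1) / w ^ 2 / (((N : ℝ) - 1) / w)) w :=
    h1.log (by positivity)
  have h3 := div_der 1 hw.ne'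
  have h5 := (h2.add (h3.sub_const (1 / ((N : ℝ) - 1)))).const_mul
    (((N : ℝ) - 1) ^ 2 / (N : ℝ) ^ 2)
  refine h5.congr_deriv ?_
  have hN0 : (N : ℝ) ≠ 0 := by positivity
  field_simp
  ring

theorem XX_low {w : ℝ} (hw : 0 < w) (hwW : w ≤ (N : ℝ) - 1) :
    ((N : ℝ) - 1 - w) / ((N : ℝ) * ((N : ℝ) - 1)) ≤ XX N w ∧
    2 * ((N : ℝ) - 1 - w) / ((N : ℝ) ^ 3 * w) ≤ XX N w ∧
    XX N w ≤ ((N : ℝ) - 1 - w) / ((N : ℝ) * ((N : ℝ) - 1)) +
      (3 * (N : ℝ) - 2) * ((N : ℝ) - 1 - w) ^ 2 / ((N : ℝ) ^ 3 * w * ((N : ℝ) - 1)) := by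
  have hN' : (2 : ℝ) ≤ N := by exact_mod_cast hN
  unfold XX
  obtain ⟨n, hn⟩ : ∃ n : ℝ, n = (N : ℝ) := ⟨_, rfl⟩
  rw [← hn] at hN' hwW ⊢
  obtain ⟨W, hW⟩ : ∃ W : ℝ, W = n - 1 := ⟨_, rfl⟩
  have hW1 : 1 ≤ W := by linarith
  have hW0 : 0 < W := by linarith
  have hnW : n = W + 1 := by linarith
  rw [← hW] at hwW ⊢
  have hd : 0 ≤ W - w := by linarith
  have hl1 : (W - w) / W ≤ Real.log (W / w) := by
    have h1 := Real.one_sub_inv_le_log_of_pos (show 0 < W / w by positivity)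
    rw [inv_div] at h1
    have h2 : (W - w) / W = 1 - w / W := by
      field_simp
    rw [h2]
    exact h1
  have hl2 : Real.log (W / w) ≤ (W - w) / w := by
    have h1 := Real.log_le_sub_one_of_pos (show 0 < W / w by positivity)
    have h2 : (W - w) / w = W / w - 1 := by
      field_simp
    rw [h2]
    exact h1
  have e0 : 1 / w - 1 / W = (W - w) / (w * W) := by
    field_simp
  rw [e0]
  have hn0 : 0 < n := by linarith
  have hn3 : 0 < n ^ 3 := by positivity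
  have a1 : (3 * n - 4) * ((W - w) / W) ≤ (3 * n - 4) * Real.log (W / w) :=
    mul_le_mul_of_nonneg_left hl1 (by linarith)
  have a2 : (3 * n - 4) * Real.log (W / w) ≤ (3 * n - 4) * ((W - w) / w) :=
    mul_le_mul_of_nonneg_left hl2 (by linarith)
  have a3 : (W - w) / W ^ 2 ≤ (W - w) / (w * W) := by
    refine div_le_div_of_nonneg_left hd (by positivity) ?_
    nlinarith
  have a4 : 0 ≤ (n - 2) * (W - w) := mul_nonneg (by linarith) hd
  have a5 : 0 ≤ (3 * n - 4) * Real.log (W / w) :=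
    le_trans (mul_nonneg (by linarith) (by positivity)) a1
  refine ⟨?_, ?_, ?_⟩
  · rw [le_div_iff₀ hn3]
    have e1 : (W - w) / (n * W) * n ^ 3 = (n - 2) * (W - w) + (3 * n - 4) * ((W - w) / W) +
        (2 * n - 2) * ((W - w) / W ^ 2) := by
      rw [hnW]
      field_simp
      ring
    rw [e1]
    have := mul_le_mul_of_nonneg_left a3 (by linarith : 0 ≤ 2 * n - 2)
    linarith
  · rw [le_div_iff₀ hn3]
    have e1 : 2 * (W - w) / (n ^ 3 * w) * n ^ 3 = (2 * n - 2) * ((W - w) / (w * W)) := by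
      rw [hnW]
      field_simp
      ring
    rw [e1]
    linarith
  · rw [div_le_iff₀ hn3]
    have e1 : ((W - w) / (n * W) + (3 * n - 2) * (W - w) ^ 2 / (n ^ 3 * w * W)) * n ^ 3 =
        (n - 2) * (W - w) + (3 * n - 4) * ((W - w) / w) + (2 * n - 2) * ((W - w) / (w * W)) := by
      rw [hnW]
      field_simp
      ring
    rw [e1]
    linarith

theorem XX_quad {w : ℝ} (hw : 0 < w) (hwW : w ≤ (N : ℝ) - 1) :
    XX N w - (N : ℝ) * (3 * N - 2) / 2 * XX N w ^ 2 ≤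
      ((N : ℝ) - 1 - w) / ((N : ℝ) * ((N : ℝ) - 1)) := by
  have hN' : (2 : ℝ) ≤ N := by exact_mod_cast hN
  obtain ⟨h1, h2, h3⟩ := XX_low hN hw hwW
  have hW : (0 : ℝ) < (N : ℝ) - 1 := by linarith
  have hd : (0 : ℝ) ≤ (N : ℝ) - 1 - w := by linarith
  have h0 : 0 ≤ ((N : ℝ) - 1 - w) / ((N : ℝ) * ((N : ℝ) - 1)) := by positivity
  have h4 : ((N : ℝ) - 1 - w) / ((N : ℝ) * ((N : ℝ) - 1)) *
      (2 * ((N : ℝ) - 1 - w) / ((N : ℝ) ^ 3 * w)) ≤ XX N w ^ 2 := by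
    rw [pow_two]
    exact mul_le_mul h1 h2 (by positivity) (h0.trans h1)
  have h5 : (N : ℝ) * (3 * N - 2) / 2 * (((N : ℝ) - 1 - w) / ((N : ℝ) * ((N : ℝ) - 1)) *
      (2 * ((N : ℝ) - 1 - w) / ((N : ℝ) ^ 3 * w))) =
      (3 * (N : ℝ) - 2) * ((N : ℝ) - 1 - w) ^ 2 / ((N : ℝ) ^ 3 * w * ((N : ℝ) - 1)) := by
    field_simp
  have h6 : 0 ≤ (N : ℝ) * (3 * N - 2) / 2 := by
    have : 0 ≤ 3 * (N : ℝ) - 2 := by linarith
    positivity
  have h7 := mul_le_mul_of_nonneg_left h4 h6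
  rw [h5] at h7
  linarith

/-- the exponent to second order -/
theorem HH_second {w : ℝ} (hw : 0 < w) (hwW : w ≤ (N : ℝ) - 1) :
    ((N : ℝ) - 1) * XX N w + ((N : ℝ) - 1) * ((N : ℝ) - 2) / 2 * XX N w ^ 2 -
      ((N : ℝ) * (3 * N - 2) * ((N : ℝ) - 1) * ((N : ℝ) - 2) / 6) * XX N w ^ 3 ≤ HH N w := by
  have hN' : (2 : ℝ) ≤ N := by exact_mod_cast hN
  have hW : (0 : ℝ) < (N : ℝ) - 1 := by linarith
  obtain ⟨Φ, hΦ⟩ : ∃ Φ : ℝ → ℝ, Φ = fun s => HH N s - (((N : ℝ) - 1) * XX N s +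
    ((N : ℝ) - 1) * ((N : ℝ) - 2) / 2 * XX N s ^ 2 -
      ((N : ℝ) * (3 * N - 2) * ((N : ℝ) - 1) * ((N : ℝ) - 2) / 6) * XX N s ^ 3) := ⟨_, rfl⟩
  have hder : ∀ s : ℝ, 0 < s → HasDerivAt Φ
      (-(((N : ℝ) - 1) ^ 2 * (1 + s) / ((N : ℝ) ^ 2 * s ^ 2)) -
        (-((2 * (N : ℝ) - 2 + ((N : ℝ) - 2) * s) * (1 + s) / ((N : ℝ) ^ 3 * s ^ 2))) *
        (((N : ℝ) - 1) + ((N : ℝ) - 1) * ((N : ℝ) - 2) *
          (XX N s - (N : ℝ) * (3 * N - 2) / 2 * XX N s ^ 2))) s := by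
    intro s hs
    have h1 := XX_deriv hN hs
    have h2 := HH_deriv hN hs
    have h3 := h2.sub (((h1.const_mul ((N : ℝ) - 1)).add
      ((h1.pow 2).const_mul (((N : ℝ) - 1) * ((N : ℝ) - 2) / 2))).sub
      ((h1.pow 3).const_mul ((N : ℝ) * (3 * N - 2) * ((N : ℝ) - 1) * ((N : ℝ) - 2) / 6)))
    rw [hΦ]
    refine h3.congr_deriv ?_
    push_cast
    ring
  have hanti : AntitoneOn Φ (Set.Icc w ((N : ℝ) - 1)) := by
    refine antitoneOn_of_deriv_nonpos (convex_Icc _ _) ?_ ?_ ?_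
    · intro s hs
      exact (hder s (lt_of_lt_of_le hw hs.1)).continuousAt.continuousWithinAt
    · intro s hs
      rw [interior_Icc] at hs
      exact (hder s (hw.trans hs.1)).differentiableAt.differentiableWithinAt
    · intro s hs
      rw [interior_Icc] at hs
      have hs0 : 0 < s := hw.trans hs.1
      rw [(hder s hs0).deriv]
      have h1 := XX_quad hN hs0 hs.2.le
      have h2 : 0 ≤ ((N : ℝ) - 1) * ((N : ℝ) - 2) := mul_nonneg hW.le (by linarith)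
      have h3 := mul_le_mul_of_nonneg_left h1 h2
      have hD : 0 ≤ (2 * (N : ℝ) - 2 + ((N : ℝ) - 2) * s) * (1 + s) / ((N : ℝ) ^ 3 * s ^ 2) := by
        have : 0 ≤ ((N : ℝ) - 2) * s := mul_nonneg (by linarith) hs0.le
        refine div_nonneg (mul_nonneg (by linarith) (by linarith)) (by positivity)
      have h4 := mul_le_mul_of_nonneg_left (add_le_add_right h3 ((N : ℝ) - 1)) hD
      have h5 : (2 * (N : ℝ) - 2 + ((N : ℝ) - 2) * s) * (1 + s) / ((N : ℝ) ^ 3 * s ^ 2) *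
          ((N : ℝ) - 1 + ((N : ℝ) - 1) * ((N : ℝ) - 2) *
            (((N : ℝ) - 1 - s) / ((N : ℝ) * ((N : ℝ) - 1)))) ≤
          ((N : ℝ) - 1) ^ 2 * (1 + s) / ((N : ℝ) ^ 2 * s ^ 2) := by
        have e1 : (2 * (N : ℝ) - 2 + ((N : ℝ) - 2) * s) * (1 + s) / ((N : ℝ) ^ 3 * s ^ 2) *
          ((N : ℝ) - 1 + ((N : ℝ) - 1) * ((N : ℝ) - 2) *
            (((N : ℝ) - 1 - s) / ((N : ℝ) * ((N : ℝ) - 1)))) =
          ((N : ℝ) ^ 2 * ((N : ℝ) - 1) ^ 2 - ((N : ℝ) - 2) ^ 2 * ((N : ℝ) - 1 - s) ^ 2) *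
            (1 + s) / ((N : ℝ) ^ 4 * s ^ 2) := by
          field_simp
          ring
        have e2 : ((N : ℝ) - 1) ^ 2 * (1 + s) / ((N : ℝ) ^ 2 * s ^ 2) =
            ((N : ℝ) ^ 2 * ((N : ℝ) - 1) ^ 2) * (1 + s) / ((N : ℝ) ^ 4 * s ^ 2) := by
          field_simp
        rw [e1, e2]
        refine div_le_div_of_nonneg_right ?_ (by positivity)
        refine mul_le_mul_of_nonneg_right ?_ (by linarith)
        have : 0 ≤ ((N : ℝ) - 2) ^ 2 * ((N : ℝ) - 1 - s) ^ 2 := by positivity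
        linarith
      linarith
  have h := hanti (Set.left_mem_Icc.2 hwW) (Set.right_mem_Icc.2 hwW) hwW
  rw [hΦ] at h
  simp only [XX_top hN, HH_top hN] at h
  norm_num at h
  linarith

/-- the exponent to first order -/
theorem HH_first {w : ℝ} (hw : 0 < w) (hwW : w ≤ (N : ℝ) - 1) :
    ((N : ℝ) - 1) * XX N w ≤ HH N w := by
  have hN' : (2 : ℝ) ≤ N := by exact_mod_cast hN
  have hW : (0 : ℝ) < (N : ℝ) - 1 := by linarith
  obtain ⟨Φ, hΦ⟩ : ∃ Φ : ℝ → ℝ, Φ = fun s => HH N s - ((N : ℝ) - 1) * XX N s := ⟨_, rfl⟩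
  have hder : ∀ s : ℝ, 0 < s → HasDerivAt Φ
      (-(((N : ℝ) - 1) ^ 2 * (1 + s) / ((N : ℝ) ^ 2 * s ^ 2)) -
        ((N : ℝ) - 1) *
        (-((2 * (N : ℝ) - 2 + ((N : ℝ) - 2) * s) * (1 + s) / ((N : ℝ) ^ 3 * s ^ 2)))) s := by
    intro s hs
    have h1 := XX_deriv hN hs
    have h2 := HH_deriv hN hs
    rw [hΦ]
    exact h2.sub (h1.const_mul ((N : ℝ) - 1))
  have hanti : AntitoneOn Φ (Set.Icc w ((N : ℝ) - 1)) := by
    refine antitoneOn_of_deriv_nonpos (convex_Icc _ _) ?_ ?_ ?_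
    · intro s hs
      exact (hder s (lt_of_lt_of_le hw hs.1)).continuousAt.continuousWithinAt
    · intro s hs
      rw [interior_Icc] at hs
      exact (hder s (hw.trans hs.1)).differentiableAt.differentiableWithinAt
    · intro s hs
      rw [interior_Icc] at hs
      have hs0 : 0 < s := hw.trans hs.1
      rw [(hder s hs0).deriv]
      have e1 : -(((N : ℝ) - 1) ^ 2 * (1 + s) / ((N : ℝ) ^ 2 * s ^ 2)) -
        ((N : ℝ) - 1) *
        (-((2 * (N : ℝ) - 2 + ((N : ℝ) - 2) * s) * (1 + s) / ((N : ℝ) ^ 3 * s ^ 2))) =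
        -(((N : ℝ) - 1) * (1 + s) * (((N : ℝ) - 2) * ((N : ℝ) - 1 - s)) /
          ((N : ℝ) ^ 3 * s ^ 2)) := by
        field_simp
        ring
      rw [e1]
      have h2 : 0 ≤ ((N : ℝ) - 2) * ((N : ℝ) - 1 - s) :=
        mul_nonneg (by linarith) (by linarith [hs.2])
      have : 0 ≤ ((N : ℝ) - 1) * (1 + s) * (((N : ℝ) - 2) * ((N : ℝ) - 1 - s)) /
          ((N : ℝ) ^ 3 * s ^ 2) := by positivity
      linarith
  have h := hanti (Set.left_mem_Icc.2 hwW) (Set.right_mem_Icc.2 hwW) hwW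
  rw [hΦ] at h
  simp only [XX_top hN, HH_top hN] at h
  linarith

/-- every logarithmic scale occurs -/
theorem XX_onto (x : ℝ) (hx : 0 ≤ x) : ∃ w : ℝ, 0 < w ∧ w ≤ (N : ℝ) - 1 ∧ XX N w = x := by
  have hN' : (2 : ℝ) ≤ N := by exact_mod_cast hN
  have hW : (0 : ℝ) < (N : ℝ) - 1 := by linarith
  -- a point where `X` is at least `x`
  obtain ⟨w0, hw0⟩ : ∃ w0 : ℝ, w0 = min ((N : ℝ) - 1) (1 / ((N : ℝ) ^ 3 * (x + 1))) :=
    ⟨_, rfl⟩
  have hw00 : 0 < w0 := by rw [hw0]; positivity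
  have hw0W : w0 ≤ (N : ℝ) - 1 := by rw [hw0]; exact min_le_left _ _
  have hw0x : w0 ≤ 1 / ((N : ℝ) ^ 3 * (x + 1)) := by rw [hw0]; exact min_le_right _ _
  have hN3 : (8 : ℝ) ≤ (N : ℝ) ^ 3 := by
    have : (2 : ℝ) ^ 3 ≤ (N : ℝ) ^ 3 := pow_le_pow_left₀ (by norm_num) hN' 3
    linarith
  have hw8 : w0 ≤ 1 / 8 := by
    refine hw0x.trans (one_div_le_one_div_of_le (by norm_num) ?_)
    nlinarith
  have hge : x ≤ XX N w0 := by
    obtain ⟨-, h2, -⟩ := XX_low hN hw00 hw0W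
    refine le_trans ?_ h2
    rw [le_div_iff₀ (by positivity)]
    rw [le_div_iff₀ (by positivity)] at hw0x
    have : w0 * ((N : ℝ) ^ 3 * x) ≤ 1 := by
      refine le_trans ?_ hw0x
      refine mul_le_mul_of_nonneg_left ?_ hw00.le
      nlinarith
    linarith
  have hcont : ContinuousOn (XX N) (Set.Icc w0 ((N : ℝ) - 1)) := fun s hs =>
    (XX_deriv hN (lt_of_lt_of_le hw00 hs.1)).continuousAt.continuousWithinAt
  have h := intermediate_value_Icc' hw0W hcont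
  rw [XX_top hN] at h
  obtain ⟨w, hw, hwx⟩ := h ⟨hx, hge⟩
  exact ⟨w, lt_of_lt_of_le hw00 hw.1, hw.2, hwx⟩

end cmp

end Pool.Agent.H12.OL
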