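import Pool.Agent.H12.LN.Step

/-! # Counting lattice points, the sum of `|x|^(-2)` -/

set_option autoImplicit false
set_option linter.unusedSectionVars false

noncomputable section

namespace Pool.Agent.H12.OL

open MeasureTheory Pool.Agent.H5R2.ON Pool.Agent.H717R2.ON3

/-- unit square around a lattice point -/
def sqr (x : ℤ × ℤ) : Set ℂ := Complex.measurableEquivRealProd ⁻¹'
  (Set.Ioc ((x.1 : ℝ) - 1 / 2) (x.1 + 1 / 2) ×ˢ Set.Ioc ((x.2 : ℝ) - 1 / 2) (x.2 + 1 / 2))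

theorem sqr_vol (x : ℤ × ℤ) : volume (sqr x) = 1 := by
  unfold sqr
  rw [Complex.volume_preserving_equiv_real_prod.measure_preimage
    (measurableSet_Ioc.prod measurableSet_Ioc).nullMeasurableSet, Measure.volume_eq_prod,
    Measure.prod_prod, Real.volume_Ioc, Real.volume_Ioc]
  norm_num

theorem sqr_meas (x : ℤ × ℤ) : MeasurableSet (sqr x) :=
  Complex.measurableEquivRealProd.measurable (measurableSet_Ioc.prod measurableSet_Ioc)

theorem sqr_disj (x y : ℤ × ℤ) (h : x ≠ y) : Disjoint (sqr x) (sqr y) := by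
  rw [Set.disjoint_left]
  intro z hx hy
  apply h
  unfold sqr at hx hy
  simp only [Set.mem_preimage, Set.mem_prod, Set.mem_Ioc] at hx hy
  obtain ⟨⟨a1, a2⟩, a3, a4⟩ := hx
  obtain ⟨⟨b1, b2⟩, b3, b4⟩ := hy
  have h1 : x.1 = y.1 := by
    have h2 : (x.1 : ℝ) < y.1 + 1 := by linarith
    have h3 : (y.1 : ℝ) < x.1 + 1 := by linarith
    have h4 : x.1 < y.1 + 1 := by exact_mod_cast h2
    have h5 : y.1 < x.1 + 1 := by exact_mod_cast h3
    omega
  have h1' : x.2 = y.2 := by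
    have h2 : (x.2 : ℝ) < y.2 + 1 := by linarith
    have h3 : (y.2 : ℝ) < x.2 + 1 := by linarith
    have h4 : x.2 < y.2 + 1 := by exact_mod_cast h2
    have h5 : y.2 < x.2 + 1 := by exact_mod_cast h3
    omega
  exact Prod.ext h1 h1'

theorem count_le (s : Finset (ℤ × ℤ)) (t : ℝ) (ht : 0 ≤ t)
    (hs : ∀ x ∈ s, (x.1 : ℝ) ^ 2 + (x.2 : ℝ) ^ 2 ≤ t ^ 2) :
    (s.card : ℝ) ≤ Real.pi * (t + 1) ^ 2 := by
  have h1 : volume (⋃ x ∈ s, sqr x) = s.card := by
    rw [measure_biUnion_finset (fun x _ y _ h => sqr_disj x y h) (fun x _ => sqr_meas x)]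
    simp only [sqr_vol, Finset.sum_const, nsmul_eq_mul, mul_one]
  have h2 : (⋃ x ∈ s, sqr x) ⊆ Metric.closedBall (0 : ℂ) (t + 1) := by
    intro z hz
    simp only [Set.mem_iUnion, exists_prop] at hz
    obtain ⟨x, hx, hz⟩ := hz
    have h3 := hs x hx
    unfold sqr at hz
    simp only [Set.mem_preimage, Set.mem_prod, Set.mem_Ioc,
      Complex.measurableEquivRealProd_apply] at hz
    obtain ⟨⟨a1, a2⟩, a3, a4⟩ := hz
    rw [Metric.mem_closedBall, dist_zero_right]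
    have h4 : ‖z‖ ≤ ‖(⟨x.1, x.2⟩ : ℂ)‖ + ‖z - ⟨x.1, x.2⟩‖ := by
      have := norm_add_le (⟨x.1, x.2⟩ : ℂ) (z - ⟨x.1, x.2⟩)
      rwa [add_sub_cancel] at this
    have h5 : ‖(⟨x.1, x.2⟩ : ℂ)‖ ≤ t := by
      rw [Complex.norm_eq_sqrt_sq_add_sq]
      exact Real.sqrt_le_iff.2 ⟨ht, h3⟩
    have h6 : ‖z - ⟨x.1, x.2⟩‖ ≤ 1 := by
      rw [Complex.norm_eq_sqrt_sq_add_sq]
      refine Real.sqrt_le_iff.2 ⟨zero_le_one, ?_⟩
      simp only [Complex.sub_re, Complex.sub_im]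
      nlinarith
    linarith
  have h3 := measure_mono (μ := volume) h2
  rw [h1, Complex.volume_closedBall] at h3
  have h4 : (s.card : ENNReal) ≤ ENNReal.ofReal (Real.pi * (t + 1) ^ 2) := by
    refine h3.trans (le_of_eq ?_)
    rw [mul_comm Real.pi, ENNReal.ofReal_mul (by positivity), ENNReal.ofReal_pow (by positivity)]
    congr 1
    rw [← NNReal.coe_real_pi, ENNReal.ofReal_coe_nnreal]
  rw [← ENNReal.ofReal_natCast] at h4
  exact (ENNReal.ofReal_le_ofReal_iff (by positivity)).1 h4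

/-- coordinates of a point of the torus -/
def cr {L : ℕ} (z : Tor L) : ℤ × ℤ := (z.1.valMinAbs, z.2.valMinAbs)

theorem cr_inj {L : ℕ} : Function.Injective (cr : Tor L → ℤ × ℤ) := by
  intro x y h
  unfold cr at h
  rw [Prod.mk.injEq] at h
  exact Prod.ext (ZMod.injective_valMinAbs h.1) (ZMod.injective_valMinAbs h.2)

theorem tnorm_sq {L : ℕ} (z : Tor L) : tnorm z ^ 2 = ((cr z).1 : ℝ) ^ 2 + ((cr z).2 : ℝ) ^ 2 := by
  unfold tnorm cr
  rw [Real.sq_sqrt (by positivity)]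

/-- number of points in a ball, sharp constant -/
theorem card_ball_pi (L : ℕ) [NeZero L] (p : Tor L) (t : ℝ) (ht : 0 ≤ t) :
    ((ball p t).card : ℝ) ≤ Real.pi * (t + 1) ^ 2 := by
  classical
  have h1 : (ball p t).card = ((ball p t).image fun z => cr (z - p)).card := by
    rw [Finset.card_image_of_injective]
    intro x y h
    exact sub_left_injective (cr_inj h)
  rw [h1]
  refine count_le _ t ht ?_
  intro x hx
  rw [Finset.mem_image] at hx
  obtain ⟨z, hz, rfl⟩ := hx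
  rw [← tnorm_sq]
  exact pow_le_pow_left₀ (tnorm_nonneg _) (LN.mem_ball.1 hz) 2

/-- the sum of `|x|^(-2)` over an annulus -/
theorem inv_sq_nat (L : ℕ) [NeZero L] (p : Tor L) (m : ℕ) (hm : 1 ≤ m) (n : ℕ) (hn : m ≤ n) :
    ∑ x ∈ ball p n \ ball p m, 1 / tnorm (x - p) ^ 2 ≤
      ((ball p n).card : ℝ) / (n : ℝ) ^ 2 + 2 * Real.pi * (Real.log n - Real.log m) +
        25 * Real.pi * (1 / m - 1 / n) := by
  classical
  have hπ := Real.pi_pos
  induction n, hn using Nat.le_induction with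
  | base =>
    rw [Finset.sdiff_self, Finset.sum_empty, sub_self, sub_self]
    have : 0 ≤ ((ball p (m : ℝ)).card : ℝ) / (m : ℝ) ^ 2 := by positivity
    linarith
  | succ n hn ih =>
    have hn1 : 1 ≤ n := hm.trans hn
    have hn0 : (0 : ℝ) < n := by exact_mod_cast hn1
    have hn1' : (1 : ℝ) ≤ n := by exact_mod_cast hn1
    have hcast : ((n + 1 : ℕ) : ℝ) = (n : ℝ) + 1 := by push_cast; ring
    rw [hcast]
    have hsub : ball p (n : ℝ) ⊆ ball p ((n : ℝ) + 1) := by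
      intro x hx
      rw [LN.mem_ball] at hx ⊢
      linarith
    have hsub2 : ball p (m : ℝ) ⊆ ball p (n : ℝ) := by
      intro x hx
      rw [LN.mem_ball] at hx ⊢
      have : (m : ℝ) ≤ n := by exact_mod_cast hn
      linarith
    have hsplit : ball p ((n : ℝ) + 1) \ ball p (m : ℝ) =
        (ball p (n : ℝ) \ ball p (m : ℝ)) ∪ (ball p ((n : ℝ) + 1) \ ball p (n : ℝ)) := by
      ext x
      simp only [Finset.mem_sdiff, Finset.mem_union]
      constructor
      · rintro ⟨h1, h2⟩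
        by_cases h3 : x ∈ ball p (n : ℝ)
        · exact Or.inl ⟨h3, h2⟩
        · exact Or.inr ⟨h1, h3⟩
      · rintro (⟨h1, h2⟩ | ⟨h1, h2⟩)
        · exact ⟨hsub h1, h2⟩
        · exact ⟨h1, fun h => h2 (hsub2 h)⟩
    have hdisj : Disjoint (ball p (n : ℝ) \ ball p (m : ℝ))
        (ball p ((n : ℝ) + 1) \ ball p (n : ℝ)) := by
      rw [Finset.disjoint_left]
      intro x h1 h2
      exact (Finset.mem_sdiff.1 h2).2 (Finset.mem_sdiff.1 h1).1
    rw [hsplit, Finset.sum_union hdisj]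
    have h1 : ∑ x ∈ ball p ((n : ℝ) + 1) \ ball p (n : ℝ), 1 / tnorm (x - p) ^ 2 ≤
        (((ball p ((n : ℝ) + 1)).card : ℝ) - (ball p (n : ℝ)).card) / (n : ℝ) ^ 2 := by
      have h2 : ∀ x ∈ ball p ((n : ℝ) + 1) \ ball p (n : ℝ), 1 / tnorm (x - p) ^ 2 ≤
          1 / (n : ℝ) ^ 2 := by
        intro x hx
        have h3 := (Finset.mem_sdiff.1 hx).2
        rw [LN.mem_ball] at h3
        push Not at h3
        refine one_div_le_one_div_of_le (by positivity) ?_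
        exact pow_le_pow_left₀ hn0.le h3.le 2
      refine (Finset.sum_le_sum h2).trans (le_of_eq ?_)
      rw [Finset.sum_const, nsmul_eq_mul, Finset.card_sdiff_of_subset hsub,
        Nat.cast_sub (Finset.card_le_card hsub)]
      ring
    have hN := card_ball_pi L p ((n : ℝ) + 1) (by positivity)
    obtain ⟨M, hM⟩ : ∃ M : ℝ, M = ((ball p ((n : ℝ) + 1)).card : ℝ) := ⟨_, rfl⟩
    rw [← hM] at h1 hN ⊢
    have h2 : M * (1 / (n : ℝ) ^ 2 - 1 / ((n : ℝ) + 1) ^ 2) ≤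
        Real.pi * (((n : ℝ) + 1 + 1) ^ 2 * (1 / (n : ℝ) ^ 2 - 1 / ((n : ℝ) + 1) ^ 2)) := by
      rw [← mul_assoc]
      refine mul_le_mul_of_nonneg_right hN ?_
      rw [sub_nonneg]
      refine one_div_le_one_div_of_le (by positivity) ?_
      exact pow_le_pow_left₀ hn0.le (by linarith) 2
    have h3 : ((n : ℝ) + 1 + 1) ^ 2 * (1 / (n : ℝ) ^ 2 - 1 / ((n : ℝ) + 1) ^ 2) ≤
        2 * (1 / ((n : ℝ) + 1)) + 25 * (1 / (n : ℝ) - 1 / ((n : ℝ) + 1)) := by
      have e1 : ((n : ℝ) + 1 + 1) ^ 2 * (1 / (n : ℝ) ^ 2 - 1 / ((n : ℝ) + 1) ^ 2) =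
          (((n : ℝ) + 2) ^ 2 * (2 * n + 1)) / ((n : ℝ) ^ 2 * ((n : ℝ) + 1) ^ 2) := by
        field_simp
        ring
      have e2 : 2 * (1 / ((n : ℝ) + 1)) + 25 * (1 / (n : ℝ) - 1 / ((n : ℝ) + 1)) =
          (2 * (n : ℝ) ^ 2 * (n + 1) + 25 * n * (n + 1)) / ((n : ℝ) ^ 2 * ((n : ℝ) + 1) ^ 2) := by
        field_simp
        ring
      rw [e1, e2]
      refine div_le_div_of_nonneg_right ?_ (by positivity)
      nlinarith
    have h4 : 1 / ((n : ℝ) + 1) ≤ Real.log ((n : ℝ) + 1) - Real.log n := by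
      rw [← Real.log_div (by positivity) hn0.ne']
      have h5 := Real.one_sub_inv_le_log_of_pos (x := ((n : ℝ) + 1) / n) (by positivity)
      refine le_trans (le_of_eq ?_) h5
      field_simp
      ring
    have h5 := mul_le_mul_of_nonneg_left h3 hπ.le
    have h6 := mul_le_mul_of_nonneg_left h4 hπ.le
    have e3 : (M - ((ball p (n : ℝ)).card : ℝ)) / (n : ℝ) ^ 2 =
        M * (1 / (n : ℝ) ^ 2 - 1 / ((n : ℝ) + 1) ^ 2) + M / ((n : ℝ) + 1) ^ 2 -
          ((ball p (n : ℝ)).card : ℝ) / (n : ℝ) ^ 2 := by ring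
    rw [e3] at h1
    nlinarith

/-- the sum of `|x|^(-2)` over an annulus, real radii -/
theorem inv_sq_real (L : ℕ) [NeZero L] (p : Tor L) (ρ R : ℝ) (hρ : 2 ≤ ρ) (hR : ρ ≤ R) :
    ∑ x : Tor L, (if ρ ≤ tnorm (x - p) ∧ tnorm (x - p) ≤ R then 1 / tnorm (x - p) ^ 2 else 0) ≤
      2 * Real.pi * Real.log (R / ρ) + 110 := by
  classical
  have hπ := Real.pi_pos
  have hπ4 := Real.pi_lt_d2
  have hρ0 : 0 < ρ := by linarith
  have hR0 : 0 < R := by linarith
  obtain ⟨n, hn⟩ : ∃ n : ℕ, n = ⌈R⌉₊ := ⟨_, rfl⟩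
  obtain ⟨m, hm⟩ : ∃ m : ℕ, m = ⌊ρ / 2⌋₊ := ⟨_, rfl⟩
  have hm1 : 1 ≤ m := by
    rw [hm]
    exact Nat.le_floor (by push_cast; linarith)
  have hm2 : (m : ℝ) ≤ ρ / 2 := by rw [hm]; exact Nat.floor_le (by linarith)
  have hm3 : ρ / 4 ≤ m := by
    have h1 : ρ / 2 < m + 1 := by rw [hm]; exact Nat.lt_floor_add_one _
    have h2 : (1 : ℝ) ≤ m := by exact_mod_cast hm1
    linarith
  have hn1 : R ≤ n := by rw [hn]; exact Nat.le_ceil _
  have hn2 : (n : ℝ) ≤ 2 * R := by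
    have h1 : (n : ℝ) < R + 1 := by rw [hn]; exact Nat.ceil_lt_add_one (by linarith)
    linarith
  have hmn : m ≤ n := by
    have : (m : ℝ) ≤ n := by linarith
    exact_mod_cast this
  have hm0 : (0 : ℝ) < m := by exact_mod_cast hm1
  have hn0 : (0 : ℝ) < n := by linarith
  have hn11 : (1 : ℝ) ≤ n := by linarith
  have h1 := inv_sq_nat L p m hm1 n hmn
  have h2 : ∑ x : Tor L, (if ρ ≤ tnorm (x - p) ∧ tnorm (x - p) ≤ R then
      1 / tnorm (x - p) ^ 2 else 0) ≤ ∑ x ∈ ball p n \ ball p m, 1 / tnorm (x - p) ^ 2 := by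
    rw [← Finset.sum_filter]
    refine Finset.sum_le_sum_of_subset_of_nonneg ?_ fun x _ _ => by positivity
    intro x hx
    rw [Finset.mem_filter] at hx
    rw [Finset.mem_sdiff, LN.mem_ball, LN.mem_ball]
    exact ⟨by linarith [hx.2.2], by linarith [hx.2.1]⟩
  refine h2.trans (h1.trans ?_)
  have h3 : ((ball p (n : ℝ)).card : ℝ) / (n : ℝ) ^ 2 ≤ 4 * Real.pi := by
    rw [div_le_iff₀ (by positivity)]
    refine (card_ball_pi L p n hn0.le).trans ?_
    nlinarith [mul_nonneg hπ.le (by nlinarith : (0 : ℝ) ≤ 4 * (n : ℝ) ^ 2 - ((n : ℝ) + 1) ^ 2)]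
  have h4 : Real.log n - Real.log m ≤ Real.log (R / ρ) + Real.log 8 := by
    rw [← Real.log_div hn0.ne' hm0.ne', ← Real.log_mul (by positivity) (by norm_num)]
    refine Real.log_le_log (by positivity) ?_
    rw [div_le_iff₀ hm0]
    have h5 : R / ρ * 8 * (ρ / 4) = 2 * R := by
      field_simp
      ring
    have h6 : R / ρ * 8 * (ρ / 4) ≤ R / ρ * 8 * m :=
      mul_le_mul_of_nonneg_left hm3 (by positivity)
    linarith
  have h5 : Real.log 8 ≤ 2.1 := by
    have e : Real.log 8 = 3 * Real.log 2 := by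
      rw [show (8 : ℝ) = 2 ^ 3 by norm_num, Real.log_pow]
      norm_num
    rw [e]
    have := Real.log_two_lt_d9
    linarith
  have h6 : 1 / (m : ℝ) - 1 / n ≤ 1 := by
    have h7 : 1 / (m : ℝ) ≤ 1 := by
      rw [div_le_one hm0]
      exact_mod_cast hm1
    have h8 : 0 ≤ 1 / (n : ℝ) := by positivity
    linarith
  have h7 := mul_le_mul_of_nonneg_left h4 hπ.le
  have h8 := mul_le_mul_of_nonneg_left h6 hπ.le
  nlinarith

end Pool.Agent.H12.OL
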