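import Pool.Agent.H12.LN.Abs

/-! # The abstract steps, variance form -/

set_option autoImplicit false
set_option linter.unusedSectionVars false

noncomputable section

namespace Pool.Agent.H12.OL

open MeasureTheory Pool.Agent.H5R2.ON Pool.Agent.H717R2.ON3 Pool.Agent.H983R2.ONJ
open Pool.Agent.Q218.ON (EN ax)
open Pool.Agent.H12.LN

variable {N L : ℕ} [NeZero L]

/-- the tower property with the boundary condition outside `Λ` fixed -/
theorem tower_le' (hN : N ≠ 0) (c : Tor L × Tor L → ℝ) {Λ' Λ : Finset (Tor L)} (h : Λ' ⊆ Λ)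
    (η : Conf N L) {F G : Conf N L → ℝ} (hF : Continuous F) (hG : Continuous G)
    (hle : ∀ S : Conf N L, gH (pS c) Λ' (splice Λ S η) F ≤ gH (pS c) Λ' (splice Λ S η) G) :
    gH (pS c) Λ η F ≤ gH (pS c) Λ η G := by
  have hZ := Z_pos hN c Λ η
  have hc1 : ∀ {K : Conf N L → ℝ}, Continuous K → Continuous (fun S : Conf N L =>
      K (splice Λ S η) * Real.exp (pS c (splice Λ S η))) := fun hK =>
    (hK.comp (cont_splice Λ η)).mul ((cont_exp c).comp (cont_splice Λ η))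
  obtain ⟨BF, hBF⟩ := gib2_bdd (hc1 hF)
  obtain ⟨BG, hBG⟩ := gib2_bdd (hc1 hG)
  obtain ⟨e1, i1⟩ := gib2_resample hN Λ' (hc1 hF).measurable _ hBF
  obtain ⟨e2, i2⟩ := gib2_resample hN Λ' (hc1 hG).measurable _ hBG
  unfold gH
  refine div_le_div_of_nonneg_right ?_ hZ.le
  rw [e1, e2]
  refine integral_mono i1 i2 fun S => ?_
  simp only
  have hZ' := Z_pos hN c Λ' (splice Λ S η)
  have key : ∀ {K : Conf N L → ℝ}, ∫ S', K (splice Λ (splice Λ' S' S) η) *
      Real.exp (pS c (splice Λ (splice Λ' S' S) η)) ∂(prior N L) =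
      gH (pS c) Λ' (splice Λ S η) K *
        ∫ S', Real.exp (pS c (splice Λ' S' (splice Λ S η))) ∂(prior N L) := by
    intro K
    unfold gH
    rw [div_mul_cancel₀ _ hZ'.ne']
    refine integral_congr_ae (Filter.Eventually.of_forall fun S' => ?_)
    simp only
    rw [gib2_splice h]
  rw [key, key]
  exact mul_le_mul_of_nonneg_right (hle _) hZ'.le

/-- unit vector -/
def ev (p : Fin N) : EN N := EuclideanSpace.single p (1 : ℝ)

theorem ev_norm (p : Fin N) : ‖ev p‖ = 1 := by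
  unfold ev
  simp

theorem inner_ev (p : Fin N) (v : EN N) : inner ℝ (ev p) v = v p := by
  unfold ev
  rw [EuclideanSpace.inner_single_left]
  simp

theorem norm_comb (s α : ℝ) (c : Tor L × Tor L → ℝ) (φ : Tor L → ℝ) (p : Fin N) (S : Conf N L) :
    ‖s • Wv c φ p S + α • ev p‖ ^ 2 = s ^ 2 * ‖Wv c φ p S‖ ^ 2 + α ^ 2 := by
  rw [norm_add_sq_real, norm_smul, norm_smul, ev_norm, real_inner_smul_left,
    real_inner_smul_right, real_inner_comm, inner_ev, Wv_apply, Wk_self]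
  simp only [Real.norm_eq_abs, mul_one, mul_zero, add_zero]
  rw [mul_pow, sq_abs, sq_abs]

theorem inner_comb (s α : ℝ) (c : Tor L × Tor L → ℝ) (φ : Tor L → ℝ) (p : Fin N) (S : Conf N L)
    (z : Tor L) : inner ℝ (s • Wv c φ p S + α • ev p) (S z : EN N) =
      s * inner ℝ (Wv c φ p S) (S z : EN N) + α * (S z : EN N) p := by
  rw [inner_add_left, real_inner_smul_left, real_inner_smul_left, inner_ev]

section

variable (hN : N ≠ 0) {φ : Tor L → ℝ} {Λ' Λ : Finset (Tor L)} (h : Λ' ⊆ Λ)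
    (hφ : ∀ x, x ∉ Λ → φ x = 0) (c : Tor L × Tor L → ℝ) (η : Conf N L) (p : Fin N) {z : Tor L}
    (hz : φ z = 1) (hloc : ∀ e : Tor L × Tor L, e.1 ∈ Λ' ∨ e.2 ∈ Λ' → c e * (φ e.1 - φ e.2) = 0)

include hN h hφ hz hloc

/-- the vector step, variance form -/
theorem varA (m ι : ℝ) (hm0 : 0 ≤ m)
    (hm : ∀ (η' : Conf N L) (i : Fin N), |gH (pS c) Λ' η' (fun S => cc i (S z))| ≤ m)
    (hι : ∫ S, ‖Wv c φ p S‖ ^ 2 ∂(GM c Λ η) ≤ ι) :
    ((N : ℝ) - 1) ^ 2 * (∫ S, (S z : EN N) p ∂(GM c Λ η)) ^ 2 ≤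
      ι * (m ^ 2 - (∫ S, (S z : EN N) p ∂(GM c Λ η)) ^ 2) := by
  have hprob := GM_prob hN c Λ η
  obtain ⟨α, hα⟩ : ∃ α, α = ∫ S, (S z : EN N) p ∂(GM c Λ η) := ⟨_, rfl⟩
  obtain ⟨X, hX⟩ : ∃ X, X = ∫ S, inner ℝ (Wv c φ p S) (S z : EN N) ∂(GM c Λ η) := ⟨_, rfl⟩
  have hward := wardA hN hφ c η p hz
  rw [← hα, ← hX] at hward
  rw [← hα]
  have key : ∀ s : ℝ, 0 ≤ ι * (s * s) + (-2 * X) * s + (m ^ 2 - α ^ 2) := by
    intro s
    have hVl : ∀ S η', (fun S : Conf N L => s • Wv c φ p S + α • ev p) (splice Λ' S η') =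
        (fun S : Conf N L => s • Wv c φ p S + α • ev p) η' := by
      intro S η'
      simp only
      rw [Wv_splice c φ hloc]
    have h1 := lin_infl hN c h η z m hm (V := fun S => s • Wv c φ p S + α • ev p)
      (by fun_prop) hVl
    have h2 : ∫ S, inner ℝ (s • Wv c φ p S + α • ev p) (S z : EN N) ∂(GM c Λ η) =
        s * X + α * α := by
      simp only [inner_comb]
      rw [E_add hN c Λ η (fun S => s * inner ℝ (Wv c φ p S) (S z : EN N))
        (fun S => α * (S z : EN N) p) (by fun_prop) (by fun_prop), integral_const_mul,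
        integral_const_mul, ← hX, ← hα]
    have h3 : ∫ S, ‖s • Wv c φ p S + α • ev p‖ ^ 2 ∂(GM c Λ η) ≤ s ^ 2 * ι + α ^ 2 := by
      simp only [norm_comb]
      rw [E_add hN c Λ η (fun S => s ^ 2 * ‖Wv c φ p S‖ ^ 2) (fun _ => α ^ 2) (by fun_prop)
        (by fun_prop), integral_const_mul, E_one hN]
      have := mul_le_mul_of_nonneg_left hι (sq_nonneg s)
      linarith
    have h4 : 2 * (m * ∫ S, ‖s • Wv c φ p S + α • ev p‖ ∂(GM c Λ η)) ≤
        m ^ 2 + (s ^ 2 * ι + α ^ 2) := by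
      obtain ⟨B, hB⟩ : ∃ B, B = ∫ S, ‖s • Wv c φ p S + α • ev p‖ ∂(GM c Λ η) := ⟨_, rfl⟩
      have h5 := cs (GM c Λ η) (f := fun S : Conf N L => ‖s • Wv c φ p S + α • ev p‖)
        (g := fun _ => (1 : ℝ)) (intC hN c Λ η (by fun_prop))
        (intC hN c Λ η (by fun_prop)) (intC hN c Λ η (by fun_prop))
      simp only [mul_one, one_pow] at h5
      rw [E_one hN, mul_one, ← hB] at h5
      rw [← hB]
      nlinarith [sq_nonneg (m - B)]
    rw [h2] at h1
    have h6 := (abs_le.1 h1).2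
    nlinarith
  have h2 := discrim_le_zero key
  unfold discrim at h2
  have h3 : (((N : ℝ) - 1) * α) ^ 2 = X ^ 2 := by rw [hward, neg_sq]
  rw [mul_pow] at h3
  rw [h3]
  nlinarith

/-- the square step, variance form -/
theorem varB (u ι : ℝ) (hu0 : 0 < u)
    (hu : ∀ (η' : Conf N L) (i : Fin N), gH (pS c) Λ' η' (fun S => cc i (S z) ^ 2) ≤ u)
    (hι : ∫ S, ‖Wv c φ p S‖ ^ 2 ∂(GM c Λ η) ≤ ι) (hι0 : 0 ≤ ι) :
    ((N : ℝ) * (∫ S, (S z : EN N) p ^ 2 ∂(GM c Λ η)) - 1) ^ 2 ≤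
      ι * ((∫ S, (S z : EN N) p ^ 2 ∂(GM c Λ η)) *
        (u - ∫ S, (S z : EN N) p ^ 2 ∂(GM c Λ η))) := by
  have hprob := GM_prob hN c Λ η
  obtain ⟨U, hU⟩ : ∃ U, U = ∫ S, (S z : EN N) p ^ 2 ∂(GM c Λ η) := ⟨_, rfl⟩
  obtain ⟨X, hX⟩ : ∃ X, X = ∫ S, (S z : EN N) p * inner ℝ (Wv c φ p S) (S z : EN N) ∂(GM c Λ η) :=
    ⟨_, rfl⟩
  have hward := wardB hN hφ c η p hz
  rw [← hU, ← hX] at hward
  rw [← hU, hward, neg_sq]
  have hU0 : 0 ≤ U := by rw [hU]; exact integral_nonneg fun S => sq_nonneg _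
  have key : ∀ s : ℝ, 0 ≤ (u * U * ι - X ^ 2) * (s * s) + (-2 * (X * U)) * s +
      (u * U - U ^ 2) := by
    intro s
    have hVl : ∀ S η', (fun S : Conf N L => s • Wv c φ p S + (1 : ℝ) • ev p) (splice Λ' S η') =
        (fun S : Conf N L => s • Wv c φ p S + (1 : ℝ) • ev p) η' := by
      intro S η'
      simp only
      rw [Wv_splice c φ hloc]
    have h1 := sq_infl hN c h η z u hu (V := fun S => s • Wv c φ p S + (1 : ℝ) • ev p)
      (by fun_prop) hVl
    have h3 : ∫ S, ‖s • Wv c φ p S + (1 : ℝ) • ev p‖ ^ 2 ∂(GM c Λ η) ≤ s ^ 2 * ι + 1 := by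
      simp only [norm_comb]
      rw [E_add hN c Λ η (fun S => s ^ 2 * ‖Wv c φ p S‖ ^ 2) (fun _ => (1 : ℝ) ^ 2) (by fun_prop)
        (by fun_prop), integral_const_mul, E_one hN]
      have := mul_le_mul_of_nonneg_left hι (sq_nonneg s)
      linarith
    have h4 := cs (GM c Λ η) (f := fun S : Conf N L => (S z : EN N) p)
      (g := fun S => inner ℝ (s • Wv c φ p S + (1 : ℝ) • ev p) (S z : EN N))
      (intC hN c Λ η (by fun_prop)) (intC hN c Λ η (by fun_prop)) (intC hN c Λ η (by fun_prop))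
    have h2 : ∫ S, (S z : EN N) p * inner ℝ (s • Wv c φ p S + (1 : ℝ) • ev p) (S z : EN N)
        ∂(GM c Λ η) = s * X + U := by
      have e : ∀ S : Conf N L, (S z : EN N) p * inner ℝ (s • Wv c φ p S + (1 : ℝ) • ev p)
          (S z : EN N) = s * ((S z : EN N) p * inner ℝ (Wv c φ p S) (S z : EN N)) +
            (S z : EN N) p ^ 2 := by
        intro S
        rw [inner_comb]
        ring
      simp only [e]
      rw [E_add hN c Λ η (fun S => s * ((S z : EN N) p * inner ℝ (Wv c φ p S) (S z : EN N)))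
        (fun S => (S z : EN N) p ^ 2) (by fun_prop) (by fun_prop), integral_const_mul,
        ← hX, ← hU]
    rw [h2, ← hU] at h4
    have h5 : (s * X + U) ^ 2 ≤ U * (u * (s ^ 2 * ι + 1)) :=
      h4.trans (mul_le_mul_of_nonneg_left (h1.trans (mul_le_mul_of_nonneg_left h3 hu0.le)) hU0)
    nlinarith
  have h2 := discrim_le_zero key
  unfold discrim at h2
  have h3 : u * (U * X ^ 2) ≤ u * (U * (ι * (U * (u - U)))) := by nlinarith
  have h4 : U * X ^ 2 ≤ U * (ι * (U * (u - U))) := le_of_mul_le_mul_left h3 hu0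
  rcases hU0.eq_or_lt with h5 | h5
  · -- the degenerate case
    have h6 := key
    rw [← h5] at h6
    have h7 := h6 1
    have h8 : X ^ 2 ≤ 0 := by nlinarith
    rw [← h5]
    simpa using h8
  · exact le_of_mul_le_mul_left h4 h5

end

end Pool.Agent.H12.OL
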