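import Pool.Agent.H12.OL.CapB
import Pool.Agent.H12.OL.Var

/-! # Truncation of the couplings -/

set_option autoImplicit false
set_option linter.unusedSectionVars false

noncomputable section

namespace Pool.Agent.H12.OL

open MeasureTheory Pool.Agent.H5R2.ON Pool.Agent.H717R2.ON3 Pool.Agent.H983R2.ONJ
open Pool.Agent.H983R2.ONJ.AuxFin269
open Pool.Agent.Q218.ON (EN ax)
open Pool.Agent.H12.LN

/-- truncated couplings -/
def cut {L : ℕ} (ρ : ℝ) (c : Tor L × Tor L → ℝ) (e : Tor L × Tor L) : ℝ :=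
  if tnorm (e.2 - e.1) ≤ ρ then c e else 0

theorem cut_range {L : ℕ} (ρ : ℝ) (c : Tor L × Tor L → ℝ) (e : Tor L × Tor L)
    (h : cut ρ c e ≠ 0) : tnorm (e.2 - e.1) ≤ ρ := by
  unfold cut at h
  by_contra hcon
  rw [if_neg hcon] at h
  exact h rfl

theorem cut_le {L : ℕ} (ρ : ℝ) {c : Tor L × Tor L → ℝ} (hc : ∀ e, 0 ≤ c e) (e : Tor L × Tor L) :
    0 ≤ cut ρ c e ∧ cut ρ c e ≤ c e := by
  unfold cut
  split_ifs
  · exact ⟨hc e, le_rfl⟩
  · exact ⟨le_rfl, hc e⟩

theorem inner_abs_le {N : ℕ} (s t : Sph N) : |inner ℝ (s : EN N) (t : EN N)| ≤ 1 := by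
  refine (abs_real_inner_le_norm _ _).trans ?_
  rw [spin_norm, spin_norm, one_mul]

/-- the truncation error -/
theorem cut_err (a : ℝ) (ha : 0 < a) : ∃ C : ℝ, 0 < C ∧ ∀ A : ℝ, 0 ≤ A →
    ∀ (L : ℕ) [NeZero L] (c : Tor L × Tor L → ℝ), ExpC A a c → ∀ (Λ : Finset (Tor L)) (ρ : ℝ),
    ∀ (N : ℕ), N ≠ 0 → ∀ (η : Conf N L) (F : Conf N L → ℝ), Measurable F → (∀ S, |F S| ≤ 1) →
      |gH (pS c) Λ η F - gH (pS (cut ρ c)) Λ η F| ≤
        Real.exp (C * A * Λ.card * Real.exp (-(a / 2) * ρ)) - 1 := by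
  classical
  obtain ⟨Kl, hKl0, hKl⟩ := lsum (a / 2) (by positivity)
  refine ⟨4 * Kl, by positivity, ?_⟩
  intro A hA L _ c hc Λ ρ N hN η F hF hF1
  have hc0 : ∀ e, 0 ≤ c e := fun e => (hc e).1
  obtain ⟨d, hd⟩ : ∃ d : Tor L × Tor L → ℝ, d = fun e => c e - cut ρ c e := ⟨_, rfl⟩
  have hd0 : ∀ e, 0 ≤ d e := fun e => by
    rw [hd]
    have := (cut_le ρ hc0 e).2
    simp only
    linarith
  have hd1 : ∀ x y : Tor L, d (x, y) ≤ A * Real.exp (-(a / 2) * ρ) *
      Real.exp (-(a / 2) * tnorm (y - x)) := by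
    intro x y
    rw [hd]
    simp only
    unfold cut
    split_ifs with h
    · rw [sub_self]
      positivity
    · push Not at h
      simp only at h
      rw [sub_zero]
      refine (hc (x, y)).2.trans ?_
      rw [mul_assoc, ← Real.exp_add]
      refine mul_le_mul_of_nonneg_left (Real.exp_le_exp.2 ?_) hA
      simp only
      nlinarith
  obtain ⟨κ, hκ⟩ : ∃ κ : ℝ, κ = ∑ e : Tor L × Tor L, (if e.1 ∈ Λ ∨ e.2 ∈ Λ then 0 else
    d e * inner ℝ (η e.1 : EN N) (η e.2 : EN N)) := ⟨_, rfl⟩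
  obtain ⟨δ, hδ⟩ : ∃ δ : ℝ, δ = ∑ e : Tor L × Tor L, (if e.1 ∈ Λ ∨ e.2 ∈ Λ then d e else 0) :=
    ⟨_, rfl⟩
  have h1 : ∀ S : Conf N L, |pS c (splice Λ S η) - pS (cut ρ c) (splice Λ S η) - κ| ≤ δ := by
    intro S
    have e1 : pS c (splice Λ S η) - pS (cut ρ c) (splice Λ S η) - κ =
        ∑ e : Tor L × Tor L, (if e.1 ∈ Λ ∨ e.2 ∈ Λ then
          d e * inner ℝ (splice Λ S η e.1 : EN N) (splice Λ S η e.2 : EN N) else 0) := by
      unfold pS
      rw [hκ, ← Finset.sum_sub_distrib, ← Finset.sum_sub_distrib]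
      refine Finset.sum_congr rfl fun e _ => ?_
      by_cases h : e.1 ∈ Λ ∨ e.2 ∈ Λ
      · rw [if_pos h, if_pos h, hd]
        ring
      · rw [if_neg h, if_neg h, hd]
        push Not at h
        unfold splice
        simp only [h.1, h.2, if_false]
        ring
    rw [e1, hδ]
    refine (Finset.abs_sum_le_sum_abs _ _).trans (Finset.sum_le_sum fun e _ => ?_)
    split_ifs
    · rw [abs_mul, abs_of_nonneg (hd0 e)]
      have := mul_le_mul_of_nonneg_left (inner_abs_le (splice Λ S η e.1) (splice Λ S η e.2)) (hd0 e)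
      linarith
    · simp
  have h2 := gH_compare hN (continuous_pS c) (continuous_pS (cut ρ c)) Λ η κ δ h1 hF hF1
  refine h2.trans (sub_le_sub_right (Real.exp_le_exp.2 ?_) 1)
  have hexp : ∀ x : Tor L, ∑ y : Tor L, Real.exp (-(a / 2) * tnorm (y - x)) ≤ Kl := by
    intro x
    have h3 := sum_shift (fun z : Tor L => Real.exp (-(a / 2) * tnorm z)) x
    rw [h3]
    refine le_trans (Finset.sum_le_sum fun z _ => ?_) (hKl L)
    have h4 : (1 : ℝ) ≤ (1 + tnorm z) ^ 2 := by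
      have := tnorm_nonneg z
      nlinarith
    exact le_mul_of_one_le_left (Real.exp_pos _).le h4
  have h3 : δ ≤ ∑ x ∈ Λ, ∑ y : Tor L, (d (x, y) + d (y, x)) := by
    rw [hδ]
    have h4 : ∑ x ∈ Λ, ∑ y : Tor L, (d (x, y) + d (y, x)) =
        ∑ e : Tor L × Tor L, ((if e.1 ∈ Λ then d e else 0) + (if e.2 ∈ Λ then d e else 0)) := by
      rw [Finset.sum_add_distrib]
      have h5 : ∑ e : Tor L × Tor L, (if e.1 ∈ Λ then d e else 0) =
          ∑ x ∈ Λ, ∑ y : Tor L, d (x, y) := by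
        rw [Fintype.sum_prod_type, ← Finset.sum_filter_add_sum_filter_not Finset.univ (fun x => x ∈ Λ)]
        have h6 : ∑ x ∈ Finset.univ.filter (fun x => x ∉ Λ), ∑ y : Tor L,
            (if (x, y).1 ∈ Λ then d (x, y) else 0) = 0 := by
          refine Finset.sum_eq_zero fun x hx => Finset.sum_eq_zero fun y _ => ?_
          rw [if_neg (Finset.mem_filter.1 hx).2]
        rw [h6, add_zero, Finset.filter_univ_mem]
        refine Finset.sum_congr rfl fun x hx => Finset.sum_congr rfl fun y _ => ?_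
        rw [if_pos hx]
      have h5' : ∑ e : Tor L × Tor L, (if e.2 ∈ Λ then d e else 0) =
          ∑ x ∈ Λ, ∑ y : Tor L, d (y, x) := by
        rw [Fintype.sum_prod_type_right,
          ← Finset.sum_filter_add_sum_filter_not Finset.univ (fun x => x ∈ Λ)]
        have h6 : ∑ x ∈ Finset.univ.filter (fun x => x ∉ Λ), ∑ y : Tor L,
            (if (y, x).2 ∈ Λ then d (y, x) else 0) = 0 := by
          refine Finset.sum_eq_zero fun x hx => Finset.sum_eq_zero fun y _ => ?_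
          rw [if_neg (Finset.mem_filter.1 hx).2]
        rw [h6, add_zero, Finset.filter_univ_mem]
        refine Finset.sum_congr rfl fun x hx => Finset.sum_congr rfl fun y _ => ?_
        rw [if_pos hx]
      rw [h5, h5', ← Finset.sum_add_distrib]
      exact Finset.sum_congr rfl fun x _ => Finset.sum_add_distrib
    rw [h4]
    refine Finset.sum_le_sum fun e _ => ?_
    have := hd0 e
    by_cases g1 : e.1 ∈ Λ <;> by_cases g2 : e.2 ∈ Λ <;> simp [g1, g2] <;> linarith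
  have h4 : ∑ x ∈ Λ, ∑ y : Tor L, (d (x, y) + d (y, x)) ≤
      ∑ x ∈ Λ, 2 * (A * Real.exp (-(a / 2) * ρ)) * Kl := by
    refine Finset.sum_le_sum fun x _ => ?_
    calc ∑ y : Tor L, (d (x, y) + d (y, x))
        ≤ ∑ y : Tor L, 2 * (A * Real.exp (-(a / 2) * ρ)) * Real.exp (-(a / 2) * tnorm (y - x)) := by
          refine Finset.sum_le_sum fun y _ => ?_
          have g1 := hd1 x y
          have g2 := hd1 y x
          rw [tnorm_sub_comm x y] at g2
          linarith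
      _ = 2 * (A * Real.exp (-(a / 2) * ρ)) * ∑ y : Tor L, Real.exp (-(a / 2) * tnorm (y - x)) := by
          rw [Finset.mul_sum]
      _ ≤ _ := mul_le_mul_of_nonneg_left (hexp x) (by positivity)
  rw [Finset.sum_const, nsmul_eq_mul] at h4
  have h5 := h3.trans h4
  calc 2 * δ ≤ 2 * (Λ.card * (2 * (A * Real.exp (-(a / 2) * ρ)) * Kl)) := by linarith
    _ = 4 * Kl * A * Λ.card * Real.exp (-(a / 2) * ρ) := by ring

end Pool.Agent.H12.OL
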