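import Pool.Agent.H12.OL.Pow
import Pool.Agent.H12.LN.Model

/-! # The model: tori and infinite volume limits -/

set_option autoImplicit false
set_option linter.unusedSectionVars false

noncomputable section

namespace Pool.Agent.H12.OL

open MeasureTheory Pool.Agent.H5R2.ON Pool.Agent.H717R2.ON3 Pool.Agent.H983R2.ONJ
open Pool.Agent.H12.LN
open Filter
open Pool.Agent.Y13.QM (corS corS_nonneg corS_le_one)
open Pool.Agent.Results.MP_8be4c0_mp.MassLowerBound

/-- bounds on all tori pass to the infinite volume limits -/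
theorem lim_bound (J : ℤ × ℤ → ℝ) (N : ℕ) (β D : ℝ) (B : ℝ → ℝ)
    (htor : ∀ (L : ℕ) [NeZero L] (x y : Tor L), 0 < tnorm (x - y) → D ≤ tnorm (x - y) →
      |corr N L J β x y| ≤ B (tnorm (x - y))) :
    ∀ G : ℤ × ℤ → ℝ, IsLimitCorr N J β G → ∀ x, 0 < znorm x → D ≤ znorm x →
      |G x| ≤ B (znorm x) := by
  intro G hG x hx0 hx
  obtain ⟨l, hl, hlim⟩ := hG
  refine le_of_tendsto (hlim x).abs ?_
  filter_upwards [hl.eventually_ge_atTop (2 * (x.1.natAbs + x.2.natAbs))] with n hn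
  have h1 : |x.1| * 2 < ((l n + 1 : ℕ) : ℤ) := by
    have : (|x.1| : ℤ) = x.1.natAbs := (Int.natCast_natAbs x.1).symm
    rw [this]; push_cast; omega
  have h2 : |x.2| * 2 < ((l n + 1 : ℕ) : ℤ) := by
    have : (|x.2| : ℤ) = x.2.natAbs := (Int.natCast_natAbs x.2).symm
    rw [this]; push_cast; omega
  have h3 := tnorm_cast (L := l n + 1) x.1 x.2 (by exact_mod_cast h1) (by exact_mod_cast h2)
  have h4 : tnorm (0 - ((x.1 : ZMod (l n + 1)), (x.2 : ZMod (l n + 1)))) = znorm x := by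
    rw [zero_sub, tnorm_neg, h3]
    rfl
  have h5 := htor (l n + 1) 0 ((x.1 : ZMod (l n + 1)), (x.2 : ZMod (l n + 1)))
    (by rw [h4]; exact hx0) (by rw [h4]; exact hx)
  rw [h4] at h5
  exact h5

theorem abs_corr {J : ℤ × ℤ → ℝ} (hJ : Admissible J) {N : ℕ} (hN : N ≠ 0) {β : ℝ} (hβ : 0 ≤ β)
    (L : ℕ) [NeZero L] (x y : Tor L) : |corr N L J β x y| = corS (N := N) (cJ L J β) x y := by
  rw [corr_eq]
  refine abs_of_nonneg (corS_nonneg hN ?_ x y)
  intro e
  unfold cJ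
  split_ifs with h
  · exact le_rfl
  · exact mul_nonneg hβ (Jper_nonneg hJ.nonneg (sub_ne_zero.2 h))

/-- the two point function at logarithmic scales -/
theorem oneloop_main (J : ℤ × ℤ → ℝ) (hJ : Admissible J) (N : ℕ) (hN : 2 ≤ N) (w : ℝ)
    (hw0 : 0 < w) (hwN : w ≤ (N : ℝ) - 1) (ε : ℝ) (hε : 0 < ε) :
    ∃ β₀ : ℝ, 0 < β₀ ∧ ∀ β : ℝ, β₀ ≤ β →
      (∀ (L : ℕ) [NeZero L] (x y : Tor L),
        Real.exp ((2 * Real.pi * sig J * XX N w + ε) * β) ≤ tnorm (x - y) →
        |corr N L J β x y| ≤ Real.exp (-(HH N w)) + ε) ∧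
      ∀ G : ℤ × ℤ → ℝ, IsLimitCorr N J β G → ∀ x : ℤ × ℤ,
        Real.exp ((2 * Real.pi * sig J * XX N w + ε) * β) ≤ znorm x →
        |G x| ≤ Real.exp (-(HH N w)) + ε := by
  have hN' : (2 : ℝ) ≤ N := by exact_mod_cast hN
  have hN0 : N ≠ 0 := by omega
  have hsig := sig_nonneg hJ
  have hπ := Real.pi_pos
  obtain ⟨m, hm⟩ : ∃ m : ℝ, m = Real.exp (-(HH N w) / 2) := ⟨_, rfl⟩
  have hm2 : m ^ 2 = Real.exp (-(HH N w)) := by
    rw [hm, ← Real.exp_nat_mul]
    congr 1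
    push_cast
    ring
  have hXtop : XX N ((N : ℝ) - 1) = 0 := by
    unfold XX
    have hW : (N : ℝ) - 1 ≠ 0 := by linarith
    rw [div_self hW, Real.log_one]
    ring
  have hX0 : 0 ≤ XX N w := by
    rcases hwN.eq_or_lt with h | h
    · rw [h, hXtop]
    · rw [← hXtop]
      exact (XX_anti hN hw0 h).le
  have hH0 : 0 ≤ HH N w := by
    unfold HH
    refine mul_nonneg (by positivity) (add_nonneg (Real.log_nonneg ?_) ?_)
    · rw [one_le_div hw0]
      exact hwN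
    · rw [sub_nonneg]
      exact one_div_le_one_div_of_le hw0 hwN
  have hm0 : 0 < m := by rw [hm]; exact Real.exp_pos _
  have hm1 : m ≤ 1 := by
    rw [hm]
    exact Real.exp_le_one_iff.2 (by linarith)
  obtain ⟨T, hT⟩ : ∃ T : ℝ, T = 2 * Real.pi * sig J * XX N w := ⟨_, rfl⟩
  have hT0 : 0 ≤ T := by rw [hT]; positivity
  obtain ⟨s, hs⟩ : ∃ s : ℝ, s = min 1 (ε / 6) := ⟨_, rfl⟩
  have hs0 : 0 < s := by rw [hs]; positivity
  have hs1 : s ≤ 1 := by rw [hs]; exact min_le_left _ _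
  have hsε : s ≤ ε / 6 := by rw [hs]; exact min_le_right _ _
  have hflow := pp_flow hJ hN hw0 hwN
  rw [← hT, ← hm] at hflow
  obtain ⟨C, a, hC, ha, htwo⟩ := two_pt hJ
  have hexp : Tendsto (fun β : ℝ => Real.exp (s * β)) atTop atTop :=
    Real.tendsto_exp_atTop.comp (tendsto_id.const_mul_atTop hs0)
  have hev := (((hflow s hs0).and (ev_fac (T + s) 1 1 (by linarith) one_pos one_pos)).and
    ((ev_err C (T + s) a (ε / 2) hC ha (by positivity)).and
      ((eventually_ge_atTop (1 : ℝ)).and (hexp.eventually_ge_atTop 3))))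
  obtain ⟨b, hb⟩ := Filter.eventually_atTop.1 hev
  refine ⟨max b 1, by positivity, ?_⟩
  intro β hβ
  obtain ⟨⟨hP, hfac⟩, herr, hβ1, hexp3⟩ := hb β ((le_max_left _ _).trans hβ)
  have hβ0 : 0 < β := by linarith
  have htor : ∀ (L : ℕ) [NeZero L] (x y : Tor L),
      Real.exp ((T + ε) * β) ≤ tnorm (x - y) → |corr N L J β x y| ≤ m ^ 2 + ε := by
    intro L _ x y hxy
    rw [abs_corr hJ hN0 hβ0.le]
    obtain ⟨R, hR⟩ : ∃ R : ℝ, R = Real.exp ((T + s) * β) := ⟨_, rfl⟩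
    obtain ⟨f1, f2, -, -⟩ := hfac R (by rw [hR])
    have hR3 : 3 * R ≤ tnorm (x - y) := by
      refine le_trans ?_ hxy
      calc 3 * R ≤ Real.exp (s * β) * R :=
            mul_le_mul_of_nonneg_right hexp3 (by linarith)
        _ = Real.exp ((T + 2 * s) * β) := by
            rw [hR, ← Real.exp_add]
            congr 1
            ring
        _ ≤ Real.exp ((T + ε) * β) :=
            Real.exp_le_exp.2 (mul_le_mul_of_nonneg_right (by linarith) hβ0.le)
    rw [← hR] at hP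
    have h1 := htwo N hN0 β hβ0.le R (m + s) (by linarith) (by linarith) hP.2 L x y hR3
    have h2 := herr R (by linarith) (by rw [hR])
    have h3 : Real.exp (C * β * R ^ 2 * Real.exp (-a * R)) - 1 ≤
        Real.exp (C * β * R ^ 2 * Real.exp (-a * β ^ 2)) - 1 := by
      refine sub_le_sub_right (Real.exp_le_exp.2 ?_) 1
      refine mul_le_mul_of_nonneg_left (Real.exp_le_exp.2 ?_) (by positivity)
      have : β ^ 2 ≤ R := by nlinarith [sq_nonneg β]
      nlinarith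
    have h4 : (m + s) ^ 2 ≤ m ^ 2 + ε / 2 := by nlinarith
    linarith
  rw [← hT, ← hm2]
  refine ⟨htor, fun G hG x hx => ?_⟩
  exact lim_bound J N β (Real.exp ((T + ε) * β)) (fun _ => m ^ 2 + ε)
    (fun L _ x y _ hxy => htor L x y hxy) G hG x (lt_of_lt_of_le (Real.exp_pos _) hx) hx

/-- the power law -/
theorem power_main (J : ℤ × ℤ → ℝ) (hJ : Admissible J) (N : ℕ) (hN : 2 ≤ N) (ε : ℝ)
    (hε : 0 < ε) : ∃ C β₀ : ℝ, 0 < C ∧ 0 < β₀ ∧ ∀ β : ℝ, β₀ ≤ β →
      (∀ (L : ℕ) [NeZero L] (x y : Tor L), x ≠ y → |corr N L J β x y| ≤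
        C * tnorm (x - y) ^ (-((N : ℝ) * (N - 1) / ((4 * Real.pi * sig J + ε) * β)))) ∧
      ∀ G : ℤ × ℤ → ℝ, IsLimitCorr N J β G → ∀ x : ℤ × ℤ, x ≠ 0 → |G x| ≤
        C * znorm x ^ (-((N : ℝ) * (N - 1) / ((4 * Real.pi * sig J + ε) * β))) := by
  have hN0 : N ≠ 0 := by omega
  obtain ⟨D, hD, hpow⟩ := pow_tor hJ hN ε hε
  obtain ⟨b, hb⟩ := Filter.eventually_atTop.1 hpow
  refine ⟨D, max b 1, hD, by positivity, ?_⟩
  intro β hβ
  have hβ0 : 0 < β := lt_of_lt_of_le one_pos ((le_max_right _ _).trans hβ)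
  have h1 := hb β ((le_max_left _ _).trans hβ)
  have e1 : (N : ℝ) * (N - 1) / (2 * (2 * Real.pi * sig J) + ε) / β =
      (N : ℝ) * (N - 1) / ((4 * Real.pi * sig J + ε) * β) := by
    rw [div_div]
    congr 2
    ring
  rw [e1] at h1
  have htor : ∀ (L : ℕ) [NeZero L] (x y : Tor L), 0 < tnorm (x - y) → |corr N L J β x y| ≤
      D * tnorm (x - y) ^ (-((N : ℝ) * (N - 1) / ((4 * Real.pi * sig J + ε) * β))) := by
    intro L _ x y hxy
    rw [abs_corr hJ hN0 hβ0.le]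
    exact h1 L x y hxy
  refine ⟨fun L _ x y hxy => htor L x y ?_, fun G hG x hx => ?_⟩
  · rcases (tnorm_nonneg (x - y)).eq_or_lt with h | h
    · exfalso
      have h2 := tnorm_sq (x - y)
      rw [← h] at h2
      have a1 := sq_nonneg ((cr (x - y)).1 : ℝ)
      have a2 := sq_nonneg ((cr (x - y)).2 : ℝ)
      have h3 : ((cr (x - y)).1 : ℝ) ^ 2 = 0 := by linarith
      have h4 : ((cr (x - y)).2 : ℝ) ^ 2 = 0 := by linarith
      have h5 : cr (x - y) = cr (0 : Tor L) := by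
        unfold cr at h3 h4 ⊢
        simp only at h3 h4
        have h6 : (x - y).1.valMinAbs = 0 := by
          have := pow_eq_zero_iff (two_ne_zero) |>.1 h3
          exact_mod_cast this
        have h7 : (x - y).2.valMinAbs = 0 := by
          have := pow_eq_zero_iff (two_ne_zero) |>.1 h4
          exact_mod_cast this
        rw [h6, h7]
        simp
      have h6 := cr_inj h5
      exact hxy (sub_eq_zero.1 h6)
    · exact h
  · refine lim_bound J N β 0
      (fun t => D * t ^ (-((N : ℝ) * (N - 1) / ((4 * Real.pi * sig J + ε) * β))))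
      (fun L _ x y hxy _ => htor L x y hxy) G hG x ?_ (znorm_nonneg x)
    have hx' : x.1 ≠ 0 ∨ x.2 ≠ 0 := by
      by_contra hcon
      push Not at hcon
      exact hx (Prod.ext hcon.1 hcon.2)
    unfold znorm
    refine Real.sqrt_pos.2 ?_
    rcases hx' with h | h
    · have : (0 : ℝ) < (x.1 : ℝ) ^ 2 := by
        have : (x.1 : ℝ) ≠ 0 := by exact_mod_cast h
        positivity
      have := sq_nonneg (x.2 : ℝ)
      linarith
    · have : (0 : ℝ) < (x.2 : ℝ) ^ 2 := by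
        have : (x.2 : ℝ) ≠ 0 := by exact_mod_cast h
        positivity
      have := sq_nonneg (x.1 : ℝ)
      linarith

end Pool.Agent.H12.OL
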