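import Pool.Agent.H12.OL.Two

/-! # The step at logarithmic scales as `β` tends to infinity -/

set_option autoImplicit false
set_option linter.unusedSectionVars false

noncomputable section

namespace Pool.Agent.H12.OL

open MeasureTheory Pool.Agent.H5R2.ON Pool.Agent.H717R2.ON3 Pool.Agent.H983R2.ONJ
open Pool.Agent.Q218.ON (EN ax)
open Pool.Agent.H12.LN
open Filter

/-- bounds at the scale `exp (t β)` for large `β` -/
def PP (J : ℤ × ℤ → ℝ) (N : ℕ) (t u m : ℝ) : Prop :=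
  ∀ ε : ℝ, 0 < ε → ∀ᶠ β : ℝ in atTop,
    UB J N β (Real.exp ((t + ε) * β)) (u + ε) ∧ MB J N β (Real.exp ((t + ε) * β)) (m + ε)

theorem tend_pow_exp (s : ℝ) (hs : 0 < s) (n : ℕ) :
    Tendsto (fun β : ℝ => β ^ n / Real.exp (s * β)) atTop (nhds 0) := by
  have h2 := Real.tendsto_pow_mul_exp_neg_atTop_nhds_zero n
  have h3 : Tendsto (fun R : ℝ => s * R) atTop atTop := tendsto_id.const_mul_atTop hs
  have h4 := (h2.comp h3).const_mul ((1 / s) ^ n)
  rw [mul_zero] at h4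
  refine h4.congr fun R => ?_
  simp only [Function.comp]
  rw [Real.exp_neg, ← mul_assoc, ← mul_pow, ← mul_assoc, one_div_mul_cancel hs.ne', one_mul]
  rfl

/-- the error of the truncation is small -/
theorem ev_err (C K a ε : ℝ) (hC : 0 < C) (ha : 0 < a) (hε : 0 < ε) :
    ∀ᶠ β : ℝ in atTop, ∀ R : ℝ, 0 ≤ R → R ≤ Real.exp (K * β) →
      Real.exp (C * β * R ^ 2 * Real.exp (-a * β ^ 2)) - 1 ≤ ε := by
  have h1 := (tend_pow_exp 1 one_pos 1).const_mul C
  rw [mul_zero] at h1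
  have h2 : Tendsto (fun β : ℝ => Real.exp (C * (β ^ 1 / Real.exp (1 * β))) - 1) atTop
      (nhds (Real.exp 0 - 1)) :=
    ((Real.continuous_exp.tendsto 0).comp h1).sub_const 1
  rw [Real.exp_zero, sub_self] at h2
  have h3 := h2.eventually_le_const hε
  filter_upwards [h3, eventually_ge_atTop (0 : ℝ), eventually_ge_atTop ((2 * K + 1) / a)] with
    β h hβ0 hβ R hR0 hR
  refine le_trans (sub_le_sub_right (Real.exp_le_exp.2 ?_) 1) h
  rw [pow_one, one_mul, mul_assoc, mul_assoc]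
  refine mul_le_mul_of_nonneg_left ?_ hC.le
  rw [div_eq_mul_inv, ← Real.exp_neg]
  refine mul_le_mul_of_nonneg_left ?_ hβ0
  have h4 : R ^ 2 ≤ Real.exp (K * β) ^ 2 := pow_le_pow_left₀ hR0 hR 2
  calc R ^ 2 * Real.exp (-a * β ^ 2) ≤ Real.exp (K * β) ^ 2 * Real.exp (-a * β ^ 2) :=
        mul_le_mul_of_nonneg_right h4 (Real.exp_pos _).le
    _ = Real.exp (2 * K * β - a * β ^ 2) := by
        rw [← Real.exp_nat_mul, ← Real.exp_add]
        congr 1
        push_cast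
        ring
    _ ≤ Real.exp (-β) := by
        refine Real.exp_le_exp.2 ?_
        rw [div_le_iff₀ ha] at hβ
        nlinarith

/-- the energy factor -/
theorem ev_fac (s δ ε : ℝ) (hs : 0 < s) (hδ : 0 < δ) (hε : 0 < ε) :
    ∀ᶠ β : ℝ in atTop, ∀ r : ℝ, Real.exp (s * β) ≤ r →
      6 * β ^ 2 ≤ r ∧ 2 ≤ r ∧ 1 ≤ δ * β ∧
      (1 + 32 * (β ^ 2 / r)) * (2 * Real.pi + 120 / (δ * β)) ≤ 2 * Real.pi * (1 + ε) := by
  have hπ := Real.pi_pos
  have h1 := tend_pow_exp s hs 2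
  have h2 : Tendsto (fun β : ℝ => 120 / (δ * β)) atTop (nhds 0) :=
    Tendsto.div_atTop tendsto_const_nhds (tendsto_id.const_mul_atTop hδ)
  have h3 : Tendsto (fun β : ℝ => (1 + 32 * (β ^ 2 / Real.exp (s * β))) *
      (2 * Real.pi + 120 / (δ * β))) atTop (nhds ((1 + 32 * 0) * (2 * Real.pi + 0))) :=
    ((h1.const_mul 32).const_add 1).mul (h2.const_add _)
  have h4 : (1 + 32 * 0) * (2 * Real.pi + 0) < 2 * Real.pi * (1 + ε) := by
    nlinarith [mul_pos hπ hε]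
  have h5 := h3.eventually_le_const h4
  have h6 : (0 : ℝ) < 1 / 6 := by norm_num
  have h7 := h1.eventually_le_const h6
  have h8 : Tendsto (fun β : ℝ => Real.exp (s * β)) atTop atTop :=
    Real.tendsto_exp_atTop.comp (tendsto_id.const_mul_atTop hs)
  have h9 : Tendsto (fun β : ℝ => δ * β) atTop atTop := tendsto_id.const_mul_atTop hδ
  filter_upwards [h5, h7, h8.eventually_ge_atTop 2, h9.eventually_ge_atTop 1] with
    β k1 k2 k3 k4 r hr
  have hr0 : 0 < r := lt_of_lt_of_le (Real.exp_pos _) hr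
  have h10 : β ^ 2 / r ≤ β ^ 2 / Real.exp (s * β) :=
    div_le_div_of_nonneg_left (sq_nonneg _) (Real.exp_pos _) hr
  refine ⟨?_, k3.trans hr, k4, ?_⟩
  · have h11 := h10.trans k2
    rw [div_le_iff₀ hr0] at h11
    linarith
  · refine le_trans (mul_le_mul_of_nonneg_right ?_ (by positivity)) k1
    linarith

/-- the choice of the small parameter -/
theorem small_par (g δ u v m M ε : ℝ) (N : ℕ) (h1 : g / δ * (((N : ℝ) - 2) * u + 1) * (v * (u - v)) <
      ((N : ℝ) * v - 1) ^ 2)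
    (h2 : g / δ * (((N : ℝ) - 2) * u + 1) * (m ^ 2 - M ^ 2) < ((N : ℝ) - 1) ^ 2 * M ^ 2)
    (hε : 0 < ε) : ∃ s : ℝ, 0 < s ∧ s ≤ ε ∧
      g / δ * (1 + s) * (((N : ℝ) - 2) * (u + s) + 1) * (v * (u + s - v)) <
        ((N : ℝ) * v - 1) ^ 2 ∧
      g / δ * (1 + s) * (((N : ℝ) - 2) * (u + s) + 1) * ((m + s) ^ 2 - M ^ 2) <
        ((N : ℝ) - 1) ^ 2 * M ^ 2 := by
  have c1 : Continuous fun s : ℝ =>
      g / δ * (1 + s) * (((N : ℝ) - 2) * (u + s) + 1) * (v * (u + s - v)) := by fun_prop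
  have c2 : Continuous fun s : ℝ =>
      g / δ * (1 + s) * (((N : ℝ) - 2) * (u + s) + 1) * ((m + s) ^ 2 - M ^ 2) := by fun_prop
  have t1 := c1.tendsto 0
  have t2 := c2.tendsto 0
  simp only [add_zero, mul_one] at t1 t2
  have e1 := t1.eventually_lt_const h1
  have e2 := t2.eventually_lt_const h2
  obtain ⟨η, hη, hη'⟩ := Metric.eventually_nhds_iff.1 (e1.and e2)
  refine ⟨min (η / 2) ε, by positivity, min_le_right _ _, ?_⟩
  have h3 : dist (min (η / 2) ε) 0 < η := by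
    rw [Real.dist_eq, sub_zero, abs_of_pos (by positivity)]
    exact lt_of_le_of_lt (min_le_left _ _) (by linarith)
  exact hη' h3

/-- the algebra of one step for second moments -/
theorem alg_u (N : ℕ) (U v w ι ιs : ℝ) (hι0 : 0 ≤ ι) (hι : ι ≤ ιs) (hv : 1 < (N : ℝ) * v)
    (hw : w ≤ 2 * v) (h : ((N : ℝ) * U - 1) ^ 2 ≤ ι * (U * (w - U)))
    (hs : ιs * (v * (w - v)) < ((N : ℝ) * v - 1) ^ 2) (hv0 : 0 < v) : U ≤ v := by
  by_contra hcon
  push Not at hcon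
  have hNpos : 0 < (N : ℝ) := by
    by_contra h0
    push Not at h0
    nlinarith
  have h1 : (N : ℝ) * v - 1 < (N : ℝ) * U - 1 := by nlinarith
  have h2 : ((N : ℝ) * v - 1) ^ 2 < ((N : ℝ) * U - 1) ^ 2 := by
    have : 0 < (N : ℝ) * v - 1 := by linarith
    nlinarith
  have h3 : U * (w - U) ≤ v * (w - v) := by nlinarith
  have h4 : ι * (U * (w - U)) ≤ ιs * (v * (w - v)) := by
    rcases le_total 0 (U * (w - U)) with h5 | h5
    · calc ι * (U * (w - U)) ≤ ιs * (U * (w - U)) := mul_le_mul_of_nonneg_right hι h5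
        _ ≤ ιs * (v * (w - v)) := mul_le_mul_of_nonneg_left h3 (hι0.trans hι)
    · exfalso
      have h6 : ι * (U * (w - U)) ≤ 0 := mul_nonpos_of_nonneg_of_nonpos hι0 h5
      have h7 : 0 < ((N : ℝ) * v - 1) ^ 2 := by
        have : 0 < (N : ℝ) * v - 1 := by linarith
        positivity
      linarith
  linarith

theorem alg_m (N : ℕ) (hN : 2 ≤ N) (α m M ι ιs : ℝ) (hι0 : 0 ≤ ι) (hι : ι ≤ ιs) (hM : 0 ≤ M)
    (h : ((N : ℝ) - 1) ^ 2 * α ^ 2 ≤ ι * (m ^ 2 - α ^ 2))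
    (hs : ιs * (m ^ 2 - M ^ 2) < ((N : ℝ) - 1) ^ 2 * M ^ 2) : |α| ≤ M := by
  by_contra hcon
  push Not at hcon
  have hN1 : (1 : ℝ) ≤ (N : ℝ) - 1 := by
    have : (2 : ℝ) ≤ N := by exact_mod_cast hN
    linarith
  have h1 : M ^ 2 < α ^ 2 := by
    rw [← sq_abs α]
    exact pow_lt_pow_left₀ hcon hM (by norm_num)
  have h2 : 0 < ((N : ℝ) - 1) ^ 2 := by positivity
  have h3 : ((N : ℝ) - 1) ^ 2 * M ^ 2 < ((N : ℝ) - 1) ^ 2 * α ^ 2 := mul_lt_mul_of_pos_left h1 h2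
  have h4 : ι * (m ^ 2 - α ^ 2) ≤ ιs * (m ^ 2 - M ^ 2) := by
    rcases le_total 0 (m ^ 2 - α ^ 2) with h5 | h5
    · calc ι * (m ^ 2 - α ^ 2) ≤ ιs * (m ^ 2 - α ^ 2) := mul_le_mul_of_nonneg_right hι h5
        _ ≤ ιs * (m ^ 2 - M ^ 2) := mul_le_mul_of_nonneg_left (by linarith) (hι0.trans hι)
    · exfalso
      have h6 : ι * (m ^ 2 - α ^ 2) ≤ 0 := mul_nonpos_of_nonneg_of_nonpos hι0 h5
      have h7 : 0 ≤ ((N : ℝ) - 1) ^ 2 * M ^ 2 := by positivity
      linarith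
  linarith

/-- the step -/
theorem pp_step {J : ℤ × ℤ → ℝ} (hJ : Admissible J) {N : ℕ} (hN : 2 ≤ N)
    {t u m δ u' m' : ℝ} (ht : 0 ≤ t) (hu : 0 < u) (hm : 0 ≤ m) (hδ : 0 < δ) (hu' : u ≤ 2 * u')
    (hNu : 1 < (N : ℝ) * u') (hm' : 0 ≤ m')
    (h1 : 2 * Real.pi * sig J * (((N : ℝ) - 2) * u + 1) * (u' * (u - u')) ≤
      δ * ((N : ℝ) * u' - 1) ^ 2)
    (h2 : 2 * Real.pi * sig J * (((N : ℝ) - 2) * u + 1) * (m ^ 2 - m' ^ 2) ≤
      δ * (((N : ℝ) - 1) ^ 2 * m' ^ 2))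
    (h : PP J N t u m) : PP J N (t + δ) u' m' := by
  intro ε hε
  obtain ⟨C, a, hC, ha, hstep⟩ := fstep hJ
  have hπ := Real.pi_pos
  have hsig := sig_nonneg hJ
  have hN0 : N ≠ 0 := by omega
  have hN2 : (0 : ℝ) ≤ (N : ℝ) - 2 := by
    have : (2 : ℝ) ≤ N := by exact_mod_cast hN
    linarith
  have hNpos : (0 : ℝ) < N := by linarith
  have hu'0 : 0 < u' := by linarith
  obtain ⟨g, hg⟩ : ∃ g : ℝ, g = 2 * Real.pi * sig J := ⟨_, rfl⟩
  rw [← hg] at h1 h2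
  have hg0 : 0 ≤ g := by rw [hg]; positivity
  obtain ⟨v, hv⟩ : ∃ v : ℝ, v = u' + ε / 2 := ⟨_, rfl⟩
  obtain ⟨M, hM⟩ : ∃ M : ℝ, M = m' + ε / 2 := ⟨_, rfl⟩
  have hv0 : 0 < v := by linarith
  have hNv : 1 < (N : ℝ) * v := by rw [hv]; nlinarith
  have hK0 : 0 ≤ ((N : ℝ) - 2) * u + 1 := by positivity
  have hgK : 0 ≤ g / δ * (((N : ℝ) - 2) * u + 1) := by positivity
  have k1 : g / δ * (((N : ℝ) - 2) * u + 1) * (v * (u - v)) < ((N : ℝ) * v - 1) ^ 2 := by
    have e1 : v * (u - v) ≤ u' * (u - u') := by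
      have e2 : v * (u - v) - u' * (u - u') = (v - u') * (u - v - u') := by ring
      have e3 : (v - u') * (u - v - u') ≤ 0 := mul_nonpos_of_nonneg_of_nonpos (by linarith)
        (by linarith)
      linarith
    have e2 : g / δ * (((N : ℝ) - 2) * u + 1) * (u' * (u - u')) ≤ ((N : ℝ) * u' - 1) ^ 2 := by
      have e3 : g / δ * (((N : ℝ) - 2) * u + 1) * (u' * (u - u')) =
          (g * (((N : ℝ) - 2) * u + 1) * (u' * (u - u'))) / δ := by
        field_simp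
      rw [e3, div_le_iff₀ hδ]
      linarith
    have e3 : ((N : ℝ) * u' - 1) ^ 2 < ((N : ℝ) * v - 1) ^ 2 := by
      have e4 : (N : ℝ) * u' - 1 < (N : ℝ) * v - 1 := by rw [hv]; nlinarith
      have e5 : 0 < (N : ℝ) * u' - 1 := by linarith
      nlinarith
    have e4 := mul_le_mul_of_nonneg_left e1 hgK
    linarith
  have k2 : g / δ * (((N : ℝ) - 2) * u + 1) * (m ^ 2 - M ^ 2) < ((N : ℝ) - 1) ^ 2 * M ^ 2 := by
    have e0 : m' ^ 2 < M ^ 2 := pow_lt_pow_left₀ (by linarith) hm' (by norm_num)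
    have e2 : g / δ * (((N : ℝ) - 2) * u + 1) * (m ^ 2 - m' ^ 2) ≤
        ((N : ℝ) - 1) ^ 2 * m' ^ 2 := by
      have e3 : g / δ * (((N : ℝ) - 2) * u + 1) * (m ^ 2 - m' ^ 2) =
          (g * (((N : ℝ) - 2) * u + 1) * (m ^ 2 - m' ^ 2)) / δ := by
        field_simp
      rw [e3, div_le_iff₀ hδ]
      linarith
    have e4 := mul_le_mul_of_nonneg_left (sub_le_sub_left e0.le (m ^ 2)) hgK
    have e5 : ((N : ℝ) - 1) ^ 2 * m' ^ 2 < ((N : ℝ) - 1) ^ 2 * M ^ 2 := by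
      refine mul_lt_mul_of_pos_left e0 ?_
      have : 0 < (N : ℝ) - 1 := by linarith
      positivity
    linarith
  obtain ⟨s, hs, hsε, hs1, hs2⟩ := small_par g δ u v m M (ε / 4) N k1 k2 (by positivity)
  obtain ⟨ιs, hιs⟩ : ∃ ιs : ℝ, ιs = g / δ * (1 + s) * (((N : ℝ) - 2) * (u + s) + 1) := ⟨_, rfl⟩
  rw [← hιs] at hs1 hs2
  have hexp : Tendsto (fun β : ℝ => Real.exp (s * β)) atTop atTop :=
    Real.tendsto_exp_atTop.comp (tendsto_id.const_mul_atTop hs)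
  filter_upwards [h s hs, ev_fac (t + s) δ s (by linarith) hδ hs,
    ev_err C (t + δ + 2 * s) a (ε / 2) hC ha (by positivity), eventually_ge_atTop (1 : ℝ),
    hexp.eventually_ge_atTop 4] with β hP hfac herr hβ hexp4
  obtain ⟨f1, f2, f3, f4⟩ := hfac _ le_rfl
  have hβ0 : 0 ≤ β := by linarith
  obtain ⟨r, hr⟩ : ∃ r : ℝ, r = Real.exp ((t + s) * β) := ⟨_, rfl⟩
  rw [← hr] at f1 f2 f4 hP
  have hRle : 2 * r * (Real.exp (δ * β) + 1) ≤ Real.exp ((t + δ + 2 * s) * β) := by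
    have e1 : Real.exp ((t + δ + 2 * s) * β) = Real.exp (s * β) * (r * Real.exp (δ * β)) := by
      rw [hr, ← Real.exp_add, ← Real.exp_add]
      congr 1
      ring
    rw [e1]
    have e2 : (1 : ℝ) ≤ Real.exp (δ * β) := Real.one_le_exp (by linarith)
    have e3 : 0 < r := by linarith
    calc 2 * r * (Real.exp (δ * β) + 1) ≤ 2 * r * (2 * Real.exp (δ * β)) := by gcongr; linarith
      _ = 4 * (r * Real.exp (δ * β)) := by ring
      _ ≤ Real.exp (s * β) * (r * Real.exp (δ * β)) := by gcongr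
  have hR0 : 0 ≤ 2 * r * (Real.exp (δ * β) + 1) := by positivity
  have herr' := herr _ hR0 hRle
  have hιle : iot J N β r (δ * β) (β ^ 2) (u + s) ≤ ιs := by
    unfold iot
    rw [hιs]
    refine mul_le_mul_of_nonneg_right ?_ (by positivity)
    have e1 : β * sig J * ((1 + 32 * (β ^ 2 / r)) * (2 * Real.pi + 120 / (δ * β)) / (δ * β)) =
        sig J / δ * ((1 + 32 * (β ^ 2 / r)) * (2 * Real.pi + 120 / (δ * β))) := by
      have : β ≠ 0 := by positivity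
      field_simp
    rw [e1]
    have e2 : g / δ * (1 + s) = sig J / δ * (2 * Real.pi * (1 + s)) := by rw [hg]; ring
    rw [e2]
    exact mul_le_mul_of_nonneg_left f4 (by positivity)
  have hι0 : 0 ≤ iot J N β r (δ * β) (β ^ 2) (u + s) := by
    unfold iot
    have : 0 < r := by linarith
    positivity
  have hRε : 2 * r * (Real.exp (δ * β) + 1) ≤ Real.exp ((t + δ + ε) * β) := by
    refine hRle.trans (Real.exp_le_exp.2 ?_)
    exact mul_le_mul_of_nonneg_right (by linarith) hβ0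
  have key : ∀ (L : ℕ) [NeZero L], 2 * (2 * r * (Real.exp (δ * β) + 1)) < L →
      ∀ c : Tor L × Tor L → ℝ, Cls J β c → ∀ (p : Tor L) (η : Conf N L) (i : Fin N),
      gH (pS c) (ball p (2 * r * (Real.exp (δ * β) + 1))) η (fun S => cc i (S p) ^ 2) ≤ u' + ε ∧
      |gH (pS c) (ball p (2 * r * (Real.exp (δ * β) + 1))) η (fun S => cc i (S p))| ≤
        m' + ε := by
    intro L _ hL c hc p η i
    obtain ⟨U, α, hU0, hU, hα, hUe, hαe⟩ := hstep N hN β hβ0 r (δ * β) (β ^ 2) f2 f3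
      (sq_nonneg _) f1 (u + s) (m + s) (by linarith) (by linarith) hP.1 hP.2 L hL c hc p η i
    have b1 : U ≤ v := alg_u N U v (u + s) _ ιs hι0 hιle hNv (by linarith) hU hs1 hv0
    have b2 : |α| ≤ M := alg_m N hN α (m + s) M _ ιs hι0 hιle (by linarith) hα hs2
    constructor
    · have := (abs_le.1 (hUe.trans herr')).2
      linarith
    · have e1 := hαe.trans herr'
      have e2 : |gH (pS c) (ball p (2 * r * (Real.exp (δ * β) + 1))) η
          (fun S => cc i (S p))| ≤ |gH (pS c) (ball p (2 * r * (Real.exp (δ * β) + 1))) η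
          (fun S => cc i (S p)) - α| + |α| := by
        have := abs_add_le (gH (pS c) (ball p (2 * r * (Real.exp (δ * β) + 1))) η
          (fun S => cc i (S p)) - α) α
        rwa [sub_add_cancel] at this
      linarith
  constructor
  · refine UB_mono hN0 (r := 2 * r * (Real.exp (δ * β) + 1)) (u := u' + ε) ?_ hRε le_rfl
    exact fun L _ hL c hc p η i => (key L hL c hc p η i).1
  · refine MB_mono hN0 (r := 2 * r * (Real.exp (δ * β) + 1)) (m := m' + ε) ?_ hRε le_rfl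
    exact fun L _ hL c hc p η i => (key L hL c hc p η i).2

theorem pp_zero (J : ℤ × ℤ → ℝ) {N : ℕ} (hN : N ≠ 0) : PP J N 0 1 1 := by
  intro ε hε
  refine Eventually.of_forall fun β => ⟨?_, ?_⟩
  · exact UB_mono hN (UB_one J hN β _) le_rfl (by linarith)
  · exact MB_mono hN (MB_one J hN β _) le_rfl (by linarith)

/-- weakening -/
theorem pp_mono {J : ℤ × ℤ → ℝ} {N : ℕ} (hN : N ≠ 0) {t u m t' u' m' : ℝ} (h : PP J N t u m)
    (ht : t ≤ t') (hu : u ≤ u') (hm : m ≤ m') : PP J N t' u' m' := by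
  intro ε hε
  filter_upwards [h ε hε, eventually_ge_atTop (0 : ℝ)] with β hP hβ
  have hR : Real.exp ((t + ε) * β) ≤ Real.exp ((t' + ε) * β) :=
    Real.exp_le_exp.2 (mul_le_mul_of_nonneg_right (by linarith) hβ)
  exact ⟨UB_mono hN hP.1 hR (by linarith), MB_mono hN hP.2 hR (by linarith)⟩

/-- closure -/
theorem pp_closed {J : ℤ × ℤ → ℝ} {N : ℕ} (hN : N ≠ 0) {t u m : ℝ}
    (h : ∀ ε : ℝ, 0 < ε → ∃ t' m' : ℝ, t' ≤ t + ε ∧ m' ≤ m + ε ∧ PP J N t' u m') :
    PP J N t u m := by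
  intro ε hε
  obtain ⟨t', m', ht', hm', hP⟩ := h (ε / 2) (by positivity)
  filter_upwards [hP (ε / 2) (by positivity), eventually_ge_atTop (0 : ℝ)] with β h1 hβ
  have hR : Real.exp ((t' + ε / 2) * β) ≤ Real.exp ((t + ε) * β) :=
    Real.exp_le_exp.2 (mul_le_mul_of_nonneg_right (by linarith) hβ)
  exact ⟨UB_mono hN h1.1 hR (by linarith), MB_mono hN h1.2 hR (by linarith)⟩

end Pool.Agent.H12.OL
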