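import Pool.Agent.H12.OL.Lim

/-! # The flow at logarithmic scales -/

set_option autoImplicit false
set_option linter.unusedSectionVars false

noncomputable section

namespace Pool.Agent.H12.OL

open Pool.Agent.H5R2.ON Pool.Agent.H717R2.ON3 Pool.Agent.H983R2.ONJ
open Pool.Agent.H12.LN
open Filter

/-- the logarithmic scale (in units of `2 π σ β`) at which the isotropy defect is `w` -/
def XX (N : ℕ) (w : ℝ) : ℝ :=
  (((N : ℝ) - 2) * ((N : ℝ) - 1 - w) + (3 * (N : ℝ) - 4) * Real.log (((N : ℝ) - 1) / w) +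
    (2 * (N : ℝ) - 2) * (1 / w - 1 / ((N : ℝ) - 1))) / (N : ℝ) ^ 3

/-- the exponent of the decay at isotropy defect `w` -/
def HH (N : ℕ) (w : ℝ) : ℝ :=
  ((N : ℝ) - 1) ^ 2 / (N : ℝ) ^ 2 *
    (Real.log (((N : ℝ) - 1) / w) + (1 / w - 1 / ((N : ℝ) - 1)))

theorem XX_diff {N : ℕ} (hN : 2 ≤ N) {w w' : ℝ} (hw : 0 < w) (hw' : 0 < w') :
    XX N w' - XX N w = (((N : ℝ) - 2) * (w - w') + (3 * (N : ℝ) - 4) * Real.log (w / w') +
      (2 * (N : ℝ) - 2) * (1 / w' - 1 / w)) / (N : ℝ) ^ 3 := by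
  have hN' : (2 : ℝ) ≤ N := by exact_mod_cast hN
  have hW : (0 : ℝ) < (N : ℝ) - 1 := by linarith
  unfold XX
  rw [Real.log_div hW.ne' hw'.ne', Real.log_div hW.ne' hw.ne', Real.log_div hw.ne' hw'.ne']
  ring

theorem HH_diff {N : ℕ} (hN : 2 ≤ N) {w w' : ℝ} (hw : 0 < w) (hw' : 0 < w') :
    HH N w' - HH N w = ((N : ℝ) - 1) ^ 2 / (N : ℝ) ^ 2 *
      (Real.log (w / w') + (1 / w' - 1 / w)) := by
  have hN' : (2 : ℝ) ≤ N := by exact_mod_cast hN
  have hW : (0 : ℝ) < (N : ℝ) - 1 := by linarith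
  unfold HH
  rw [Real.log_div hW.ne' hw'.ne', Real.log_div hW.ne' hw.ne', Real.log_div hw.ne' hw'.ne']
  ring

theorem step_X {N : ℕ} (hN : 2 ≤ N) {w w' l : ℝ} (hw' : 0 < w') (hww : w' < w)
    (hl : w ≤ l * w') :
    (2 * (N : ℝ) - 2 + ((N : ℝ) - 2) * w) * ((1 + w') * (w - w')) ≤
      (N : ℝ) ^ 3 * (l ^ 2 * (XX N w' - XX N w) * w' ^ 2) := by
  have hN' : (2 : ℝ) ≤ N := by exact_mod_cast hN
  have hw : 0 < w := by linarith
  rw [XX_diff hN hw hw']
  obtain ⟨n, hn⟩ : ∃ n : ℝ, n = (N : ℝ) := ⟨_, rfl⟩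
  rw [← hn] at hN' ⊢
  have hlog : (w - w') / w ≤ Real.log (w / w') := by
    have h1 := Real.one_sub_inv_le_log_of_pos (show 0 < w / w' by positivity)
    rw [inv_div] at h1
    have h2 : (w - w') / w = 1 - w' / w := by
      field_simp
    rw [h2]
    exact h1
  have e0 : 1 / w' - 1 / w = (w - w') / (w * w') := by
    field_simp
  have hd : 0 < w - w' := by linarith
  have h1 : (w - w') * ((n - 2) + (3 * n - 4) / w + (2 * n - 2) / (w * w')) ≤
      (n - 2) * (w - w') + (3 * n - 4) * Real.log (w / w') + (2 * n - 2) * (1 / w' - 1 / w) := by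
    rw [e0]
    have e1 : (w - w') * ((n - 2) + (3 * n - 4) / w + (2 * n - 2) / (w * w')) =
        (n - 2) * (w - w') + (3 * n - 4) * ((w - w') / w) +
          (2 * n - 2) * ((w - w') / (w * w')) := by ring
    rw [e1]
    have := mul_le_mul_of_nonneg_left hlog (by linarith : 0 ≤ 3 * n - 4)
    linarith
  have hl2 : w ^ 2 ≤ (l * w') ^ 2 := pow_le_pow_left₀ hw.le hl 2
  have hl0 : 0 < l := by
    by_contra h0
    push Not at h0
    nlinarith
  have hn0 : n ≠ 0 := by positivity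
  have h2 : (2 * n - 2 + (n - 2) * w) * (1 + w') ≤
      (l * w') ^ 2 * ((n - 2) + (3 * n - 4) / w + (2 * n - 2) / (w * w')) := by
    have h3 : w ^ 2 * ((n - 2) + (3 * n - 4) / w + (2 * n - 2) / (w * w')) ≤
        (l * w') ^ 2 * ((n - 2) + (3 * n - 4) / w + (2 * n - 2) / (w * w')) := by
      refine mul_le_mul_of_nonneg_right hl2 ?_
      have a1 : 0 ≤ (3 * n - 4) / w := div_nonneg (by linarith) hw.le
      have a2 : 0 ≤ (2 * n - 2) / (w * w') := div_nonneg (by linarith) (by positivity)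
      linarith
    refine le_trans ?_ h3
    have e2 : w ^ 2 * ((n - 2) + (3 * n - 4) / w + (2 * n - 2) / (w * w')) =
        (n - 2) * w ^ 2 + (3 * n - 4) * w + (2 * n - 2) * (w / w') := by
      field_simp
    rw [e2]
    have h4 : 1 ≤ w / w' := by
      rw [one_le_div hw']
      exact hww.le
    have h5 : (2 * n - 2) * 1 ≤ (2 * n - 2) * (w / w') :=
      mul_le_mul_of_nonneg_left h4 (by linarith)
    have h6 : 0 ≤ (n - 2) * w * (w - w') := by
      have : 0 ≤ n - 2 := by linarith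
      positivity
    have h7 : 0 ≤ (2 * n - 2) * (w - w') := mul_nonneg (by linarith) hd.le
    nlinarith
  calc (2 * n - 2 + (n - 2) * w) * ((1 + w') * (w - w'))
      = (w - w') * ((2 * n - 2 + (n - 2) * w) * (1 + w')) := by ring
    _ ≤ (w - w') * ((l * w') ^ 2 * ((n - 2) + (3 * n - 4) / w + (2 * n - 2) / (w * w'))) :=
        mul_le_mul_of_nonneg_left h2 hd.le
    _ = (l * w') ^ 2 * ((w - w') * ((n - 2) + (3 * n - 4) / w + (2 * n - 2) / (w * w'))) := by
        ring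
    _ ≤ (l * w') ^ 2 * ((n - 2) * (w - w') + (3 * n - 4) * Real.log (w / w') +
          (2 * n - 2) * (1 / w' - 1 / w)) := mul_le_mul_of_nonneg_left h1 (sq_nonneg _)
    _ = _ := by
        field_simp

theorem step_H {N : ℕ} (hN : 2 ≤ N) {w w' l θ κ : ℝ} (hw' : 0 < w') (hww : w' < w)
    (hl : w ≤ l * w') (hκ : (l - 1) * (1 + 1 / w') ≤ κ) (hθ : θ = 1 / (1 + κ)) :
    Real.exp (θ * (HH N w' - HH N w)) - 1 ≤
      ((N : ℝ) - 1) ^ 2 / (N : ℝ) ^ 2 * ((w - w') * (1 + w') / w' ^ 2) := by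
  have hN' : (2 : ℝ) ≤ N := by exact_mod_cast hN
  have hw : 0 < w := by linarith
  obtain ⟨k, hk⟩ : ∃ k : ℝ, k = ((N : ℝ) - 1) ^ 2 / (N : ℝ) ^ 2 *
    ((w - w') * (1 + w') / w' ^ 2) := ⟨_, rfl⟩
  rw [← hk]
  have hd : 0 < w - w' := by linarith
  have hN1 : (0 : ℝ) < (N : ℝ) - 1 := by linarith
  have hN0 : (0 : ℝ) < N := by linarith
  have hk0 : 0 < k := by rw [hk]; positivity
  have hh : HH N w' - HH N w ≤ k := by
    rw [HH_diff hN hw hw', hk]
    refine mul_le_mul_of_nonneg_left ?_ (by positivity)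
    have h1 : Real.log (w / w') ≤ w / w' - 1 := Real.log_le_sub_one_of_pos (by positivity)
    have h2 : 1 / w' - 1 / w ≤ (w - w') / w' ^ 2 := by
      have e0 : 1 / w' - 1 / w = (w - w') / (w * w') := by
        field_simp
      rw [e0]
      refine div_le_div_of_nonneg_left hd.le (by positivity) ?_
      nlinarith
    have e1 : (w - w') * (1 + w') / w' ^ 2 = (w / w' - 1) + (w - w') / w' ^ 2 := by
      field_simp
      ring
    rw [e1]
    linarith
  have hkκ : k ≤ κ := by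
    refine le_trans ?_ hκ
    rw [hk]
    have h1 : ((N : ℝ) - 1) ^ 2 / (N : ℝ) ^ 2 ≤ 1 := by
      rw [div_le_one (by positivity)]
      nlinarith
    have h2 : (w - w') / w' ≤ l - 1 := by
      rw [div_le_iff₀ hw']
      linarith
    have h3 : (w - w') * (1 + w') / w' ^ 2 = (w - w') / w' * (1 + 1 / w') := by
      field_simp
      ring
    have h4 : 0 ≤ (w - w') * (1 + w') / w' ^ 2 := by positivity
    calc _ ≤ 1 * ((w - w') * (1 + w') / w' ^ 2) := mul_le_mul_of_nonneg_right h1 h4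
      _ = (w - w') / w' * (1 + 1 / w') := by rw [one_mul, h3]
      _ ≤ (l - 1) * (1 + 1 / w') := mul_le_mul_of_nonneg_right h2 (by positivity)
  have hθ0 : 0 ≤ θ := by rw [hθ]; exact div_nonneg zero_le_one (by linarith)
  have h1 : θ * (HH N w' - HH N w) ≤ Real.log (1 + k) := by
    have h2 : θ * (HH N w' - HH N w) ≤ θ * k := mul_le_mul_of_nonneg_left hh hθ0
    have h3 : θ ≤ 1 / (1 + k) := by
      rw [hθ]
      exact one_div_le_one_div_of_le (by linarith) (by linarith)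
    have h4 : θ * k ≤ 1 / (1 + k) * k := mul_le_mul_of_nonneg_right h3 hk0.le
    have h5 := Real.one_sub_inv_le_log_of_pos (show 0 < 1 + k by linarith)
    have h6 : 1 / (1 + k) * k = 1 - (1 + k)⁻¹ := by
      field_simp
      ring
    linarith
  have h2 := Real.exp_le_exp.2 h1
  rw [Real.exp_log (by linarith)] at h2
  linarith

theorem XX_anti {N : ℕ} (hN : 2 ≤ N) {w w' : ℝ} (hw' : 0 < w') (hww : w' < w) :
    XX N w < XX N w' := by
  have hN' : (2 : ℝ) ≤ N := by exact_mod_cast hN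
  have hw : 0 < w := by linarith
  have h := XX_diff hN hw hw'
  have h1 : 0 ≤ Real.log (w / w') := Real.log_nonneg (by
    rw [one_le_div hw']
    exact hww.le)
  have h2 : 0 < 1 / w' - 1 / w := by
    rw [sub_pos]
    exact one_div_lt_one_div_of_lt hw' hww
  have h3 : 0 < (((N : ℝ) - 2) * (w - w') + (3 * (N : ℝ) - 4) * Real.log (w / w') +
      (2 * (N : ℝ) - 2) * (1 / w' - 1 / w)) / (N : ℝ) ^ 3 := by
    refine div_pos ?_ (by positivity)
    have a1 : 0 ≤ ((N : ℝ) - 2) * (w - w') := mul_nonneg (by linarith) (by linarith)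
    have a2 : 0 ≤ (3 * (N : ℝ) - 4) * Real.log (w / w') := mul_nonneg (by linarith) h1
    have a3 : 0 < (2 * (N : ℝ) - 2) * (1 / w' - 1 / w) := mul_pos (by linarith) h2
    linarith
  linarith

/-- one step in the variable `w` -/
theorem pp_w {J : ℤ × ℤ → ℝ} (hJ : Admissible J) {N : ℕ} (hN : 2 ≤ N) {G t w w' l θ κ : ℝ}
    (hG : 2 * Real.pi * sig J ≤ G) (hG0 : 0 < G) (ht : 0 ≤ t)
    (hw' : 0 < w') (hww : w' < w) (hl : w ≤ l * w') (hl2 : l ≤ 2)
    (hκ : (l - 1) * (1 + 1 / w') ≤ κ) (hθ : θ = 1 / (1 + κ))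
    (h : PP J N t ((1 + w) / N) (Real.exp (-(θ * HH N w) / 2))) :
    PP J N (t + G * (l ^ 2 * (XX N w' - XX N w))) ((1 + w') / N)
      (Real.exp (-(θ * HH N w') / 2)) := by
  have hN' : (2 : ℝ) ≤ N := by exact_mod_cast hN
  have hN0 : (0 : ℝ) < N := by linarith
  have hw : 0 < w := by linarith
  have hl0 : 0 < l := by
    by_contra h0
    push Not at h0
    nlinarith
  have hX := XX_anti hN hw' hww
  have hX' : 0 < XX N w' - XX N w := by linarith
  have hSX := step_X hN hw' hww hl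
  have hSH := step_H hN hw' hww hl hκ hθ
  have hg0 : 0 ≤ 2 * Real.pi * sig J := by
    have := sig_nonneg hJ
    positivity
  have e1 : ((N : ℝ) - 2) * ((1 + w) / N) + 1 = (2 * (N : ℝ) - 2 + ((N : ℝ) - 2) * w) / N := by
    field_simp
    ring
  have e2 : (N : ℝ) * ((1 + w') / N) = 1 + w' := by
    field_simp
  have hD0 : 0 ≤ 2 * (N : ℝ) - 2 + ((N : ℝ) - 2) * w := by
    have : 0 ≤ (N : ℝ) - 2 := by linarith
    have := mul_nonneg this hw.le
    linarith
  refine pp_step hJ hN ht (by positivity) (Real.exp_pos _).le (by positivity) ?_ ?_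
    (Real.exp_pos _).le ?_ ?_ h
  · rw [← mul_div_assoc]
    refine div_le_div_of_nonneg_right ?_ hN0.le
    nlinarith
  · rw [e2]
    linarith
  · rw [e1, e2]
    have e3 : 1 + w' - 1 = w' := by ring
    rw [e3]
    have e4 : (2 * (N : ℝ) - 2 + ((N : ℝ) - 2) * w) / N *
        ((1 + w') / N * ((1 + w) / N - (1 + w') / N)) =
        ((2 * (N : ℝ) - 2 + ((N : ℝ) - 2) * w) * ((1 + w') * (w - w'))) / (N : ℝ) ^ 3 := by
      field_simp
      ring
    have e5 : ((2 * (N : ℝ) - 2 + ((N : ℝ) - 2) * w) * ((1 + w') * (w - w'))) / (N : ℝ) ^ 3 ≤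
        l ^ 2 * (XX N w' - XX N w) * w' ^ 2 := by
      rw [div_le_iff₀ (by positivity)]
      linarith
    calc 2 * Real.pi * sig J * ((2 * (N : ℝ) - 2 + ((N : ℝ) - 2) * w) / N) *
          ((1 + w') / N * ((1 + w) / N - (1 + w') / N))
        = 2 * Real.pi * sig J * (((2 * (N : ℝ) - 2 + ((N : ℝ) - 2) * w) *
          ((1 + w') * (w - w'))) / (N : ℝ) ^ 3) := by rw [← e4]; ring
      _ ≤ G * (((2 * (N : ℝ) - 2 + ((N : ℝ) - 2) * w) *
          ((1 + w') * (w - w'))) / (N : ℝ) ^ 3) := by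
          refine mul_le_mul_of_nonneg_right hG ?_
          refine div_nonneg (mul_nonneg hD0 ?_) (by positivity)
          exact mul_nonneg (by linarith) (by linarith)
      _ ≤ G * (l ^ 2 * (XX N w' - XX N w) * w' ^ 2) := mul_le_mul_of_nonneg_left e5 hG0.le
      _ = _ := by ring
  · rw [e1]
    have m1 : ∀ s : ℝ, Real.exp (-(θ * HH N s) / 2) ^ 2 = Real.exp (-(θ * HH N s)) := by
      intro s
      rw [← Real.exp_nat_mul]
      congr 1
      push_cast
      ring
    rw [m1, m1]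
    have e6 : Real.exp (-(θ * HH N w)) - Real.exp (-(θ * HH N w')) =
        Real.exp (-(θ * HH N w')) * (Real.exp (θ * (HH N w' - HH N w)) - 1) := by
      rw [mul_sub, ← Real.exp_add, mul_one]
      congr 2
      ring
    rw [e6]
    have hE := Real.exp_pos (-(θ * HH N w'))
    have e7 : (2 * (N : ℝ) - 2 + ((N : ℝ) - 2) * w) / N *
        (((N : ℝ) - 1) ^ 2 / (N : ℝ) ^ 2 * ((w - w') * (1 + w') / w' ^ 2)) ≤
        l ^ 2 * (XX N w' - XX N w) * ((N : ℝ) - 1) ^ 2 := by
      have e8 : (2 * (N : ℝ) - 2 + ((N : ℝ) - 2) * w) / N *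
        (((N : ℝ) - 1) ^ 2 / (N : ℝ) ^ 2 * ((w - w') * (1 + w') / w' ^ 2)) =
        ((N : ℝ) - 1) ^ 2 * ((2 * (N : ℝ) - 2 + ((N : ℝ) - 2) * w) * ((1 + w') * (w - w'))) /
          ((N : ℝ) ^ 3 * w' ^ 2) := by
        field_simp
      rw [e8, div_le_iff₀ (by positivity)]
      calc ((N : ℝ) - 1) ^ 2 * ((2 * (N : ℝ) - 2 + ((N : ℝ) - 2) * w) * ((1 + w') * (w - w')))
          ≤ ((N : ℝ) - 1) ^ 2 * ((N : ℝ) ^ 3 * (l ^ 2 * (XX N w' - XX N w) * w' ^ 2)) :=
            mul_le_mul_of_nonneg_left hSX (sq_nonneg _)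
        _ = _ := by ring
    have hD1 : 0 ≤ (2 * (N : ℝ) - 2 + ((N : ℝ) - 2) * w) / N := by positivity
    have h8 : (2 * (N : ℝ) - 2 + ((N : ℝ) - 2) * w) / N *
        (Real.exp (θ * (HH N w' - HH N w)) - 1) ≤
        l ^ 2 * (XX N w' - XX N w) * ((N : ℝ) - 1) ^ 2 :=
      (mul_le_mul_of_nonneg_left hSH hD1).trans e7
    have h9 : 0 ≤ l ^ 2 * (XX N w' - XX N w) * ((N : ℝ) - 1) ^ 2 := by positivity
    calc 2 * Real.pi * sig J * ((2 * (N : ℝ) - 2 + ((N : ℝ) - 2) * w) / N) *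
          (Real.exp (-(θ * HH N w')) * (Real.exp (θ * (HH N w' - HH N w)) - 1))
        = 2 * Real.pi * sig J * Real.exp (-(θ * HH N w')) *
          ((2 * (N : ℝ) - 2 + ((N : ℝ) - 2) * w) / N *
            (Real.exp (θ * (HH N w' - HH N w)) - 1)) := by ring
      _ ≤ 2 * Real.pi * sig J * Real.exp (-(θ * HH N w')) *
          (l ^ 2 * (XX N w' - XX N w) * ((N : ℝ) - 1) ^ 2) :=
          mul_le_mul_of_nonneg_left h8 (by positivity)
      _ ≤ G * Real.exp (-(θ * HH N w')) *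
          (l ^ 2 * (XX N w' - XX N w) * ((N : ℝ) - 1) ^ 2) := by gcongr
      _ = _ := by ring

/-- the iteration -/
theorem pp_iter {J : ℤ × ℤ → ℝ} (hJ : Admissible J) {N : ℕ} (hN : 2 ≤ N) {G s θ κ : ℝ} {n : ℕ}
    (hG : 2 * Real.pi * sig J ≤ G) (hG0 : 0 < G) (hs : 0 < s) (hn : 0 < n)
    (hl2 : Real.exp (s / n) ≤ 2)
    (hκ : (Real.exp (s / n) - 1) * (1 + 1 / (((N : ℝ) - 1) * Real.exp (-s))) ≤ κ)
    (hθ : θ = 1 / (1 + κ)) : ∀ i : ℕ, i ≤ n →
    PP J N (G * (Real.exp (s / n) ^ 2 * XX N (((N : ℝ) - 1) * Real.exp (-(i * (s / n))))))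
      ((1 + ((N : ℝ) - 1) * Real.exp (-(i * (s / n)))) / N)
      (Real.exp (-(θ * HH N (((N : ℝ) - 1) * Real.exp (-(i * (s / n))))) / 2)) := by
  have hN' : (2 : ℝ) ≤ N := by exact_mod_cast hN
  have hN0 : (N : ℝ) ≠ 0 := by positivity
  have hW : (0 : ℝ) < (N : ℝ) - 1 := by linarith
  have hnpos : (0 : ℝ) < n := by exact_mod_cast hn
  have hsn : 0 < s / n := by positivity
  have hXtop : XX N ((N : ℝ) - 1) = 0 := by
    unfold XX
    rw [div_self hW.ne', Real.log_one]
    ring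
  have hHtop : HH N ((N : ℝ) - 1) = 0 := by
    unfold HH
    rw [div_self hW.ne', Real.log_one]
    ring
  intro i
  induction i with
  | zero =>
    intro _
    have e1 : ((N : ℝ) - 1) * Real.exp (-(((0 : ℕ) : ℝ) * (s / n))) = (N : ℝ) - 1 := by
      simp
    rw [e1, hXtop, hHtop]
    have e2 : (1 + ((N : ℝ) - 1)) / N = 1 := by
      rw [add_sub_cancel, div_self hN0]
    rw [e2, mul_zero, mul_zero, mul_zero, neg_zero, zero_div, Real.exp_zero]
    exact pp_zero J (by omega)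
  | succ i ih =>
    intro hi
    have h0 := ih (by omega)
    obtain ⟨w, hw⟩ : ∃ w : ℝ, w = ((N : ℝ) - 1) * Real.exp (-(i * (s / n))) := ⟨_, rfl⟩
    obtain ⟨w', hw'⟩ : ∃ w' : ℝ, w' = ((N : ℝ) - 1) * Real.exp (-(((i + 1 : ℕ) : ℝ) * (s / n))) :=
      ⟨_, rfl⟩
    rw [← hw] at h0
    rw [← hw']
    have hw'0 : 0 < w' := by rw [hw']; positivity
    have hlw : w = Real.exp (s / n) * w' := by
      rw [hw, hw', mul_left_comm, ← Real.exp_add]
      congr 2
      push_cast
      ring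
    have hww : w' < w := by
      rw [hlw]
      have : 1 < Real.exp (s / n) := Real.one_lt_exp_iff.2 hsn
      nlinarith
    have hwe : ((N : ℝ) - 1) * Real.exp (-s) ≤ w' := by
      rw [hw']
      refine mul_le_mul_of_nonneg_left (Real.exp_le_exp.2 (neg_le_neg ?_)) hW.le
      have h1 : ((i + 1 : ℕ) : ℝ) ≤ n := by exact_mod_cast hi
      calc ((i + 1 : ℕ) : ℝ) * (s / n) ≤ n * (s / n) := mul_le_mul_of_nonneg_right h1 hsn.le
        _ = s := by field_simp
    have hκ' : (Real.exp (s / n) - 1) * (1 + 1 / w') ≤ κ := by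
      refine le_trans ?_ hκ
      have h1 : 1 / w' ≤ 1 / (((N : ℝ) - 1) * Real.exp (-s)) :=
        one_div_le_one_div_of_le (by positivity) hwe
      have h2 : 0 ≤ Real.exp (s / n) - 1 := by
        have := Real.one_le_exp hsn.le
        linarith
      exact mul_le_mul_of_nonneg_left (by linarith) h2
    have hwW : w ≤ (N : ℝ) - 1 := by
      rw [hw]
      refine mul_le_of_le_one_right hW.le ?_
      rw [Real.exp_le_one_iff]
      have : 0 ≤ (i : ℝ) * (s / n) := by positivity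
      linarith
    have hX0 : 0 ≤ XX N w := by
      rcases hwW.eq_or_lt with h | h
      · rw [h, hXtop]
      · rw [← hXtop]
        exact (XX_anti hN (by linarith) h).le
    have h1 := pp_w hJ hN (l := Real.exp (s / n)) hG hG0
      (by positivity : 0 ≤ G * (Real.exp (s / n) ^ 2 * XX N w)) hw'0 hww hlw.le hl2 hκ' hθ h0
    refine pp_mono (by omega) h1 (le_of_eq ?_) le_rfl le_rfl
    ring

/-- the flow -/
theorem pp_flow {J : ℤ × ℤ → ℝ} (hJ : Admissible J) {N : ℕ} (hN : 2 ≤ N) {w : ℝ}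
    (hw0 : 0 < w) (hwW : w ≤ (N : ℝ) - 1) :
    PP J N (2 * Real.pi * sig J * XX N w) ((1 + w) / N) (Real.exp (-(HH N w) / 2)) := by
  have hN' : (2 : ℝ) ≤ N := by exact_mod_cast hN
  have hW : (0 : ℝ) < (N : ℝ) - 1 := by linarith
  rcases hwW.eq_or_lt with hEq | hlt
  · have hXtop : XX N ((N : ℝ) - 1) = 0 := by
      unfold XX
      rw [div_self hW.ne', Real.log_one]
      ring
    have hHtop : HH N ((N : ℝ) - 1) = 0 := by
      unfold HH
      rw [div_self hW.ne', Real.log_one]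
      ring
    rw [hEq, hXtop, hHtop, mul_zero, neg_zero, zero_div, Real.exp_zero]
    have e2 : (1 + ((N : ℝ) - 1)) / N = 1 := by
      rw [add_sub_cancel, div_self (by positivity)]
    rw [e2]
    exact pp_zero J (by omega)
  · obtain ⟨s, hs⟩ : ∃ s : ℝ, s = Real.log (((N : ℝ) - 1) / w) := ⟨_, rfl⟩
    have hs0 : 0 < s := by
      rw [hs]
      refine Real.log_pos ?_
      rw [one_lt_div hw0]
      exact hlt
    have hwe : ((N : ℝ) - 1) * Real.exp (-s) = w := by
      rw [hs, Real.exp_neg, Real.exp_log (by positivity), inv_div]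
      field_simp
    refine pp_closed (by omega) fun ε hε => ?_
    have c1 : Continuous fun x : ℝ => (2 * Real.pi * sig J + x) *
        (Real.exp (s * x) ^ 2 * XX N w) := by fun_prop
    have c2 : ContinuousAt (fun x : ℝ => Real.exp (-(1 / (1 + (Real.exp (s * x) - 1) *
        (1 + 1 / w)) * HH N w) / 2)) 0 := by
      refine ContinuousAt.rexp ?_
      refine ContinuousAt.div_const (ContinuousAt.neg (ContinuousAt.mul_const ?_ _)) _
      refine ContinuousAt.div continuousAt_const (by fun_prop) ?_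
      simp
    have c3 : Continuous fun x : ℝ => Real.exp (s * x) := by fun_prop
    have t1 := (c1.tendsto 0)
    have t2 := c2.tendsto
    have t3 := c3.tendsto 0
    simp only [mul_zero, Real.exp_zero, add_zero, one_pow, one_mul, sub_self, zero_mul,
      div_one] at t1 t2 t3
    have hseq : Tendsto (fun n : ℕ => 1 / (n : ℝ)) atTop (nhds 0) :=
      tendsto_one_div_atTop_nhds_zero_nat
    have u1 := (t1.comp hseq).eventually_le_const
      (show 2 * Real.pi * sig J * XX N w < 2 * Real.pi * sig J * XX N w + ε by linarith)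
    have u2 := (t2.comp hseq).eventually_le_const
      (show Real.exp (-(HH N w) / 2) < Real.exp (-(HH N w) / 2) + ε by linarith)
    have u3 := (t3.comp hseq).eventually_le_const (show (1 : ℝ) < 2 by norm_num)
    obtain ⟨n, ⟨k1, k2, k3⟩, hn⟩ := ((u1.and (u2.and u3)).and (eventually_gt_atTop 0)).exists
    simp only [Function.comp] at k1 k2 k3
    have hnpos : (0 : ℝ) < n := by exact_mod_cast hn
    have e1 : s * (1 / (n : ℝ)) = s / n := by ring
    rw [e1] at k1 k2 k3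
    have hg0 : 0 ≤ 2 * Real.pi * sig J := by
      have := sig_nonneg hJ
      have := Real.pi_pos
      positivity
    have h1n : (0 : ℝ) < 1 / n := by positivity
    have h := pp_iter hJ hN (G := 2 * Real.pi * sig J + 1 / n) (s := s) (n := n)
      (κ := (Real.exp (s / n) - 1) * (1 + 1 / (((N : ℝ) - 1) * Real.exp (-s)))) (by linarith)
      (by linarith) hs0 hn k3 le_rfl rfl n le_rfl
    have e2 : (n : ℝ) * (s / n) = s := by field_simp
    rw [e2, hwe] at h
    exact ⟨_, _, k1, k2, h⟩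

end Pool.Agent.H12.OL
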