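import Pool.Agent.H12.OL.One

/-! # The power law -/

set_option autoImplicit false
set_option linter.unusedSectionVars false

noncomputable section

namespace Pool.Agent.H12.OL

open MeasureTheory Pool.Agent.H5R2.ON Pool.Agent.H717R2.ON3 Pool.Agent.H983R2.ONJ
open Pool.Agent.Q218.ON (EN ax)
open Pool.Agent.H12.LN
open Filter
open Pool.Agent.Y13.QM (corS corS_nonneg corS_le_one)
open Pool.Agent.Results.MP_8be4c0_mp.MassLowerBound (cJ)

/-- the errors -/
theorem err_r (C a : ℝ) (hC : 0 < C) (ha : 0 < a) : ∃ r1 : ℝ, 1 ≤ r1 ∧ ∀ r : ℝ, r1 ≤ r →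
    Real.exp (C * r ^ 5 * Real.exp (-a * Real.sqrt r)) - 1 ≤ 1 / (4 * r) := by
  have h1 : Tendsto (fun y : ℝ => 8 * C * (y ^ 12 / Real.exp (a * y))) atTop (nhds 0) := by
    have := (tend_pow_exp a ha 12).const_mul (8 * C)
    rwa [mul_zero] at this
  have h2 : Tendsto Real.sqrt atTop atTop := Real.tendsto_sqrt_atTop
  have h3 := (h1.comp h2).eventually_le_const (show (0 : ℝ) < 1 by norm_num)
  obtain ⟨r0, hr0⟩ := Filter.eventually_atTop.1 h3
  refine ⟨max 1 r0, le_max_left _ _, ?_⟩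
  intro r hr
  have hr1 : 1 ≤ r := (le_max_left _ _).trans hr
  have hr2 := hr0 r ((le_max_right _ _).trans hr)
  simp only [Function.comp] at hr2
  have hrpos : 0 < r := by linarith
  have e1 : Real.sqrt r ^ 12 = r ^ 6 := by
    have : Real.sqrt r ^ 12 = (Real.sqrt r ^ 2) ^ 6 := by ring
    rw [this, Real.sq_sqrt hrpos.le]
  rw [e1] at hr2
  obtain ⟨z, hz⟩ : ∃ z : ℝ, z = C * r ^ 5 * Real.exp (-a * Real.sqrt r) := ⟨_, rfl⟩
  have hz0 : 0 ≤ z := by rw [hz]; positivity
  have hz1 : 8 * r * z ≤ 1 := by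
    rw [hz]
    refine le_trans (le_of_eq ?_) hr2
    rw [neg_mul, Real.exp_neg]
    field_simp
  rw [← hz]
  have hzle : z ≤ 1 := by nlinarith
  have h4 : Real.exp z - 1 ≤ 2 * z := by
    have h5 := Real.abs_exp_sub_one_le (x := z) (by rw [abs_of_nonneg hz0]; exact hzle)
    rw [abs_of_nonneg hz0] at h5
    exact (le_abs_self _).trans h5
  refine h4.trans ?_
  rw [le_div_iff₀ (by positivity)]
  linarith

/-- a step for the first moments at scales where the second moments are almost isotropic -/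
theorem vec_step {J : ℤ × ℤ → ℝ} (hJ : Admissible J) {N : ℕ} (hN : 2 ≤ N) {u s T Λ : ℝ}
    (hu : 0 < u) (hs : 0 < s) (hs2 : s ≤ 1 / 2) (hT : 1 ≤ T) (hΛ : 0 < Λ)
    (hΛ' : Λ * (2 * Real.pi * sig J * (1 + s) * (((N : ℝ) - 2) * u + 1)) ≤
      s * ((N : ℝ) - 1) ^ 2) :
    ∀ᶠ β : ℝ in atTop, ∀ r m : ℝ, Real.exp (T * β) ≤ r → 0 ≤ m → UB J N β r u → MB J N β r m →
      MB J N β (r * (2 * (Real.exp (s * β) + 1))) (m / Real.sqrt (1 + Λ) + 1 / (4 * r)) := by
  obtain ⟨C, a, hC, ha, hstep⟩ := fstep hJ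
  obtain ⟨r1, hr1, herr⟩ := err_r C (a / 6) hC (by positivity)
  have hπ := Real.pi_pos
  have hsig := sig_nonneg hJ
  have hN' : (2 : ℝ) ≤ N := by exact_mod_cast hN
  have hfac : Tendsto (fun β : ℝ => (1 + 32 * (1 / (6 * Real.sqrt (Real.exp β)))) *
      (2 * Real.pi + 120 / (s * β))) atTop (nhds ((1 + 32 * 0) * (2 * Real.pi + 0))) := by
    have h2 : Tendsto (fun β : ℝ => 120 / (s * β)) atTop (nhds 0) :=
      Tendsto.div_atTop tendsto_const_nhds (tendsto_id.const_mul_atTop hs)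
    have h3 : Tendsto (fun β : ℝ => 1 / (6 * Real.sqrt (Real.exp β))) atTop (nhds 0) :=
      Tendsto.div_atTop tendsto_const_nhds
        ((Real.tendsto_sqrt_atTop.comp Real.tendsto_exp_atTop).const_mul_atTop (by norm_num))
    exact ((h3.const_mul 32).const_add 1).mul (h2.const_add _)
  have h4 : (1 + 32 * 0) * (2 * Real.pi + 0) < 2 * Real.pi * (1 + s) := by
    nlinarith [mul_pos hπ hs]
  filter_upwards [hfac.eventually_le_const h4, eventually_ge_atTop (3 : ℝ),
    eventually_ge_atTop (1 / s), Real.tendsto_exp_atTop.eventually_ge_atTop r1] with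
    β hf hβ3 hβs hexp1
  intro r m hr hm hU hM
  have hβ0 : 0 < β := by linarith
  have hr' : Real.exp β ≤ r := by
    refine le_trans (Real.exp_le_exp.2 ?_) hr
    nlinarith
  have hβexp : β + 1 ≤ Real.exp β := Real.add_one_le_exp β
  have hr4 : 4 ≤ r := by linarith
  have hrpos : 0 < r := by linarith
  have hq1 : 1 ≤ s * β := by
    rw [div_le_iff₀ hs] at hβs
    linarith
  obtain ⟨q, hq⟩ : ∃ q : ℝ, q = s * β := ⟨_, rfl⟩
  rw [← hq] at hf hq1 ⊢
  have hsq : 1 ≤ Real.sqrt r := by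
    rw [Real.one_le_sqrt]
    linarith
  have hsqr : Real.sqrt r * Real.sqrt r = r := Real.mul_self_sqrt hrpos.le
  have hρ : 6 * (Real.sqrt r / 6) ≤ r := by nlinarith
  have hMle : 2 * (Real.exp q + 1) ≤ r := by
    have e1 : (1 : ℝ) ≤ Real.exp q := Real.one_le_exp (by linarith)
    have e2 : Real.exp q ≤ Real.exp (β / 2) := by
      refine Real.exp_le_exp.2 ?_
      rw [hq]
      nlinarith
    have e3 : Real.exp (β / 2) * Real.exp (β / 2) = Real.exp β := by
      rw [← Real.exp_add]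
      congr 1
      ring
    have e4 : (4 : ℝ) ≤ Real.exp (β / 2) := by
      have h5 : Real.exp (3 / 2) ≤ Real.exp (β / 2) := Real.exp_le_exp.2 (by linarith)
      have h6 : (4 : ℝ) ≤ Real.exp (3 / 2) := by
        have h7 : (1 + 1 / 2 + (1 / 2) ^ 2 / 2 : ℝ) ≤ Real.exp (1 / 2) :=
          Real.quadratic_le_exp_of_nonneg (by norm_num)
        have h8 : Real.exp (3 / 2) = Real.exp (1 / 2) ^ 3 := by
          rw [← Real.exp_nat_mul]
          norm_num
        rw [h8]
        have h9 : ((13 : ℝ) / 8) ^ 3 ≤ Real.exp (1 / 2) ^ 3 := by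
          refine pow_le_pow_left₀ (by norm_num) ?_ 3
          linarith
        have h10 : (4 : ℝ) ≤ (13 / 8) ^ 3 := by norm_num
        linarith
      linarith
    have e5 : 4 * Real.exp (β / 2) ≤ Real.exp (β / 2) * Real.exp (β / 2) :=
      mul_le_mul_of_nonneg_right e4 (Real.exp_pos _).le
    linarith
  have hιle : Λ * iot J N β r q (Real.sqrt r / 6) u ≤ ((N : ℝ) - 1) ^ 2 := by
    have hK : 0 ≤ ((N : ℝ) - 2) * u + 1 := by
      have : 0 ≤ (N : ℝ) - 2 := by linarith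
      positivity
    have e1 : (1 + 32 * (Real.sqrt r / 6 / r)) * (2 * Real.pi + 120 / q) ≤
        2 * Real.pi * (1 + s) := by
      refine le_trans (mul_le_mul_of_nonneg_right ?_ (by positivity)) hf
      have e2 : Real.sqrt r / 6 / r = 1 / (6 * Real.sqrt r) := by
        rw [div_div, div_eq_div_iff (by positivity) (by positivity)]
        nlinarith
      rw [e2]
      have e3 : 1 / (6 * Real.sqrt r) ≤ 1 / (6 * Real.sqrt (Real.exp β)) := by
        refine one_div_le_one_div_of_le (by positivity) ?_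
        have := Real.sqrt_le_sqrt hr'
        linarith
      linarith
    have e4 : iot J N β r q (Real.sqrt r / 6) u =
        sig J * ((1 + 32 * (Real.sqrt r / 6 / r)) * (2 * Real.pi + 120 / q)) *
          (((N : ℝ) - 2) * u + 1) / s := by
      unfold iot
      rw [hq]
      field_simp
    rw [e4, ← mul_div_assoc, div_le_iff₀ hs]
    calc Λ * (sig J * ((1 + 32 * (Real.sqrt r / 6 / r)) * (2 * Real.pi + 120 / q)) *
          (((N : ℝ) - 2) * u + 1))
        ≤ Λ * (sig J * (2 * Real.pi * (1 + s)) * (((N : ℝ) - 2) * u + 1)) := by gcongr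
      _ = Λ * (2 * Real.pi * sig J * (1 + s) * (((N : ℝ) - 2) * u + 1)) := by ring
      _ ≤ s * ((N : ℝ) - 1) ^ 2 := hΛ'
      _ = ((N : ℝ) - 1) ^ 2 * s := by ring
  have hN1 : 0 < ((N : ℝ) - 1) ^ 2 := by
    have : 0 < (N : ℝ) - 1 := by linarith
    positivity
  have hR : r * (2 * (Real.exp q + 1)) = 2 * r * (Real.exp q + 1) := by ring
  rw [hR]
  intro L _ hL c hc p η i
  obtain ⟨U, α, hU0, hUU, hα, hUe, hαe⟩ := hstep N hN β hβ0.le r q (Real.sqrt r / 6) (by linarith)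
    hq1 (by positivity) hρ u m hu hm hU hM L hL c hc p η i
  have hι0 : 0 ≤ iot J N β r q (Real.sqrt r / 6) u := by
    unfold iot
    have : 0 ≤ (N : ℝ) - 2 := by linarith
    positivity
  have hα2 : (1 + Λ) * α ^ 2 ≤ m ^ 2 := by
    have e0 : 0 ≤ m ^ 2 - α ^ 2 ∨ m ^ 2 - α ^ 2 < 0 := le_or_gt 0 _
    rcases e0 with e0 | e0
    · have e1 : Λ * (((N : ℝ) - 1) ^ 2 * α ^ 2) ≤ ((N : ℝ) - 1) ^ 2 * (m ^ 2 - α ^ 2) := by
        calc Λ * (((N : ℝ) - 1) ^ 2 * α ^ 2)
            ≤ Λ * (iot J N β r q (Real.sqrt r / 6) u * (m ^ 2 - α ^ 2)) :=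
              mul_le_mul_of_nonneg_left hα hΛ.le
          _ = (Λ * iot J N β r q (Real.sqrt r / 6) u) * (m ^ 2 - α ^ 2) := by ring
          _ ≤ ((N : ℝ) - 1) ^ 2 * (m ^ 2 - α ^ 2) := mul_le_mul_of_nonneg_right hιle e0
      have e2 : ((N : ℝ) - 1) ^ 2 * (Λ * α ^ 2) ≤ ((N : ℝ) - 1) ^ 2 * (m ^ 2 - α ^ 2) := by
        linarith
      have e3 := le_of_mul_le_mul_left e2 hN1
      linarith
    · have e1 : iot J N β r q (Real.sqrt r / 6) u * (m ^ 2 - α ^ 2) ≤ 0 :=
        mul_nonpos_of_nonneg_of_nonpos hι0 e0.le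
      have e2 : ((N : ℝ) - 1) ^ 2 * α ^ 2 ≤ 0 := hα.trans e1
      have e3 : α ^ 2 ≤ 0 := by
        by_contra h0
        push Not at h0
        have := mul_pos hN1 h0
        linarith
      have e4 := sq_nonneg m
      linarith
  have hα3 : |α| ≤ m / Real.sqrt (1 + Λ) := by
    rw [le_div_iff₀ (Real.sqrt_pos.2 (by linarith))]
    refine abs_le_of_sq_le_sq' ?_ hm |>.2
    rw [mul_pow, Real.sq_sqrt (by linarith), sq_abs]
    linarith
  have herr2 : Real.exp (C * β * (2 * r * (Real.exp q + 1)) ^ 2 *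
      Real.exp (-a * (Real.sqrt r / 6))) - 1 ≤ 1 / (4 * r) := by
    refine le_trans (sub_le_sub_right (Real.exp_le_exp.2 ?_) 1) (herr r (hexp1.trans hr'))
    have e1 : -a * (Real.sqrt r / 6) = -(a / 6) * Real.sqrt r := by ring
    rw [e1]
    refine mul_le_mul_of_nonneg_right ?_ (Real.exp_pos _).le
    have e2 : (2 * r * (Real.exp q + 1)) ≤ r * r := by
      rw [← hR]
      exact mul_le_mul_of_nonneg_left hMle hrpos.le
    have e3 : β ≤ r := by linarith
    calc C * β * (2 * r * (Real.exp q + 1)) ^ 2 ≤ C * r * (r * r) ^ 2 := by gcongr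
      _ = C * r ^ 5 := by ring
  have e1 := hαe.trans herr2
  have e2 := abs_add_le (gH (pS c) (ball p (2 * r * (Real.exp q + 1))) η
    (fun S => cc i (S p)) - α) α
  rw [sub_add_cancel] at e2
  linarith

/-- the iteration of the vector step -/
theorem vec_iter {J : ℤ × ℤ → ℝ} {N : ℕ} (hN : N ≠ 0) {β u r0 M v : ℝ} (hr0 : 1 ≤ r0) (hM : 4 ≤ M)
    (hv : 1 / 2 ≤ v) (hU : UB J N β r0 u)
    (hstep : ∀ r m : ℝ, r0 ≤ r → 0 ≤ m → UB J N β r u → MB J N β r m →
      MB J N β (r * M) (m * v + 1 / (4 * r))) :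
    ∀ k : ℕ, MB J N β (r0 * M ^ k) ((2 - (1 / 2) ^ k) * v ^ k) := by
  intro k
  induction k with
  | zero =>
    have : (2 - (1 / 2 : ℝ) ^ 0) * v ^ 0 = 1 := by norm_num
    rw [this]
    exact MB_one J hN β _
  | succ k ih =>
    have hMk : 1 ≤ M ^ k := one_le_pow₀ (by linarith)
    have hr : r0 ≤ r0 * M ^ k := le_mul_of_one_le_right (by linarith) hMk
    have hhalf : (1 / 2 : ℝ) ^ k ≤ 1 := pow_le_one₀ (by norm_num) (by norm_num)
    have hv0 : 0 < v := by linarith
    have h1 := hstep (r0 * M ^ k) ((2 - (1 / 2) ^ k) * v ^ k) hr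
      (mul_nonneg (by linarith) (by positivity)) (UB_mono hN hU hr le_rfl) ih
    refine MB_mono hN h1 (by rw [pow_succ, mul_assoc]) ?_
    have h2 : 1 / (4 * (r0 * M ^ k)) ≤ (1 / 2) ^ (k + 1) * v ^ (k + 1) := by
      have h3 : (1 / 4 : ℝ) ^ (k + 1) ≤ (1 / 2) ^ (k + 1) * v ^ (k + 1) := by
        rw [← mul_pow]
        exact pow_le_pow_left₀ (by norm_num) (by linarith) _
      refine le_trans ?_ h3
      have h4 : (4 : ℝ) ^ k ≤ M ^ k := pow_le_pow_left₀ (by norm_num) hM k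
      rw [one_div_pow]
      refine one_div_le_one_div_of_le (by positivity) ?_
      rw [pow_succ]
      have h5 : M ^ k ≤ r0 * M ^ k := le_mul_of_one_le_left (by positivity) hr0
      linarith
    have e1 : (2 - (1 / 2 : ℝ) ^ (k + 1)) * v ^ (k + 1) = (2 - (1 / 2) ^ k) * v ^ k * v +
        (1 / 2) ^ (k + 1) * v ^ (k + 1) := by
      rw [pow_succ, pow_succ]
      ring
    rw [e1]
    linarith

/-- the choice of the parameter -/
theorem pow_par (g ε : ℝ) (N : ℕ) (hN : 2 ≤ N) (hg : 0 ≤ g) (hε : 0 < ε) : ∃ s Λ : ℝ,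
    0 < s ∧ s ≤ 1 / 2 ∧ 0 < Λ ∧ Λ ≤ 3 ∧
    Λ * (g * (1 + s) * (((N : ℝ) - 2) * ((1 + 2 * s) / N) + 1)) ≤ s * ((N : ℝ) - 1) ^ 2 ∧
    (N : ℝ) * (N - 1) / (2 * g + ε) * ((1 + s) * s) ≤ Real.log (1 + Λ) := by
  have hN' : (2 : ℝ) ≤ N := by exact_mod_cast hN
  obtain ⟨n, hn⟩ : ∃ n : ℝ, n = (N : ℝ) := ⟨_, rfl⟩
  rw [← hn] at hN' ⊢
  obtain ⟨A, hA⟩ : ∃ A : ℝ → ℝ, ∀ s, A s = (n - 1) ^ 2 * n /
    ((g + ε / 4) * (1 + s) * (2 * n - 2 + 2 * (n - 2) * s)) := ⟨_, fun _ => rfl⟩
  have hcA : ContinuousAt A 0 := by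
    have : A = fun s => (n - 1) ^ 2 * n /
      ((g + ε / 4) * (1 + s) * (2 * n - 2 + 2 * (n - 2) * s)) := funext hA
    rw [this]
    refine ContinuousAt.div continuousAt_const (by fun_prop) ?_
    have h1 : 0 < g + ε / 4 := by positivity
    have h2 : 0 < 2 * n - 2 := by linarith
    simp only [add_zero, mul_one, mul_zero]
    positivity
  obtain ⟨p, hp⟩ : ∃ p : ℝ, p = n * (n - 1) / (2 * g + ε) := ⟨_, rfl⟩
  rw [← hp]
  have hA0 : A 0 = n * (n - 1) / (2 * g + ε / 2) := by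
    rw [hA]
    have h1 : 0 < g + ε / 4 := by positivity
    have h2 : 0 < 2 * n - 2 := by linarith
    have h3 : 0 < 2 * g + ε / 2 := by positivity
    rw [div_eq_div_iff (by positivity) (by positivity)]
    ring
  have hpA : p < A 0 := by
    rw [hp, hA0]
    refine div_lt_div_of_pos_left ?_ (by positivity) (by linarith)
    have : 0 < n - 1 := by linarith
    positivity
  have hc1 : ContinuousAt (fun s : ℝ => p * (1 + s) * (1 + s * A s) - A s) 0 := by fun_prop
  have hc2 : ContinuousAt (fun s : ℝ => s * A s) 0 := by fun_prop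
  have t1 := hc1.tendsto
  have t2 := hc2.tendsto
  simp only [zero_mul, add_zero, mul_one] at t1 t2
  have u1 := t1.eventually_lt_const (show p - A 0 < 0 by linarith)
  have u2 := t2.eventually_lt_const (show (0 : ℝ) < 3 by norm_num)
  obtain ⟨η, hη, hη'⟩ := Metric.eventually_nhds_iff.1 (u1.and u2)
  obtain ⟨s, hs⟩ : ∃ s : ℝ, s = min (η / 2) (1 / 2) := ⟨_, rfl⟩
  have hs0 : 0 < s := by rw [hs]; positivity
  have hs1 : s ≤ 1 / 2 := by rw [hs]; exact min_le_right _ _
  have hs2 : dist s 0 < η := by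
    rw [Real.dist_eq, sub_zero, abs_of_pos hs0, hs]
    exact lt_of_le_of_lt (min_le_left _ _) (by linarith)
  obtain ⟨k1, k2⟩ := hη' hs2
  have hn2 : 0 ≤ n - 2 := by linarith
  have hn1 : 0 < n - 1 := by linarith
  have hn0 : 0 < n := by linarith
  have hD : 0 < 2 * n - 2 + 2 * (n - 2) * s := by
    have : 0 ≤ 2 * (n - 2) * s := by positivity
    linarith
  have hAs : 0 < A s := by
    rw [hA]
    positivity
  refine ⟨s, s * A s, hs0, hs1, by positivity, k2.le, ?_, ?_⟩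
  · have e1 : (n - 2) * ((1 + 2 * s) / n) + 1 = (2 * n - 2 + 2 * (n - 2) * s) / n := by
      field_simp
      ring
    rw [e1, hA]
    have e2 : s * ((n - 1) ^ 2 * n / ((g + ε / 4) * (1 + s) * (2 * n - 2 + 2 * (n - 2) * s))) *
        (g * (1 + s) * ((2 * n - 2 + 2 * (n - 2) * s) / n)) =
        s * (n - 1) ^ 2 * (g / (g + ε / 4)) := by
      field_simp
    rw [e2]
    refine mul_le_of_le_one_right (by positivity) ?_
    rw [div_le_one (by positivity)]
    linarith
  · have h1 := Real.one_sub_inv_le_log_of_pos (show 0 < 1 + s * A s by positivity)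
    refine le_trans ?_ h1
    have e1 : 1 - (1 + s * A s)⁻¹ = s * A s / (1 + s * A s) := by
      field_simp
      ring
    rw [e1, le_div_iff₀ (by positivity)]
    have k3 : p * (1 + s) * (1 + s * A s) ≤ A s := by linarith
    calc p * ((1 + s) * s) * (1 + s * A s) = s * (p * (1 + s) * (1 + s * A s)) := by ring
      _ ≤ s * A s := mul_le_mul_of_nonneg_left k3 hs0.le

/-- the power law on the tori -/
theorem pow_tor {J : ℤ × ℤ → ℝ} (hJ : Admissible J) {N : ℕ} (hN : 2 ≤ N) (ε : ℝ) (hε : 0 < ε) :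
    ∃ D : ℝ, 0 < D ∧ ∀ᶠ β : ℝ in atTop, ∀ (L : ℕ) [NeZero L] (x y : Tor L),
      0 < tnorm (x - y) → corS (N := N) (cJ L J β) x y ≤
        D * tnorm (x - y) ^ (-((N : ℝ) * (N - 1) / (2 * (2 * Real.pi * sig J) + ε) / β)) := by
  have hN' : (2 : ℝ) ≤ N := by exact_mod_cast hN
  have hN0 : N ≠ 0 := by omega
  have hsig := sig_nonneg hJ
  have hπ := Real.pi_pos
  obtain ⟨g, hg⟩ : ∃ g : ℝ, g = 2 * Real.pi * sig J := ⟨_, rfl⟩
  have hg0 : 0 ≤ g := by rw [hg]; positivity
  obtain ⟨s, Λ, hs, hs2, hΛ, hΛ3, hΛs, hlog⟩ := pow_par g ε N hN hg0 hε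
  rw [← hg]
  obtain ⟨p, hp⟩ : ∃ p : ℝ, p = (N : ℝ) * (N - 1) / (2 * g + ε) := ⟨_, rfl⟩
  rw [← hp] at hlog ⊢
  have hp0 : 0 < p := by
    rw [hp]
    have : (0 : ℝ) < (N : ℝ) - 1 := by linarith
    positivity
  have hsN : s ≤ (N : ℝ) - 1 := by linarith
  have hX0 : 0 ≤ XX N s := by
    have hXtop : XX N ((N : ℝ) - 1) = 0 := by
      unfold XX
      have hW : (N : ℝ) - 1 ≠ 0 := by linarith
      rw [div_self hW, Real.log_one]
      ring
    rcases hsN.eq_or_lt with h | h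
    · rw [h, hXtop]
    · rw [← hXtop]
      exact (XX_anti hN hs h).le
  obtain ⟨T, hT⟩ : ∃ T : ℝ, T = g * XX N s + 1 := ⟨_, rfl⟩
  have hT1 : 1 ≤ T := by rw [hT]; nlinarith [mul_nonneg hg0 hX0]
  obtain ⟨u, hu⟩ : ∃ u : ℝ, u = (1 + 2 * s) / N := ⟨_, rfl⟩
  have hu0 : 0 < u := by rw [hu]; positivity
  rw [hg, ← hu] at hΛs
  obtain ⟨C, a, hC, ha, htwo⟩ := two_pt hJ
  obtain ⟨r1, hr1, herr⟩ := err_r C a hC ha
  have hflow := pp_flow hJ hN hs hsN
  rw [← hg] at hflow
  have hexp2 : Tendsto (fun β : ℝ => Real.exp (s ^ 2 * β)) atTop atTop :=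
    Real.tendsto_exp_atTop.comp (tendsto_id.const_mul_atTop (by positivity))
  refine ⟨5 * (1 + Λ) * Real.exp (p * (Real.log 3 + T)), by positivity, ?_⟩
  filter_upwards [hflow (s / N) (by positivity), vec_step hJ hN hu0 hs hs2 hT1 hΛ hΛs,
    eventually_ge_atTop (3 : ℝ), hexp2.eventually_ge_atTop 4,
    Real.tendsto_exp_atTop.eventually_ge_atTop r1] with β hP hstep hβ3 h4 hβr1
  intro L _ x y hxy
  have hβ0 : 0 < β := by linarith
  obtain ⟨r0, hr0⟩ : ∃ r0 : ℝ, r0 = Real.exp (T * β) := ⟨_, rfl⟩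
  have hr0β : Real.exp β ≤ r0 := by
    rw [hr0]
    exact Real.exp_le_exp.2 (le_mul_of_one_le_left hβ0.le hT1)
  have hβr : β + 1 ≤ Real.exp β := Real.add_one_le_exp β
  have hr01 : 1 ≤ r0 := by linarith
  have hr0pos : 0 < r0 := by linarith
  have hUr : UB J N β r0 u := by
    refine UB_mono hN0 hP.1 ?_ (le_of_eq ?_)
    · rw [hr0, hT]
      refine Real.exp_le_exp.2 (mul_le_mul_of_nonneg_right ?_ hβ0.le)
      have : s / N ≤ 1 := by
        rw [div_le_one (by positivity)]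
        linarith
      linarith
    · rw [hu]
      ring
  obtain ⟨M, hM⟩ : ∃ M : ℝ, M = 2 * (Real.exp (s * β) + 1) := ⟨_, rfl⟩
  have hsβ : 0 ≤ s * β := by positivity
  have hM4 : 4 ≤ M := by
    rw [hM]
    have := Real.one_le_exp hsβ
    linarith
  have hMlog : Real.log M ≤ (1 + s) * s * β := by
    have h1 : M ≤ Real.exp ((1 + s) * s * β) := by
      have e1 : Real.exp ((1 + s) * s * β) = Real.exp (s ^ 2 * β) * Real.exp (s * β) := by
        rw [← Real.exp_add]
        congr 1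
        ring
      rw [e1, hM]
      have := Real.one_le_exp hsβ
      calc 2 * (Real.exp (s * β) + 1) ≤ 4 * Real.exp (s * β) := by linarith
        _ ≤ Real.exp (s ^ 2 * β) * Real.exp (s * β) := by gcongr
    have := Real.log_le_log (by linarith) h1
    rwa [Real.log_exp] at this
  have hMlog0 : 0 < Real.log M := Real.log_pos (by linarith)
  obtain ⟨v, hv⟩ : ∃ v : ℝ, v = 1 / Real.sqrt (1 + Λ) := ⟨_, rfl⟩
  have hsqrt : 0 < Real.sqrt (1 + Λ) := Real.sqrt_pos.2 (by linarith)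
  have hv2 : v ^ 2 = (1 + Λ)⁻¹ := by
    rw [hv, div_pow, Real.sq_sqrt (by linarith), one_pow, one_div]
  have hvh : 1 / 2 ≤ v := by
    rw [hv]
    refine one_div_le_one_div_of_le hsqrt ?_
    rw [Real.sqrt_le_left (by norm_num)]
    linarith
  have hiter := vec_iter hN0 hr01 hM4 hvh hUr (fun r m hr hm hU hMB => by
    have := hstep r m (by rw [← hr0]; exact hr) hm hU hMB
    rw [← hM] at this
    rw [hv, mul_one_div]
    exact this)
  obtain ⟨ℓ, hℓ⟩ : ∃ ℓ : ℝ, ℓ = tnorm (x - y) := ⟨_, rfl⟩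
  rw [← hℓ] at hxy ⊢
  rw [Real.rpow_def_of_pos hxy]
  have h3 : 0 ≤ Real.log 3 := Real.log_nonneg (by norm_num)
  have hlr0 : Real.log (3 * r0) = Real.log 3 + T * β := by
    rw [Real.log_mul (by norm_num) hr0pos.ne', hr0, Real.log_exp]
  have hpβ : 0 < p / β := by positivity
  have hconst : p / β * (Real.log 3 + T * β) ≤ p * (Real.log 3 + T) := by
    have e1 : p / β * (Real.log 3 + T * β) = p * (Real.log 3 / β + T) := by
      field_simp
    rw [e1]
    refine mul_le_mul_of_nonneg_left ?_ hp0.le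
    have : Real.log 3 / β ≤ Real.log 3 := div_le_self h3 (by linarith)
    linarith
  rcases lt_or_ge ℓ (3 * r0) with hcase | hcase
  · refine (corS_le_one hN0 _ x y).trans ?_
    have h5 : Real.log ℓ ≤ Real.log 3 + T * β := by
      rw [← hlr0]
      exact Real.log_le_log hxy hcase.le
    have h6 : p / β * Real.log ℓ ≤ p * (Real.log 3 + T) :=
      (mul_le_mul_of_nonneg_left h5 hpβ.le).trans hconst
    calc (1 : ℝ) ≤ 5 * (1 + Λ) * Real.exp (p * (Real.log 3 + T) + Real.log ℓ * -(p / β)) := by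
          have h7 : 1 ≤ Real.exp (p * (Real.log 3 + T) + Real.log ℓ * -(p / β)) :=
            Real.one_le_exp (by linarith)
          have h8 : (1 : ℝ) ≤ 5 * (1 + Λ) := by linarith
          exact one_le_mul_of_one_le_of_one_le h8 h7
      _ = _ := by rw [Real.exp_add]; ring
  · obtain ⟨b, hb⟩ : ∃ b : ℝ, b = Real.log (ℓ / (3 * r0)) := ⟨_, rfl⟩
    have hb0 : 0 ≤ b := by
      rw [hb]
      refine Real.log_nonneg ?_
      rw [one_le_div (by positivity)]
      exact hcase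
    obtain ⟨k, hk⟩ : ∃ k : ℕ, k = ⌊b / Real.log M⌋₊ := ⟨_, rfl⟩
    have hk1 : (k : ℝ) * Real.log M ≤ b := by
      rw [← le_div_iff₀ hMlog0, hk]
      exact Nat.floor_le (by positivity)
    have hk2 : b < ((k : ℝ) + 1) * Real.log M := by
      rw [← div_lt_iff₀ hMlog0, hk]
      exact Nat.lt_floor_add_one _
    have hMk : M ^ k ≤ ℓ / (3 * r0) := by
      have h5 : Real.log (M ^ k) ≤ Real.log (ℓ / (3 * r0)) := by
        rw [Real.log_pow, ← hb]
        exact hk1
      exact (Real.log_le_log_iff (by positivity) (by positivity)).1 h5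
    have h3R : 3 * (r0 * M ^ k) ≤ ℓ := by
      rw [le_div_iff₀ (by positivity)] at hMk
      linarith
    have hMk1 : 1 ≤ M ^ k := one_le_pow₀ (by linarith)
    have hr0R : r0 ≤ r0 * M ^ k := le_mul_of_one_le_right hr0pos.le hMk1
    have hhalf : (1 / 2 : ℝ) ^ k ≤ 1 := pow_le_one₀ (by norm_num) (by norm_num)
    have hhalf0 : (0 : ℝ) ≤ (1 / 2 : ℝ) ^ k := by positivity
    have hv0 : 0 < v := by linarith
    have hm0 : 0 ≤ (2 - (1 / 2 : ℝ) ^ k) * v ^ k := mul_nonneg (by linarith) (by positivity)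
    have h6 := htwo N hN0 β hβ0.le (r0 * M ^ k) _ (by linarith) hm0 (hiter k) L x y
      (by rw [← hℓ]; exact h3R)
    have h7 : Real.exp (C * β * (r0 * M ^ k) ^ 2 * Real.exp (-a * (r0 * M ^ k))) - 1 ≤
        1 / (4 * (r0 * M ^ k)) := by
      obtain ⟨R, hR⟩ : ∃ R : ℝ, R = r0 * M ^ k := ⟨_, rfl⟩
      rw [← hR] at hr0R ⊢
      have hR1 : r1 ≤ R := by linarith
      refine le_trans (sub_le_sub_right (Real.exp_le_exp.2 ?_) 1) (herr R hR1)
      have hRpos : 0 < R := by linarith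
      have hR1' : 1 ≤ R := by linarith
      have e2 : Real.exp (-a * R) ≤ Real.exp (-a * Real.sqrt R) := by
        refine Real.exp_le_exp.2 ?_
        have : Real.sqrt R ≤ R := by
          rw [Real.sqrt_le_left hRpos.le, sq]
          exact le_mul_of_one_le_left hRpos.le hR1'
        have h9 := mul_le_mul_of_nonneg_left this ha.le
        linarith
      have e3 : β ≤ R := by linarith
      have e4 : C * β * R ^ 2 ≤ C * R ^ 5 := by
        calc C * β * R ^ 2 ≤ C * R * R ^ 2 := by gcongr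
          _ = C * R ^ 3 := by ring
          _ ≤ C * R ^ 5 := by
              refine mul_le_mul_of_nonneg_left ?_ hC.le
              exact pow_le_pow_right₀ hR1' (by norm_num)
      exact mul_le_mul e4 e2 (Real.exp_pos _).le (by positivity)
    have h8 : 1 / (4 * (r0 * M ^ k)) ≤ (1 + Λ)⁻¹ ^ k := by
      have e1 : (1 / 4 : ℝ) ^ k ≤ (1 + Λ)⁻¹ ^ k := by
        refine pow_le_pow_left₀ (by norm_num) ?_ k
        rw [← one_div]
        exact one_div_le_one_div_of_le (by linarith) (by linarith)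
      refine le_trans ?_ e1
      rw [one_div_pow]
      refine one_div_le_one_div_of_le (by positivity) ?_
      have e2 : (4 : ℝ) ^ k ≤ M ^ k := pow_le_pow_left₀ (by norm_num) hM4 k
      have e3 : M ^ k ≤ r0 * M ^ k := le_mul_of_one_le_left (by positivity) hr01
      have e4 : 0 ≤ r0 * M ^ k := by positivity
      linarith
    have h9 : ((2 - (1 / 2 : ℝ) ^ k) * v ^ k) ^ 2 ≤ 4 * (1 + Λ)⁻¹ ^ k := by
      rw [mul_pow, ← pow_mul, mul_comm k 2, pow_mul, hv2]
      refine mul_le_mul_of_nonneg_right ?_ (by positivity)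
      calc (2 - (1 / 2 : ℝ) ^ k) ^ 2 ≤ 2 ^ 2 :=
            pow_le_pow_left₀ (by linarith) (by linarith) 2
        _ = 4 := by norm_num
    have h10 : (1 + Λ)⁻¹ ^ k ≤ (1 + Λ) * Real.exp (-(p / β * b)) := by
      have e1 : p / β * b ≤ ((k : ℝ) + 1) * Real.log (1 + Λ) := by
        have e2 : p / β * b ≤ p / β * (((k : ℝ) + 1) * Real.log M) :=
          mul_le_mul_of_nonneg_left hk2.le hpβ.le
        have e3 : p / β * Real.log M ≤ Real.log (1 + Λ) := by
          refine le_trans ?_ hlog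
          calc p / β * Real.log M ≤ p / β * ((1 + s) * s * β) :=
                mul_le_mul_of_nonneg_left hMlog hpβ.le
            _ = p * ((1 + s) * s) := by field_simp
        calc p / β * b ≤ ((k : ℝ) + 1) * (p / β * Real.log M) := by linarith
          _ ≤ ((k : ℝ) + 1) * Real.log (1 + Λ) := by gcongr
      have e2 : Real.exp (-(((k : ℝ) + 1) * Real.log (1 + Λ))) ≤ Real.exp (-(p / β * b)) :=
        Real.exp_le_exp.2 (neg_le_neg e1)
      have e3 : Real.exp (-(((k : ℝ) + 1) * Real.log (1 + Λ))) = (1 + Λ)⁻¹ ^ (k + 1) := by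
        rw [Real.exp_neg, inv_pow]
        congr 1
        rw [← Real.exp_log (show 0 < 1 + Λ by linarith), ← Real.exp_nat_mul, Real.log_exp]
        push_cast
        ring_nf
      rw [e3] at e2
      have e4 : (1 + Λ) * (1 + Λ)⁻¹ ^ (k + 1) = (1 + Λ)⁻¹ ^ k := by
        rw [pow_succ]
        field_simp
      rw [← e4]
      exact mul_le_mul_of_nonneg_left e2 (by linarith)
    have h11 : Real.exp (-(p / β * b)) ≤
        Real.exp (p * (Real.log 3 + T)) * Real.exp (Real.log ℓ * -(p / β)) := by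
      rw [← Real.exp_add]
      refine Real.exp_le_exp.2 ?_
      have e1 : b = Real.log ℓ - (Real.log 3 + T * β) := by
        rw [hb, Real.log_div hxy.ne' (by positivity), hlr0]
      rw [e1]
      have e2 : -(p / β * (Real.log ℓ - (Real.log 3 + T * β))) =
          p / β * (Real.log 3 + T * β) + Real.log ℓ * -(p / β) := by ring
      rw [e2]
      linarith
    calc corS (N := N) (cJ L J β) x y ≤ 4 * (1 + Λ)⁻¹ ^ k + (1 + Λ)⁻¹ ^ k := by linarith
      _ = 5 * (1 + Λ)⁻¹ ^ k := by ring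
      _ ≤ 5 * ((1 + Λ) * (Real.exp (p * (Real.log 3 + T)) *
            Real.exp (Real.log ℓ * -(p / β)))) := by
          refine mul_le_mul_of_nonneg_left ?_ (by norm_num)
          refine h10.trans (mul_le_mul_of_nonneg_left h11 (by linarith))
      _ = _ := by ring

end Pool.Agent.H12.OL
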