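import Pool.Agent.H12.OL.Cut

/-! # One step at finite inverse temperature -/

set_option autoImplicit false
set_option linter.unusedSectionVars false

noncomputable section

namespace Pool.Agent.H12.OL

open MeasureTheory Pool.Agent.H5R2.ON Pool.Agent.H717R2.ON3 Pool.Agent.H983R2.ONJ
open Pool.Agent.H983R2.ONJ.AuxFin269
open Pool.Agent.Q218.ON (EN ax)
open Pool.Agent.H12.LN
open Pool.Agent.Results.MP_8be4c0_mp.MassLowerBound (cJ)

/-- couplings between `0` and the coupling of the model -/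
def Cls (J : ℤ × ℤ → ℝ) (β : ℝ) {L : ℕ} [NeZero L] (c : Tor L × Tor L → ℝ) : Prop :=
  ∀ e, 0 ≤ c e ∧ c e ≤ cJ L J β e

/-- bound for the second moments in the centre of balls -/
def UB (J : ℤ × ℤ → ℝ) (N : ℕ) (β R u : ℝ) : Prop :=
  ∀ (L : ℕ) [NeZero L], 2 * R < L → ∀ c : Tor L × Tor L → ℝ, Cls J β c →
    ∀ (p : Tor L) (η : Conf N L) (i : Fin N),
    gH (pS c) (ball p R) η (fun S => cc i (S p) ^ 2) ≤ u

/-- bound for the first moments in the centre of balls -/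
def MB (J : ℤ × ℤ → ℝ) (N : ℕ) (β R m : ℝ) : Prop :=
  ∀ (L : ℕ) [NeZero L], 2 * R < L → ∀ c : Tor L × Tor L → ℝ, Cls J β c →
    ∀ (p : Tor L) (η : Conf N L) (i : Fin N),
    |gH (pS c) (ball p R) η (fun S => cc i (S p))| ≤ m

theorem Cls_cut {J : ℤ × ℤ → ℝ} {β : ℝ} {L : ℕ} [NeZero L] {c : Tor L × Tor L → ℝ}
    (hc : Cls J β c) (ρ : ℝ) : Cls J β (cut ρ c) := fun e =>
  ⟨(cut_le ρ (fun e => (hc e).1) e).1, (cut_le ρ (fun e => (hc e).1) e).2.trans (hc e).2⟩

theorem Cls_exp {J : ℤ × ℤ → ℝ} (hJ : Admissible J) : ∃ A a : ℝ, 0 ≤ A ∧ 0 < a ∧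
    ∀ β : ℝ, 0 ≤ β → ∀ (L : ℕ) [NeZero L] (c : Tor L × Tor L → ℝ), Cls J β c →
      ExpC (β * A) a c := by
  obtain ⟨A, a, ha, hJd⟩ := hJ.decay
  obtain ⟨A', hA', hper⟩ := Jper_le ha hJd
  refine ⟨A', a / 2, hA', by linarith, ?_⟩
  intro β hβ L _ c hc e
  refine ⟨(hc e).1, (hc e).2.trans ?_⟩
  unfold cJ
  split_ifs with h
  · exact mul_nonneg (by positivity) (Real.exp_pos _).le
  · have h1 := mul_le_mul_of_nonneg_left (hper L (e.1 - e.2)) hβ
    rw [tnorm_sub_comm e.1 e.2] at h1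
    refine h1.trans (le_of_eq ?_)
    ring

theorem UB_mono {J : ℤ × ℤ → ℝ} {N : ℕ} (hN : N ≠ 0) {β r R u u' : ℝ} (h : UB J N β r u)
    (hr : r ≤ R) (hu : u ≤ u') : UB J N β R u' := by
  intro L _ hL c hc p η i
  refine (sq_mono hN c (ball_sub (p := p) (x := p) (r := r) ?_) p i u
    (fun η' => h L (by linarith) c hc p η' i) η).trans hu
  rw [sub_self, tnorm_zero]
  linarith

theorem MB_mono {J : ℤ × ℤ → ℝ} {N : ℕ} (hN : N ≠ 0) {β r R m m' : ℝ} (h : MB J N β r m)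
    (hr : r ≤ R) (hm : m ≤ m') : MB J N β R m' := by
  intro L _ hL c hc p η i
  refine (lin_mono hN c (ball_sub (p := p) (x := p) (r := r) ?_) p i m
    (fun η' => h L (by linarith) c hc p η' i) η).trans hm
  rw [sub_self, tnorm_zero]
  linarith

theorem cc_sq_le {N : ℕ} (i : Fin N) (s : Sph N) : cc i s ^ 2 ≤ 1 := by
  have h2 := sum_sq_erase i s
  have h3 : 0 ≤ ∑ k ∈ Finset.univ.erase i, (s : EN N) k ^ 2 :=
    Finset.sum_nonneg fun k _ => sq_nonneg _
  rw [cc_eq]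
  linarith

theorem cc_abs_le {N : ℕ} (i : Fin N) (s : Sph N) : |cc i s| ≤ 1 :=
  (sq_le_one_iff_abs_le_one _).1 (cc_sq_le i s)

theorem UB_one (J : ℤ × ℤ → ℝ) {N : ℕ} (hN : N ≠ 0) (β R : ℝ) : UB J N β R 1 := by
  intro L _ hL c hc p η i
  have h1 := gH_mono hN (continuous_pS c) (ball p R) η (F := fun S => cc i (S p) ^ 2)
    (G := fun _ => (1 : ℝ)) ((cont_cc i p).pow 2).measurable measurable_const 1
    (fun S => by
      rw [abs_of_nonneg (sq_nonneg _)]
      exact cc_sq_le _ _)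
    (fun S => by simp) (fun S => cc_sq_le _ _)
  rwa [gH_const hN (continuous_pS c)] at h1

theorem MB_one (J : ℤ × ℤ → ℝ) {N : ℕ} (hN : N ≠ 0) (β R : ℝ) : MB J N β R 1 := by
  intro L _ hL c hc p η i
  have h1 := gH_mono hN (continuous_pS c) (ball p R) η (F := fun S => cc i (S p))
    (G := fun _ => (1 : ℝ)) (cont_cc i p).measurable measurable_const 1
    (fun S => cc_abs_le _ _) (fun S => by simp) (fun S => (abs_le.1 (cc_abs_le _ _)).2)
  have h2 := gH_mono hN (continuous_pS c) (ball p R) η (F := fun _ => (-1 : ℝ))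
    (G := fun S => cc i (S p)) measurable_const (cont_cc i p).measurable 1
    (fun S => by simp) (fun S => cc_abs_le _ _) (fun S => (abs_le.1 (cc_abs_le _ _)).1)
  rw [gH_const hN (continuous_pS c)] at h1 h2
  exact abs_le.2 ⟨h2, h1⟩

section geo

variable {L : ℕ} [NeZero L] {r q : ℝ} (hr : 0 < r) (hq : 0 < q)
  {c : Tor L × Tor L → ℝ} (hrange : ∀ e, c e ≠ 0 → tnorm (e.2 - e.1) ≤ r) (p : Tor L)

include hr hq

theorem geo_out (x : Tor L) (hx : x ∉ ball p (2 * r * (Real.exp q + 1))) : pr r q p x = 0 := by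
  rw [LN.mem_ball] at hx
  push Not at hx
  refine gr_outer hr hq ?_
  have : 2 * r * (Real.exp q + 1) = 2 * r * Real.exp q + 2 * r := by ring
  linarith

include hrange

omit hq in
theorem geo_loc (e : Tor L × Tor L) (he : e.1 ∈ ball p r ∨ e.2 ∈ ball p r) :
    c e * (pr r q p e.1 - pr r q p e.2) = 0 := by
  by_cases h : c e = 0
  · rw [h, zero_mul]
  · have h1 := hrange e h
    have h1' : tnorm (e.1 - e.2) ≤ r := by rw [tnorm_sub_comm]; exact h1
    rw [LN.mem_ball, LN.mem_ball] at he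
    have h2 : tnorm (e.1 - p) ≤ 2 * r ∧ tnorm (e.2 - p) ≤ 2 * r := by
      rcases he with he | he
      · have h3 := tnorm_add_le (e.2 - e.1) (e.1 - p)
        rw [sub_add_sub_cancel] at h3
        constructor <;> linarith
      · have h3 := tnorm_add_le (e.1 - e.2) (e.2 - p)
        rw [sub_add_sub_cancel] at h3
        constructor <;> linarith
    unfold pr
    rw [gr_inner hr q h2.1, gr_inner hr q h2.2, sub_self, mul_zero]

theorem geo_in (e : Tor L × Tor L) (he : c e * (pr r q p e.1 - pr r q p e.2) ≠ 0) :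
    ball e.1 r ⊆ ball p (2 * r * (Real.exp q + 1)) ∧
      ball e.2 r ⊆ ball p (2 * r * (Real.exp q + 1)) := by
  have h : c e ≠ 0 := fun h => he (by rw [h, zero_mul])
  have h1 := hrange e h
  have h1' : tnorm (e.1 - e.2) ≤ r := by rw [tnorm_sub_comm]; exact h1
  have h2 : tnorm (e.1 - p) ≤ 2 * r * Real.exp q ∨ tnorm (e.2 - p) ≤ 2 * r * Real.exp q := by
    by_contra hcon
    push Not at hcon
    apply he
    unfold pr
    rw [gr_outer hr hq hcon.1.le, gr_outer hr hq hcon.2.le, sub_self, mul_zero]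
  have e0 : 2 * r * (Real.exp q + 1) = 2 * r * Real.exp q + 2 * r := by ring
  have h3 : tnorm (e.1 - p) + r ≤ 2 * r * (Real.exp q + 1) ∧
      tnorm (e.2 - p) + r ≤ 2 * r * (Real.exp q + 1) := by
    rcases h2 with he | he
    · have h3 := tnorm_add_le (e.2 - e.1) (e.1 - p)
      rw [sub_add_sub_cancel] at h3
      constructor <;> linarith
    · have h3 := tnorm_add_le (e.1 - e.2) (e.2 - p)
      rw [sub_add_sub_cancel] at h3
      constructor <;> linarith
  exact ⟨ball_sub h3.1, ball_sub h3.2⟩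

end geo

theorem sig_nonneg {J : ℤ × ℤ → ℝ} (hJ : Admissible J) : 0 ≤ sig J := by
  unfold sig
  have : 0 ≤ ∑' w : ℤ × ℤ, J w * znorm w ^ 2 := tsum_nonneg (Jz_nonneg hJ.nonneg)
  linarith

/-- the effective energy of one step -/
def iot (J : ℤ × ℤ → ℝ) (N : ℕ) (β r q ρ u : ℝ) : ℝ :=
  β * sig J * ((1 + 32 * (ρ / r)) * (2 * Real.pi + 120 / q) / q) * (((N : ℝ) - 2) * u + 1)

/-- one step at finite inverse temperature -/
theorem fstep {J : ℤ × ℤ → ℝ} (hJ : Admissible J) : ∃ C a : ℝ, 0 < C ∧ 0 < a ∧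
    ∀ N : ℕ, 2 ≤ N → ∀ β : ℝ, 0 ≤ β → ∀ r q ρ : ℝ, 2 ≤ r → 1 ≤ q → 0 ≤ ρ → 6 * ρ ≤ r →
    ∀ u m : ℝ, 0 < u → 0 ≤ m → UB J N β r u → MB J N β r m →
    ∀ (L : ℕ) [NeZero L], 2 * (2 * r * (Real.exp q + 1)) < L →
    ∀ c : Tor L × Tor L → ℝ, Cls J β c → ∀ (p : Tor L) (η : Conf N L) (i : Fin N),
    ∃ U α : ℝ, 0 ≤ U ∧ ((N : ℝ) * U - 1) ^ 2 ≤ iot J N β r q ρ u * (U * (u - U)) ∧
      ((N : ℝ) - 1) ^ 2 * α ^ 2 ≤ iot J N β r q ρ u * (m ^ 2 - α ^ 2) ∧
      |gH (pS c) (ball p (2 * r * (Real.exp q + 1))) η (fun S => cc i (S p) ^ 2) - U| ≤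
        Real.exp (C * β * (2 * r * (Real.exp q + 1)) ^ 2 * Real.exp (-a * ρ)) - 1 ∧
      |gH (pS c) (ball p (2 * r * (Real.exp q + 1))) η (fun S => cc i (S p)) - α| ≤
        Real.exp (C * β * (2 * r * (Real.exp q + 1)) ^ 2 * Real.exp (-a * ρ)) - 1 := by
  obtain ⟨A, a, hA, ha, hexp⟩ := Cls_exp hJ
  obtain ⟨C, hC, hcut⟩ := cut_err a ha
  have hπ := Real.pi_pos
  refine ⟨C * A * (4 * Real.pi) + 1, a / 2, by positivity, by positivity, ?_⟩
  intro N hN β hβ r q ρ hr hq hρ0 hρ u m hu hm hU hM L _ hL c hc p η i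
  have hN0 : N ≠ 0 := by omega
  have hN2 : (0 : ℝ) ≤ N - 2 := by
    have : (2 : ℝ) ≤ N := by exact_mod_cast hN
    linarith
  have hr0 : 0 < r := by linarith
  have hq0 : 0 < q := by linarith
  have heq := Real.exp_pos q
  have hsig := sig_nonneg hJ
  obtain ⟨R, hR⟩ : ∃ R, R = 2 * r * (Real.exp q + 1) := ⟨_, rfl⟩
  have hR1 : 1 ≤ R := by rw [hR]; nlinarith
  have hrR : 2 * r ≤ R := by rw [hR]; nlinarith
  have hL' : 2 * r < L := by rw [← hR] at hL; linarith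
  have hLL : (2 * r * Real.exp q + 2 * ρ) * 2 < L := by
    have e0 : 2 * (2 * r * (Real.exp q + 1)) = 2 * (2 * r * Real.exp q) + 4 * r := by ring
    linarith
  have hcc := Cls_cut hc ρ
  have hrange : ∀ e, cut ρ c e ≠ 0 → tnorm (e.2 - e.1) ≤ ρ := fun e he => cut_range ρ c e he
  have hrange' : ∀ e, cut ρ c e ≠ 0 → tnorm (e.2 - e.1) ≤ r := fun e he =>
    (hrange e he).trans (by linarith)
  have hen := pr_energy hJ β hβ L r q ρ hr hq hρ hρ0 hLL (cut ρ c) hcc hrange p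
  have hout := geo_out (L := L) hr0 hq0 p
  have hι : ∫ S, ‖Wv (cut ρ c) (pr r q p) i S‖ ^ 2
      ∂(GM (cut ρ c) (ball p (2 * r * (Real.exp q + 1))) η) ≤ iot J N β r q ρ u := by
    refine (iota_le hN hout (cut ρ c) (fun e => (hcc e).1) η i u ?_).trans
      (mul_le_mul_of_nonneg_right hen (by positivity))
    intro e he
    obtain ⟨hb1, hb2⟩ := geo_in hr0 hq0 hrange' p e he
    have h2 : ∀ x : Tor L, ball x r ⊆ ball p (2 * r * (Real.exp q + 1)) →
        ∫ S, (S x : EN N) i ^ 2 ∂(GM (cut ρ c) (ball p (2 * r * (Real.exp q + 1))) η) ≤ u := by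
      intro x hx
      rw [← gH_eq hN0 (cut ρ c) _ η (F := fun S => (S x : EN N) i ^ 2)
        (by fun_prop : Continuous fun S : Conf N L => (S x : EN N) i ^ 2).measurable]
      exact sq_mono hN0 (cut ρ c) hx x i u (fun η' => hU L hL' (cut ρ c) hcc x η' i) η
    exact ⟨h2 _ hb1, h2 _ hb2⟩
  have hι0 : 0 ≤ iot J N β r q ρ u := by
    unfold iot
    have : 0 ≤ ((N : ℝ) - 2) * u + 1 := by positivity
    positivity
  have hsub : ball p r ⊆ ball p (2 * r * (Real.exp q + 1)) := by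
    refine ball_sub ?_
    rw [sub_self, tnorm_zero, ← hR]
    linarith
  have hz : pr r q p p = 1 := by
    unfold pr
    exact gr_inner hr0 q (by rw [sub_self, tnorm_zero]; linarith)
  have hA' := varA hN0 hsub hout (cut ρ c) η i hz (geo_loc (q := q) hr0 hrange' p) m _ hm
    (fun η' j => hM L hL' (cut ρ c) hcc p η' j) hι
  have hB' := varB hN0 hsub hout (cut ρ c) η i hz (geo_loc (q := q) hr0 hrange' p) u _ hu
    (fun η' j => hU L hL' (cut ρ c) hcc p η' j) hι hι0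
  have hcard : ((ball p (2 * r * (Real.exp q + 1))).card : ℝ) ≤ 4 * Real.pi * R ^ 2 := by
    rw [← hR]
    refine (card_ball_pi L p R (by linarith)).trans ?_
    have : (R + 1) ^ 2 ≤ 4 * R ^ 2 := by nlinarith
    nlinarith
  have herr : ∀ F : Conf N L → ℝ, Measurable F → (∀ S, |F S| ≤ 1) →
      |gH (pS c) (ball p (2 * r * (Real.exp q + 1))) η F -
        gH (pS (cut ρ c)) (ball p (2 * r * (Real.exp q + 1))) η F| ≤
        Real.exp ((C * A * (4 * Real.pi) + 1) * β * (2 * r * (Real.exp q + 1)) ^ 2 *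
          Real.exp (-(a / 2) * ρ)) - 1 := by
    intro F hF hF1
    refine (hcut (β * A) (by positivity) L c (hexp β hβ L c hc)
      (ball p (2 * r * (Real.exp q + 1))) ρ N hN0 η F hF hF1).trans
      (sub_le_sub_right (Real.exp_le_exp.2 ?_) 1)
    refine mul_le_mul_of_nonneg_right ?_ (Real.exp_pos _).le
    rw [← hR] at hcard ⊢
    calc C * (β * A) * ((ball p R).card : ℝ) ≤ C * (β * A) * (4 * Real.pi * R ^ 2) := by gcongr
      _ = (C * A * (4 * Real.pi)) * β * R ^ 2 := by ring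
      _ ≤ (C * A * (4 * Real.pi) + 1) * β * R ^ 2 := by
          gcongr
          linarith
  have hc1 : Continuous (fun S : Conf N L => cc i (S p)) := cont_cc i p
  have g1 : ∫ S, (S p : EN N) i ^ 2 ∂(GM (cut ρ c) (ball p (2 * r * (Real.exp q + 1))) η) =
      gH (pS (cut ρ c)) (ball p (2 * r * (Real.exp q + 1))) η (fun S => cc i (S p) ^ 2) := by
    rw [gH_eq hN0 (cut ρ c) _ η (F := fun S => cc i (S p) ^ 2) (hc1.pow 2).measurable]
    rfl
  have g2 : ∫ S, (S p : EN N) i ∂(GM (cut ρ c) (ball p (2 * r * (Real.exp q + 1))) η) =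
      gH (pS (cut ρ c)) (ball p (2 * r * (Real.exp q + 1))) η (fun S => cc i (S p)) := by
    rw [gH_eq hN0 (cut ρ c) _ η (F := fun S => cc i (S p)) hc1.measurable]
    rfl
  refine ⟨∫ S, (S p : EN N) i ^ 2 ∂(GM (cut ρ c) (ball p (2 * r * (Real.exp q + 1))) η),
    ∫ S, (S p : EN N) i ∂(GM (cut ρ c) (ball p (2 * r * (Real.exp q + 1))) η),
    integral_nonneg fun S => sq_nonneg _, hB', hA', ?_, ?_⟩
  · rw [g1]
    exact herr _ (hc1.pow 2).measurable (fun S => by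
      rw [abs_of_nonneg (sq_nonneg _)]
      exact cc_sq_le _ _)
  · rw [g2]
    exact herr _ hc1.measurable (fun S => cc_abs_le _ _)

end Pool.Agent.H12.OL
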