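import Pool.Agent.H12.OL.Stp
import Pool.Graph.R_seed8.Y13.QM.Fin

/-! # The two point function and the influence of the boundary condition on both points -/

set_option autoImplicit false
set_option linter.unusedSectionVars false

noncomputable section

namespace Pool.Agent.H12.OL

open MeasureTheory Pool.Agent.H5R2.ON Pool.Agent.H717R2.ON3 Pool.Agent.H983R2.ONJ
open Pool.Agent.H983R2.ONJ.AuxFin269
open Pool.Agent.Q218.ON (EN ax)
open Pool.Agent.H12.LN
open Pool.Agent.Y13.QM (corS)
open Pool.Agent.Results.MP_8be4c0_mp.MassLowerBound (cJ)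

variable {N L : ℕ} [NeZero L]

/-- the boundary condition matters only at the sites coupled to the region -/
theorem gH_local (c : Tor L × Tor L → ℝ) (Λ : Finset (Tor L)) (η ζ : Conf N L)
    (h1 : ∀ e : Tor L × Tor L, e.1 ∈ Λ → e.2 ∉ Λ → c e ≠ 0 → η e.2 = ζ e.2)
    (h2 : ∀ e : Tor L × Tor L, e.1 ∉ Λ → e.2 ∈ Λ → c e ≠ 0 → η e.1 = ζ e.1)
    {F : Conf N L → ℝ} (hF : ∀ S, F (splice Λ S η) = F (splice Λ S ζ)) :
    gH (pS c) Λ η F = gH (pS c) Λ ζ F := by
  classical
  obtain ⟨κ, hκ⟩ : ∃ κ : ℝ, κ = ∑ e : Tor L × Tor L, (if e.1 ∈ Λ ∨ e.2 ∈ Λ then 0 else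
    c e * (inner ℝ (η e.1 : EN N) (η e.2 : EN N) - inner ℝ (ζ e.1 : EN N) (ζ e.2 : EN N))) :=
    ⟨_, rfl⟩
  have key : ∀ S : Conf N L, pS c (splice Λ S η) = pS c (splice Λ S ζ) + κ := by
    intro S
    unfold pS
    rw [hκ, ← Finset.sum_add_distrib]
    refine Finset.sum_congr rfl fun e _ => ?_
    unfold splice
    by_cases e1 : e.1 ∈ Λ
    · by_cases e2 : e.2 ∈ Λ
      · simp [e1, e2]
      · by_cases hc : c e = 0
        · simp [e1, hc]
        · simp [e1, e2, h1 e e1 e2 hc]
    · by_cases e2 : e.2 ∈ Λ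
      · by_cases hc : c e = 0
        · simp [e2, hc]
        · simp [e1, e2, h2 e e1 e2 hc]
      · simp only [e1, e2, or_self, if_false]
        ring
  unfold gH
  simp only [key, Real.exp_add, hF]
  have e1 : (fun S : Conf N L => F (splice Λ S ζ) * (Real.exp (pS c (splice Λ S ζ)) *
      Real.exp κ)) = fun S : Conf N L => (F (splice Λ S ζ) *
        Real.exp (pS c (splice Λ S ζ))) * Real.exp κ := by
    funext S
    ring
  rw [e1, integral_mul_const, integral_mul_const, mul_div_mul_right _ _ (Real.exp_pos _).ne']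

theorem gH_lin (hN : N ≠ 0) (c : Tor L × Tor L → ℝ) (Λ : Finset (Tor L)) (η : Conf N L)
    (a : Fin N → ℝ) (x : Tor L) :
    gH (pS c) Λ η (fun S => ∑ i, a i * cc i (S x)) =
      ∑ i, a i * gH (pS c) Λ η (fun S => cc i (S x)) := by
  have hc : ∀ i, Continuous fun S : Conf N L => a i * cc i (S x) := fun i =>
    continuous_const.mul (cont_cc i x)
  rw [gH_eq hN c Λ η (F := fun S => ∑ i, a i * cc i (S x))
    (continuous_finsetSum _ fun i _ => hc i).measurable, E_sum hN c Λ η _ _ hc]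
  refine Finset.sum_congr rfl fun i _ => ?_
  rw [gH_eq hN c Λ η (cont_cc i x).measurable, integral_const_mul]

/-- the correlation in the torus is bounded by the correlations in finite regions -/
theorem corS_le_reg (hN : N ≠ 0) (c : Tor L × Tor L → ℝ) (Λ : Finset (Tor L)) (x y : Tor L)
    (b : ℝ) (hb : ∀ η : Conf N L,
      gH (pS c) Λ η (fun S => inner ℝ (S x : EN N) (S y : EN N)) ≤ b) :
    corS (N := N) c x y ≤ b := by
  classical
  have hN' : 0 < N := Nat.pos_of_ne_zero hN
  have i0 : Fin N := ⟨0, hN'⟩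
  obtain ⟨η, -⟩ : ∃ η : Conf N L, True := by
    refine ⟨fun _ => ⟨EuclideanSpace.single i0 (1 : ℝ), ?_⟩, trivial⟩
    simp
  have e1 : corS (N := N) c x y =
      gH (pS c) Finset.univ η (fun S => inner ℝ (S x : EN N) (S y : EN N)) := by
    have hs : ∀ S : Conf N L, splice Finset.univ S η = S := by
      intro S
      funext z
      unfold splice
      simp
    unfold corS gH
    simp only [hs]
  rw [e1]
  have h1 := tower_le hN c (Finset.subset_univ Λ) η
    (F := fun S => inner ℝ (S x : EN N) (S y : EN N)) (G := fun _ => b)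
    (cont_inner x y) continuous_const fun η' => by
      rw [gH_const hN (continuous_pS c)]
      exact hb η'
  rwa [gH_const hN (continuous_pS c)] at h1

/-- two balls without couplings between them -/
theorem two_ball (hN : N ≠ 0) (c : Tor L × Tor L → ℝ) (B1 B2 : Finset (Tor L))
    (x y : Tor L) (hx : x ∈ B1) (hy : y ∉ B1) (m : ℝ) (hm0 : 0 ≤ m)
    (hd : ∀ e : Tor L × Tor L, (e.1 ∈ B1 ∧ e.2 ∈ B2) ∨ (e.1 ∈ B2 ∧ e.2 ∈ B1) → c e = 0)
    (h1 : ∀ (η : Conf N L) (i : Fin N), |gH (pS c) B1 η (fun S => cc i (S x))| ≤ m)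
    (h2 : ∀ (η : Conf N L) (i : Fin N), |gH (pS c) B2 η (fun S => cc i (S y))| ≤ m)
    (η : Conf N L) :
    gH (pS c) (B1 ∪ B2) η (fun S => inner ℝ (S x : EN N) (S y : EN N)) ≤ m ^ 2 := by
  classical
  have hN' : 0 < N := Nat.pos_of_ne_zero hN
  have i0 : Fin N := ⟨0, hN'⟩
  obtain ⟨V, hV⟩ : ∃ V : EN N, ∀ i, V i = gH (pS c) B1 η (fun S => cc i (S x)) :=
    ⟨WithLp.toLp 2 (fun i => gH (pS c) B1 η (fun S => cc i (S x))), fun i => rfl⟩
  have inn : ∀ (v : EN N) (s : Sph N), inner ℝ v (s : EN N) = ∑ i, v i * cc i s := by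
    intro v s
    rw [inner_sum']
    rfl
  have s1 : gH (pS c) (B1 ∪ B2) η (fun S => inner ℝ (S x : EN N) (S y : EN N)) ≤
      gH (pS c) (B1 ∪ B2) η (fun S => ax V (S y)) := by
    refine tower_le' hN c (Finset.subset_union_left) η (cont_inner x y)
      (by unfold ax; fun_prop) fun S => ?_
    obtain ⟨ζ, hζ⟩ : ∃ ζ : Conf N L, ζ = splice (B1 ∪ B2) S η := ⟨_, rfl⟩
    rw [← hζ]
    have e1 : gH (pS c) B1 ζ (fun S => inner ℝ (S x : EN N) (S y : EN N)) =
        gH (pS c) B1 ζ (fun S => ∑ i, (ζ y : EN N) i * cc i (S x)) := by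
      refine gH_congr _ _ _ fun S' => ?_
      have e2 : splice B1 S' ζ y = ζ y := by
        unfold splice
        rw [if_neg hy]
      rw [e2, real_inner_comm, inn]
    have e3 : gH (pS c) B1 ζ (fun S => ax V (S y)) = ∑ i, V i * (ζ y : EN N) i := by
      have e4 : gH (pS c) B1 ζ (fun S => ax V (S y)) =
          gH (pS c) B1 ζ (fun _ => ∑ i, V i * (ζ y : EN N) i) := by
        refine gH_congr _ _ _ fun S' => ?_
        have e2 : splice B1 S' ζ y = ζ y := by
          unfold splice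
          rw [if_neg hy]
        rw [e2]
        unfold ax
        rw [inner_sum']
      rw [e4, gH_const hN (continuous_pS c)]
    have e5 : ∀ i, gH (pS c) B1 ζ (fun S => cc i (S x)) = V i := by
      intro i
      rw [hV]
      refine gH_local c B1 ζ η ?_ ?_ ?_
      · intro e he1 he2 hce
        by_cases he3 : e.2 ∈ B2
        · exact absurd (hd e (Or.inl ⟨he1, he3⟩)) hce
        · rw [hζ]
          unfold splice
          rw [if_neg (by
            rw [Finset.mem_union]
            exact fun h => h.elim he2 he3)]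
      · intro e he1 he2 hce
        by_cases he3 : e.1 ∈ B2
        · exact absurd (hd e (Or.inr ⟨he3, he2⟩)) hce
        · rw [hζ]
          unfold splice
          rw [if_neg (by
            rw [Finset.mem_union]
            exact fun h => h.elim he1 he3)]
      · intro S'
        have e2 : ∀ ξ : Conf N L, splice B1 S' ξ x = S' x := by
          intro ξ
          unfold splice
          rw [if_pos hx]
        simp only [e2]
    rw [e1, gH_lin hN, e3]
    refine le_of_eq (Finset.sum_congr rfl fun i _ => ?_)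
    rw [e5]
    ring
  have s2 : ‖V‖ ≤ m := by
    obtain ⟨η', hη'⟩ := gH_dir hN c B1 η V i0 x
    have e1 : gH (pS c) B1 η (fun S => ax V (S x)) = ‖V‖ ^ 2 := by
      have e2 : (fun S : Conf N L => ax V (S x)) = fun S => ∑ i, V i * cc i (S x) := by
        funext S
        exact inn V (S x)
      rw [e2, gH_lin hN, EuclideanSpace.norm_sq_eq]
      refine Finset.sum_congr rfl fun i _ => ?_
      rw [← hV, Real.norm_eq_abs, sq_abs]
      ring
    have e3 := hη' (fun t => t)
    rw [e1, gH_smul] at e3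
    have e4 := (abs_le.1 (h1 η' i0)).2
    have h0 := norm_nonneg V
    rcases h0.eq_or_lt with h | h
    · rw [← h]
      exact hm0
    · have : ‖V‖ * ‖V‖ ≤ ‖V‖ * m := by
        rw [← pow_two, e3]
        exact mul_le_mul_of_nonneg_left e4 h0
      exact le_of_mul_le_mul_left this h
  refine s1.trans ?_
  obtain ⟨η', hη'⟩ := gH_dir hN c (B1 ∪ B2) η V i0 y
  have e3 := hη' (fun t => t)
  rw [e3, gH_smul]
  have e4 := (abs_le.1 (lin_mono hN c (Finset.subset_union_right (s₁ := B1)) y i0 m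
    (fun η' => h2 η' i0) η')).2
  calc ‖V‖ * gH (pS c) (B1 ∪ B2) η' (fun S => cc i0 (S y)) ≤ ‖V‖ * m :=
        mul_le_mul_of_nonneg_left e4 (norm_nonneg V)
    _ ≤ m * m := mul_le_mul_of_nonneg_right s2 hm0
    _ = m ^ 2 := by ring

theorem tnorm_le_diam (z : Tor L) : 2 * tnorm z ^ 2 ≤ (L : ℝ) ^ 2 := by
  have h : ∀ a : ZMod L, 4 * (a.valMinAbs : ℝ) ^ 2 ≤ (L : ℝ) ^ 2 := by
    intro a
    have h1 := ZMod.natAbs_valMinAbs_le a
    have h2 : 2 * (a.valMinAbs.natAbs : ℝ) ≤ L := by
      have : 2 * a.valMinAbs.natAbs ≤ L := by omega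
      exact_mod_cast this
    have h3 : (a.valMinAbs : ℝ) ^ 2 = (a.valMinAbs.natAbs : ℝ) ^ 2 := by
      rw [Nat.cast_natAbs, Int.cast_abs, sq_abs]
    rw [h3]
    have h4 : (0 : ℝ) ≤ a.valMinAbs.natAbs := Nat.cast_nonneg _
    nlinarith
  rw [tnorm_sq]
  have h1 := h z.1
  have h2 := h z.2
  unfold cr
  simp only
  linarith

/-- the two point function -/
theorem two_pt {J : ℤ × ℤ → ℝ} (hJ : Admissible J) : ∃ C a : ℝ, 0 < C ∧ 0 < a ∧
    ∀ N : ℕ, N ≠ 0 → ∀ β : ℝ, 0 ≤ β → ∀ R m : ℝ, 1 ≤ R → 0 ≤ m → MB J N β R m →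
    ∀ (L : ℕ) [NeZero L] (x y : Tor L), 3 * R ≤ tnorm (x - y) →
      corS (N := N) (cJ L J β) x y ≤ m ^ 2 +
        (Real.exp (C * β * R ^ 2 * Real.exp (-a * R)) - 1) := by
  classical
  obtain ⟨A, a, hA, ha, hexp⟩ := Cls_exp hJ
  obtain ⟨C, hC, hcut⟩ := cut_err a ha
  have hπ := Real.pi_pos
  refine ⟨C * A * (8 * Real.pi) + 1, a / 4, by positivity, by positivity, ?_⟩
  intro N hN β hβ R m hR hm hM L _ x y hxy
  have hcl : Cls J β (cJ L J β) := by
    intro e
    refine ⟨?_, le_rfl⟩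
    unfold cJ
    split_ifs with h
    · exact le_rfl
    · exact mul_nonneg hβ (Jper_nonneg hJ.nonneg (sub_ne_zero.2 h))
  have hL : 2 * R < L := by
    have h1 := tnorm_le_diam (x - y)
    have h2 : (3 * R) ^ 2 ≤ tnorm (x - y) ^ 2 := pow_le_pow_left₀ (by linarith) hxy 2
    have h3 : (0 : ℝ) ≤ L := Nat.cast_nonneg _
    nlinarith
  have hcc := Cls_cut hcl (R / 2)
  have hrange : ∀ e, cut (R / 2) (cJ L J β) e ≠ 0 → tnorm (e.2 - e.1) ≤ R / 2 :=
    fun e he => cut_range (R / 2) _ e he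
  refine corS_le_reg hN (cJ L J β) (ball x R ∪ ball y R) x y _ fun η => ?_
  have h1 := hcut (β * A) (by positivity) L (cJ L J β) (hexp β hβ L _ hcl)
    (ball x R ∪ ball y R) (R / 2) N hN η (fun S => inner ℝ (S x : EN N) (S y : EN N))
    (cont_inner x y).measurable (fun S => inner_abs_le _ _)
  have hdist : ∀ w ∈ ball x R, ∀ w' ∈ ball y R, R / 2 < tnorm (w' - w) := by
    intro w hw w' hw'
    rw [LN.mem_ball] at hw hw'
    have h2 := tnorm_add_le (x - w) (w - y)
    have h3 := tnorm_add_le (w - w') (w' - y)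
    rw [sub_add_sub_cancel] at h2 h3
    rw [tnorm_sub_comm x w] at h2
    rw [tnorm_sub_comm w w'] at h3
    linarith
  have hxB : x ∈ ball x R := by
    rw [LN.mem_ball, sub_self, tnorm_zero]
    linarith
  have hyB : y ∉ ball x R := by
    rw [LN.mem_ball, tnorm_sub_comm]
    intro h
    linarith
  have hdisj : ∀ w, w ∈ ball x R → w ∉ ball y R := by
    intro w h1 h2
    have := hdist w h1 w h2
    rw [sub_self, tnorm_zero] at this
    linarith
  have h2 := two_ball hN (cut (R / 2) (cJ L J β)) (ball x R) (ball y R) x y hxB hyB m hm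
    (by
      intro e he
      by_contra hne
      have h3 := hrange e hne
      rcases he with ⟨h4, h5⟩ | ⟨h4, h5⟩
      · have := hdist _ h4 _ h5
        linarith
      · have := hdist _ h5 _ h4
        rw [tnorm_sub_comm] at this
        linarith)
    (fun η i => hM L hL _ hcc x η i) (fun η i => hM L hL _ hcc y η i) η
  have hcard : (((ball x R ∪ ball y R).card : ℕ) : ℝ) ≤ 8 * Real.pi * R ^ 2 := by
    have h3 : (((ball x R ∪ ball y R).card : ℕ) : ℝ) ≤ (ball x R).card + (ball y R).card := by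
      exact_mod_cast Finset.card_union_le _ _
    have h4 := card_ball_pi L x R (by linarith)
    have h5 := card_ball_pi L y R (by linarith)
    have : (R + 1) ^ 2 ≤ 4 * R ^ 2 := by nlinarith
    nlinarith
  have h3 : Real.exp (C * (β * A) * ((ball x R ∪ ball y R).card : ℝ) *
      Real.exp (-(a / 2) * (R / 2))) - 1 ≤
      Real.exp ((C * A * (8 * Real.pi) + 1) * β * R ^ 2 * Real.exp (-(a / 4) * R)) - 1 := by
    refine sub_le_sub_right (Real.exp_le_exp.2 ?_) 1
    have e1 : -(a / 2) * (R / 2) = -(a / 4) * R := by ring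
    rw [e1]
    refine mul_le_mul_of_nonneg_right ?_ (Real.exp_pos _).le
    calc C * (β * A) * ((ball x R ∪ ball y R).card : ℝ) ≤ C * (β * A) * (8 * Real.pi * R ^ 2) := by
          gcongr
      _ = (C * A * (8 * Real.pi)) * β * R ^ 2 := by ring
      _ ≤ (C * A * (8 * Real.pi) + 1) * β * R ^ 2 := by
          gcongr
          linarith
  have h4 := (abs_le.1 (h1.trans h3)).2
  linarith

end Pool.Agent.H12.OL
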